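import Pool.Agent.MP_2fc7fa_gt.Fam

/-! Smooth families: integrals, Hadamard's lemma and Whitney's theorem on even functions. -/

open Set Filter Topology
open scoped ContDiff

namespace Pool.Agent.MP_2fc7fa_gt

variable {P : Type} [TopologicalSpace P] {X : Type} [NormedAddCommGroup X] [NormedSpace ℝ X]
  {U : Set X} {n : ℕ}

omit [NormedSpace ℝ X] in
lemma JC.slice {E : Type} [TopologicalSpace E] {F : P × ℝ → X → E} (h : JC U F) (p : P) {x : X}
    (hx : x ∈ U) : Continuous fun t => F (p, t) x :=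
  ContinuousOn.comp_continuous (f := fun t : ℝ => ((p, t), x)) h (by fun_prop)
    fun _ => ⟨mem_univ _, hx⟩

omit [NormedSpace ℝ X] in
lemma JC.integral {E : Type} [NormedAddCommGroup E] [NormedSpace ℝ E] {F : P × ℝ → X → E}
    (h : JC U F) : JC U fun p x => ∫ t in (0 : ℝ)..1, F (p, t) x := by
  rw [JC, continuousOn_iff_continuous_domRestrict]
  refine intervalIntegral.continuous_parametric_intervalIntegral_of_continuous'
    (f := fun (q : (univ ×ˢ U : Set (P × X))) t => F (q.1.1, t) q.1.2) ?_ 0 1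
  exact ContinuousOn.comp_continuous
    (f := fun q : (univ ×ˢ U : Set (P × X)) × ℝ => ((q.1.1.1, q.2), q.1.1.2)) h (by fun_prop)
    fun q => ⟨mem_univ _, q.1.2.2⟩

lemma hasFDerivWithinAt_integral {E : Type} [NormedAddCommGroup E] [NormedSpace ℝ E]
    [CompleteSpace E] (hU : Convex ℝ U) {F : P × ℝ → X → E} {F' : P × ℝ → X → X →L[ℝ] E}
    (h1 : JC U F) (h2 : ∀ p, ∀ x ∈ U, HasFDerivWithinAt (F p) (F' p x) U x) (h3 : JC U F') (p : P)
    {x : X} (hx : x ∈ U) : HasFDerivWithinAt (fun y => ∫ t in (0 : ℝ)..1, F (p, t) y)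
      (∫ t in (0 : ℝ)..1, F' (p, t) x) U x := by
  rw [hasFDerivWithinAt_iff_isLittleO, Asymptotics.isLittleO_iff]
  intro ε hε
  have h4 : ∀ᶠ y in 𝓝 x, ∀ t ∈ Icc (0 : ℝ) 1, y ∈ U → ‖F' (p, t) y - F' (p, t) x‖ ≤ ε := by
    refine isCompact_Icc.eventually_forall_of_forall_eventually fun t _ => ?_
    have c1 : ContinuousWithinAt (fun z : X × ℝ => F' (p, z.2) z.1 - F' (p, z.2) x) (U ×ˢ univ)
        (x, t) := by
      refine ContinuousWithinAt.sub ?_ ((h3.slice p hx).comp continuous_snd).continuousWithinAt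
      exact ContinuousOn.comp (f := fun z : X × ℝ => ((p, z.2), z.1)) h3 (by fun_prop)
        (fun z hz => ⟨mem_univ _, hz.1⟩) (x, t) ⟨hx, mem_univ _⟩
    have c2 := (Metric.tendsto_nhds.1 c1) ε hε
    rw [eventually_nhdsWithin_iff] at c2
    filter_upwards [c2] with z hz hzU
    simpa [dist_eq_norm] using (hz ⟨hzU, mem_univ _⟩).le
  obtain ⟨r, hr, h5⟩ := Metric.eventually_nhds_iff_ball.1 h4
  filter_upwards [inter_mem_nhdsWithin U (Metric.ball_mem_nhds x hr)] with y hy
  have i1 := (h1.slice p hy.1).intervalIntegrable (μ := MeasureTheory.volume) 0 1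
  have i2 := (h1.slice p hx).intervalIntegrable (μ := MeasureTheory.volume) 0 1
  have i3 := (h3.slice p hx).intervalIntegrable (μ := MeasureTheory.volume) 0 1
  have i4 : IntervalIntegrable (fun t => F' (p, t) x (y - x)) MeasureTheory.volume 0 1 :=
    ((h3.slice p hx).clm_apply continuous_const).intervalIntegrable 0 1
  rw [← ContinuousLinearMap.apply_apply (𝕜 := ℝ) (y - x),
    ← ContinuousLinearMap.intervalIntegral_comp_comm _ i3]
  simp only [ContinuousLinearMap.apply_apply]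
  rw [← intervalIntegral.integral_sub i1 i2, ← intervalIntegral.integral_sub (i1.sub i2) i4]
  refine (intervalIntegral.norm_integral_le_of_norm_le_const (C := ε * ‖y - x‖)
    fun t ht => ?_).trans (by simp)
  rw [uIoc_of_le zero_le_one] at ht
  exact Convex.norm_image_sub_le_of_norm_hasFDerivWithin_le' (s := U ∩ Metric.ball x r)
    (fun z hz => (h2 (p, t) z hz.1).mono inter_subset_left)
    (fun z hz => h5 z hz.2 t ⟨ht.1.le, ht.2⟩ hz.1) (hU.inter (convex_ball x r))
    ⟨hx, Metric.mem_ball_self hr⟩ hy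

lemma Fam.integral {E : Type} [NormedAddCommGroup E] [NormedSpace ℝ E] [CompleteSpace E]
    (hU : Convex ℝ U) {F : P × ℝ → X → E} (h : Fam U n E F) :
    Fam U n E fun p x => ∫ t in (0 : ℝ)..1, F (p, t) x := by
  induction n generalizing E with
  | zero => exact JC.integral h
  | succ n ih =>
    obtain ⟨h1, F', h2, h3⟩ := h
    exact ⟨h1.integral, _, fun p x hx => hasFDerivWithinAt_integral hU h1 h2 h3.jc p hx, ih h3⟩

/-- Smooth families. -/
def Sm {E : Type} [NormedAddCommGroup E] [NormedSpace ℝ E] (U : Set X) (F : P → X → E) : Prop :=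
  ∀ n, Fam U n E F

variable {E G K : Type} [NormedAddCommGroup E] [NormedSpace ℝ E] [NormedAddCommGroup G]
  [NormedSpace ℝ G] [NormedAddCommGroup K] [NormedSpace ℝ K]

lemma Sm.jc {F : P → X → E} (h : Sm U F) : JC U F := h 0

lemma Sm.congr {F H : P → X → E} (h : Sm U F) (e : ∀ p, ∀ x ∈ U, H p x = F p x) : Sm U H :=
  fun n => (h n).congr e

lemma Sm.mono {F : P → X → E} {W : Set X} (h : Sm U F) (hW : W ⊆ U) : Sm W F :=
  fun n => (h n).mono hW

lemma Sm.param {F : P → X → E} {Q : Type} [TopologicalSpace Q] (h : Sm U F) {g : Q → P}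
    (hg : Continuous g) : Sm U fun q => F (g q) := fun n => (h n).param hg

lemma sm_const {c : P → E} (hc : Continuous c) : Sm U fun p (_ : X) => c p := fun _ => fam_const hc

lemma sm_id : Sm U fun (_ : P) (x : X) => x := fun _ => fam_id

lemma Sm.clm {F : P → X → E} (h : Sm U F) (L : E →L[ℝ] G) : Sm U fun p x => L (F p x) :=
  fun n => (h n).clm L

lemma Sm.add {F H : P → X → E} (h : Sm U F) (h' : Sm U H) : Sm U fun p x => F p x + H p x :=
  fun n => (h n).add (h' n)

lemma Sm.prod {F : P → X → E} {H : P → X → G} (h : Sm U F) (h' : Sm U H) :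
    Sm U fun p x => (F p x, H p x) := fun n => (h n).prod (h' n)

lemma Sm.bilin {F : P → X → E} {H : P → X → G} (h : Sm U F) (h' : Sm U H)
    (B : E →L[ℝ] G →L[ℝ] K) : Sm U fun p x => B (F p x) (H p x) := fun n => (h n).bilin (h' n) B

lemma Sm.smul {F : P → X → ℝ} {H : P → X → G} (h : Sm U F) (h' : Sm U H) :
    Sm U fun p x => F p x • H p x := h.bilin h' (ContinuousLinearMap.lsmul ℝ ℝ)

lemma Sm.app {F : P → X → E →L[ℝ] G} {H : P → X → E} (h : Sm U F) (h' : Sm U H) :
    Sm U fun p x => F p x (H p x) := h.bilin h' (ContinuousLinearMap.id ℝ _)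

lemma Sm.comp {W : Set G} {F : P → G → E} {H : P → X → G} (h : Sm W F) (h' : Sm U H)
    (hm : ∀ p, MapsTo (H p) U W) : Sm U fun p x => F p (H p x) := fun n => (h n).comp (h' n) hm

lemma sm_of_contDiffOn {f : X → E} (hU : UniqueDiffOn ℝ U) (hf : ContDiffOn ℝ ∞ f U) :
    Sm U fun (_ : P) => f := fun _ => fam_of_contDiffOn hU hf

lemma sm_of_contDiff {f : X → E} (hf : ContDiff ℝ ∞ f) : Sm U fun (_ : P) => f :=
  (sm_of_contDiffOn uniqueDiffOn_univ hf.contDiffOn).mono (subset_univ _)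

lemma Sm.post {W : Set E} {F : P → X → E} (h : Sm U F) {g : E → G} (hW : IsOpen W)
    (hg : ContDiffOn ℝ ∞ g W) (hm : ∀ p, MapsTo (F p) U W) : Sm U fun p x => g (F p x) :=
  (sm_of_contDiffOn hW.uniqueDiffOn hg).comp h hm

lemma Sm.post' {F : P → X → E} (h : Sm U F) {g : E → G} (hg : ContDiff ℝ ∞ g) :
    Sm U fun p x => g (F p x) := h.post isOpen_univ hg.contDiffOn fun _ => mapsTo_univ _ _

lemma Sm.contDiffOn {F : P → X → E} (h : Sm U F) (hU : UniqueDiffOn ℝ U) (p : P) :
    ContDiffOn ℝ ∞ (F p) U := contDiffOn_infty.2 fun n => (h n).contDiffOn hU p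

lemma Sm.fderiv {F : P → X → E} (h : Sm U F) (hU : IsOpen U) : Sm U fun p => fderiv ℝ (F p) :=
  fun n => ((h (n + 1)).fderivWithin hU.uniqueDiffOn).congr fun _ _ hx =>
    (fderivWithin_of_isOpen hU hx).symm

lemma sm_union {F : P → X → E} (hU : UniqueDiffOn ℝ U) {O O' : Set X} (hO : IsOpen O)
    (hO' : IsOpen O') (hc : U ⊆ O ∪ O') (h : Sm (U ∩ O) F) (h' : Sm (U ∩ O') F) : Sm U F :=
  fun n => fam_local hU fun _ hx => (hc hx).elim (fun e => ⟨O, hO, e, h n⟩) fun e => ⟨O', hO', e, h' n⟩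

lemma sm_iff_iter {F : P → X → E} (hU : IsOpen U) : Sm U F ↔ (∀ p, ContDiffOn ℝ ∞ (F p) U) ∧
    ∀ m, JC U fun p => iteratedFDeriv ℝ m (F p) :=
  ⟨fun h => ⟨h.contDiffOn hU.uniqueDiffOn, fun m => (h m).jc_iter hU⟩,
    fun h _ => fam_of_iter hU h.1 h.2⟩

section oneVar
variable {I : Set ℝ}

lemma Sm.derivWithin {F : P → ℝ → E} (h : Sm I F) (hI : UniqueDiffOn ℝ I) :
    Sm I fun p => derivWithin (F p) I :=
  fun n => ((h (n + 1)).fderivWithin hI).clm (ContinuousLinearMap.apply ℝ E (1 : ℝ))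

lemma Sm.hasDerivWithinAt {F : P → ℝ → E} (h : Sm I F) (p : P) {x : ℝ} (hx : x ∈ I) :
    HasDerivWithinAt (F p) (_root_.derivWithin (F p) I x) I x :=
  ((h 1).diffOn p x hx).hasDerivWithinAt

lemma fam_succ_of_deriv {F F' : P → ℝ → E} (h : JC I F)
    (h2 : ∀ p, ∀ x ∈ I, HasDerivWithinAt (F p) (F' p x) I x) (h3 : Fam I n E F') :
    Fam I (n + 1) E F :=
  ⟨h, _, fun p x hx => (h2 p x hx).hasFDerivWithinAt,
    h3.clm (ContinuousLinearMap.smulRightL ℝ ℝ E (1 : ℝ →L[ℝ] ℝ))⟩

/-- Hadamard's lemma with parameters. -/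
lemma Sm.hadamard [CompleteSpace E] {F : P → ℝ → E} (h : Sm I F) (hI : Convex ℝ I)
    (hI' : UniqueDiffOn ℝ I) {a : ℝ} (ha : a ∈ I) :
    ∃ H : P → ℝ → E, Sm I H ∧ ∀ p, ∀ s ∈ I, F p s = F p a + (s - a) • H p s := by
  have hm : ∀ t : ℝ, t ∈ Icc (0 : ℝ) 1 → ∀ s ∈ I, a + t • (s - a) ∈ I := fun t ht s hs =>
    hI.add_smul_sub_mem ha hs ht
  have h1 : Sm I fun (q : P × ℝ) s =>
      _root_.derivWithin (F q.1) I (a + (projIcc 0 1 zero_le_one q.2 : ℝ) • (s - a)) :=
    ((h.derivWithin hI').param continuous_fst).comp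
      ((sm_const continuous_const).add ((sm_const (by fun_prop)).smul
        (sm_of_contDiff (f := fun s => s - a) (by fun_prop))))
      fun q s hs => hm _ (projIcc 0 1 zero_le_one q.2).2 s hs
  refine ⟨_, fun n => (h1 n).integral hI, fun p s hs => ?_⟩
  have h2 := intervalIntegral.integral_eq_sub_of_hasDeriv_right_of_le (a := 0) (b := 1)
    (f := fun t : ℝ => F p (a + t • (s - a)))
    (f' := fun t : ℝ => (s - a) • _root_.derivWithin (F p) I
      (a + (projIcc 0 1 zero_le_one t : ℝ) • (s - a))) zero_le_one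
    ((h.jc.at p).comp (by fun_prop) fun t ht => hm t ht s hs) (fun t ht => ?_)
    (((h1.jc.slice p hs).const_smul (s - a)).intervalIntegrable 0 1)
  · rw [intervalIntegral.integral_smul] at h2
    rw [h2]
    simp
  · have ht' : t ∈ Icc (0 : ℝ) 1 := ⟨ht.1.le, ht.2.le⟩
    have h3 : HasDerivWithinAt (fun t : ℝ => a + t • (s - a)) (s - a) (Icc 0 1) t := by
      simpa using (((hasDerivAt_id t).mul_const (s - a)).const_add a).hasDerivWithinAt
    rw [projIcc_of_mem _ ht']
    exact (((h.hasDerivWithinAt p (hm t ht' s hs)).scomp t h3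
      fun u hu => hm u hu s hs).hasDerivAt (Icc_mem_nhds ht.1 ht.2)).hasDerivWithinAt

/-- Whitney's theorem on even functions, with parameters. -/
lemma Sm.whitney [CompleteSpace E] {F : P → ℝ → E} (h : Sm univ F) (he : ∀ p t, F p (-t) = F p t) :
    Sm (Ici 0) fun p s => F p √s := by
  intro n
  have key : ∀ {F : P → ℝ → E}, Sm univ F → JC (Ici 0) fun p s => F p √s := fun h =>
    ContinuousOn.comp (f := fun q : P × ℝ => (q.1, √q.2)) h.jc (by fun_prop)
      fun _ _ => ⟨mem_univ _, mem_univ _⟩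
  induction n generalizing F with
  | zero => exact key h
  | succ n ih =>
    have hd : ∀ p t, HasDerivAt (F p) (deriv (F p) t) t := fun p t => by
      simpa [derivWithin_univ] using h.hasDerivWithinAt p (mem_univ t)
    have ho : ∀ p t, deriv (F p) (-t) = -deriv (F p) t := fun p t => by
      have h1 : HasDerivAt (fun u => F p (-u)) ((-1 : ℝ) • deriv (F p) (-t)) t :=
        (hd p (-t)).scomp t (hasDerivAt_neg t)
      simp only [he] at h1
      rw [(hd p t).unique h1]
      simp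
    obtain ⟨H, h1, h2⟩ := (h.derivWithin uniqueDiffOn_univ).hadamard convex_univ uniqueDiffOn_univ
      (mem_univ 0)
    have h3 : ∀ p t, deriv (F p) t = t • H p t := fun p t => by
      have h4 := h2 p t (mem_univ t)
      have h5 := ho p 0
      rw [neg_zero, eq_neg_iff_add_eq_zero, ← two_smul ℝ, smul_eq_zero] at h5
      simpa [derivWithin_univ, h5.resolve_left two_ne_zero] using h4
    have h4 : ∀ p t, H p (-t) = H p t := fun p t => by
      rcases eq_or_ne t 0 with rfl | ht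
      · rw [neg_zero]
      · have h5 := ho p t
        rw [h3, h3, neg_smul, neg_inj] at h5
        exact smul_right_injective E ht h5
    have h5 : ∀ p s, 0 < s → HasDerivAt (fun s => F p √s) ((1 / 2 : ℝ) • H p √s) s := by
      intro p s hs
      have h6 := (hd p √s).scomp s (Real.hasDerivAt_sqrt hs.ne')
      have h7 : √s ≠ 0 := (Real.sqrt_pos.2 hs).ne'
      rw [h3, smul_smul, show 1 / (2 * √s) * √s = 1 / 2 by field_simp] at h6
      exact h6
    refine fam_succ_of_deriv (F' := fun p s => (1 / 2 : ℝ) • H p √s) (key h) (fun p s hs => ?_)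
      ((ih h1 h4).clm (ContinuousLinearMap.lsmul ℝ ℝ (1 / 2 : ℝ)))
    rcases eq_or_lt_of_le (show 0 ≤ s from hs) with rfl | hs'
    · refine hasDerivWithinAt_Ici_of_tendsto_deriv (s := Ioi 0)
        (fun u hu => (h5 p u hu).differentiableAt.differentiableWithinAt)
        (((key h).at p 0 hs).mono Ioi_subset_Ici_self) self_mem_nhdsWithin ?_
      refine Tendsto.congr' ?_ ((((key h1).at p 0 hs).mono Ioi_subset_Ici_self).const_smul (1 / 2 : ℝ))
      filter_upwards [self_mem_nhdsWithin] with u hu using (h5 p u hu).deriv.symm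
    · exact (h5 p s hs').hasDerivWithinAt

end oneVar

end Pool.Agent.MP_2fc7fa_gt
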