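import Pool.Agent.MP_2fc7fa_gt.Defs
import Pool.Agent.MP_2fc7fa_gt.Sm

/-! Forms as (bi)linear maps, the action of `ℂˣ × SU(2)` and its infinitesimal generators. -/

open Set Filter Topology
open scoped ContDiff ComplexConjugate Matrix

namespace Pool.Agent.MP_2fc7fa_gt

/-- A one-form at a point as a linear map. -/
noncomputable def linL : (V [⋀^Fin 1]→L[ℝ] ℝ) →L[ℝ] V →L[ℝ] ℝ :=
  (ContinuousAlternatingMap.ofSubsingletonLIE (𝕜 := ℝ) (E := V) (F := ℝ)
    (0 : Fin 1)).symm.toContinuousLinearEquiv.toContinuousLinearMap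

/-- A two-form at a point as a bilinear map. -/
noncomputable def bilL : (V [⋀^Fin 2]→L[ℝ] ℝ) →L[ℝ] V →L[ℝ] V →L[ℝ] ℝ :=
  (ContinuousLinearMap.compL ℝ V _ _ linL) ∘L
    (ContinuousAlternatingMap.curryLeftLI (n := 1)).toContinuousLinearMap

lemma linL_apply (φ : V [⋀^Fin 1]→L[ℝ] ℝ) (u : V) : linL φ u = φ ![u] := by
  change φ (fun _ => u) = _
  congr 1
  ext1 i
  fin_cases i
  rfl

lemma bilL_apply (φ : V [⋀^Fin 2]→L[ℝ] ℝ) (u v : V) : bilL φ u v = φ ![u, v] := by
  change linL (φ.curryLeft u) v = _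
  rw [linL_apply]
  rfl

lemma eq_linL (φ : V [⋀^Fin 1]→L[ℝ] ℝ) (v : Fin 1 → V) : φ v = linL φ (v 0) := by
  rw [linL_apply]
  congr 1
  ext1 i
  fin_cases i
  rfl

lemma eq_bilL (φ : V [⋀^Fin 2]→L[ℝ] ℝ) (v : Fin 2 → V) : φ v = bilL φ (v 0) (v 1) := by
  rw [bilL_apply]
  congr 1
  ext1 i
  fin_cases i <;> rfl

lemma bilL_self (φ : V [⋀^Fin 2]→L[ℝ] ℝ) (u : V) : bilL φ u u = 0 := by
  rw [bilL_apply]
  exact φ.map_eq_zero_of_eq _ (i := 0) (j := 1) rfl (by decide)

lemma bilL_skew (φ : V [⋀^Fin 2]→L[ℝ] ℝ) (u v : V) : bilL φ u v = -bilL φ v u := by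
  have h := bilL_self φ (u + v)
  simp only [map_add, add_apply, bilL_self] at h
  linarith

lemma bilL_extDeriv (β : Form 1) (z u v : V) :
    bilL (extDeriv β z) u v = linL (fderiv ℝ β z u) v - linL (fderiv ℝ β z v) u := by
  rw [bilL_apply, extDeriv, ContinuousAlternatingMap.alternatizeUncurryFin_apply]
  simp [Fin.sum_univ_two, eq_linL, Fin.removeNth, sub_eq_add_neg]

lemma closed_apply {σ : Form 2} {z : V} (h : extDeriv σ z = 0) (u v w : V) :
    bilL (fderiv ℝ σ z u) v w - bilL (fderiv ℝ σ z v) u w + bilL (fderiv ℝ σ z w) u v = 0 := by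
  have h1 : extDeriv σ z ![u, v, w] = 0 := by rw [h]; rfl
  rw [extDeriv, ContinuousAlternatingMap.alternatizeUncurryFin_apply] at h1
  simpa [Fin.sum_univ_three, eq_bilL, Fin.removeNth, sub_eq_add_neg, Fin.succAbove] using h1

lemma clm_hasDerivAt {E F : Type} [NormedAddCommGroup E] [NormedSpace ℝ E] [NormedAddCommGroup F]
    [NormedSpace ℝ F] (L : E →L[ℝ] F) {f : ℝ → E} {f' : E} {t : ℝ} (h : HasDerivAt f f' t) :
    HasDerivAt (fun t => L (f t)) (L f') t := L.hasFDerivAt.comp_hasDerivAt t h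

lemma hasDerivAt_lin {β : Form 1} {z u : ℝ → V} {z' u' : V} {t : ℝ}
    (h : DifferentiableAt ℝ β (z t)) (hz : HasDerivAt z z' t) (hu : HasDerivAt u u' t) :
    HasDerivAt (fun t => linL (β (z t)) (u t))
      (linL (fderiv ℝ β (z t) z') (u t) + linL (β (z t)) u') t :=
  (linL.hasFDerivAt.comp_hasDerivAt t (h.hasFDerivAt.comp_hasDerivAt t hz)).clm_apply hu

lemma hasDerivAt_bil {σ : Form 2} {z u v : ℝ → V} {z' u' v' : V} {t : ℝ}
    (h : DifferentiableAt ℝ σ (z t)) (hz : HasDerivAt z z' t) (hu : HasDerivAt u u' t)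
    (hv : HasDerivAt v v' t) :
    HasDerivAt (fun t => bilL (σ (z t)) (u t) (v t))
      (bilL (fderiv ℝ σ (z t) z') (u t) (v t) + bilL (σ (z t)) u' (v t) +
        bilL (σ (z t)) (u t) v') t := by
  have h1 : HasDerivAt (fun t => bilL (σ (z t))) (bilL (fderiv ℝ σ (z t) z')) t :=
    clm_hasDerivAt (F := V →L[ℝ] V →L[ℝ] ℝ) bilL (h.hasFDerivAt.comp_hasDerivAt t hz)
  have h2 : HasDerivAt (fun t => bilL (σ (z t)) (u t))
      (bilL (fderiv ℝ σ (z t) z') (u t) + bilL (σ (z t)) u') t := h1.clm_apply hu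
  simpa only [add_apply] using h2.clm_apply hv

/-- The map `z ↦ (d z₀, a z₁ - conj b z₂, b z₁ + conj a' z₂)`. -/
noncomputable def lm (d a a' b b' : ℂ) : V →L[ℝ] V :=
  LinearMap.toContinuousLinearMap
    { toFun := fun z => ![d * z 0, a * z 1 - b' * z 2, b * z 1 + a' * z 2]
      map_add' := fun x y => by ext i; fin_cases i <;> simp <;> ring
      map_smul' := fun c x => by ext i; fin_cases i <;> simp <;> ring }

lemma lm_apply (d a a' b b' : ℂ) (z : V) :
    lm d a a' b b' z = ![d * z 0, a * z 1 - b' * z 2, b * z 1 + a' * z 2] := rfl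

/-- The action of `ℂˣ × SU(2)`. -/
noncomputable def act (c a b : ℂ) : V →L[ℝ] V := lm c (c * a) (c * conj a) (c * b) (c * conj b)

/-- Infinitesimal generators of `SU(2)`. -/
noncomputable def mat (a b : ℂ) : V →L[ℝ] V := lm 0 a (conj a) b (conj b)

/-- Invariance under `ℂˣ × SU(2)`. -/
def Inv {k : ℕ} (α : Form k) : Prop :=
  ∀ c a b : ℂ, c ≠ 0 → ‖a‖ ^ 2 + ‖b‖ ^ 2 = 1 → ∀ z,
    (α (act c a b z)).compContinuousLinearMap (act c a b) = α z

lemma act_eq (c a b : ℂ) (z : V) :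
    act c a b z = c • (!![1, 0, 0; 0, a, -conj b; 0, b, conj a] *ᵥ z) := by
  ext i
  fin_cases i <;> simp [act, lm_apply, dotProduct, Fin.sum_univ_three] <;> ring

lemma act_one (c : ℂ) (z : V) : act c 1 0 z = c • z := by
  ext i
  fin_cases i <;> simp [act, lm_apply]

lemma inv_iff {σ : Form 2} : Inv σ ↔
    (∀ c : ℂ, c ≠ 0 → ∀ z v, σ (c • z) (c • v) = σ z v) ∧ Invariant SU2 σ := by
  constructor
  · refine fun h => ⟨fun c hc z v => ?_, ?_⟩
    · rw [← h c 1 0 hc (by simp) z]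
      simp only [ContinuousAlternatingMap.compContinuousLinearMap_apply, Function.comp_def, act_one]
      rfl
    · rintro g ⟨a, b, hab, rfl⟩ z v
      rw [← h 1 a b one_ne_zero hab z]
      simp only [ContinuousAlternatingMap.compContinuousLinearMap_apply, Function.comp_def, act_eq,
        one_smul]
  · rintro ⟨h1, h2⟩ c a b hc hab z
    ext v
    rw [← h2 _ ⟨a, b, hab, rfl⟩ z v, ← h1 c hc]
    simp only [ContinuousAlternatingMap.compContinuousLinearMap_apply, Function.comp_def, act_eq]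
    rfl

lemma Inv.lin {β : Form 1} (h : Inv β) {c a b : ℂ} (hc : c ≠ 0) (hab : ‖a‖ ^ 2 + ‖b‖ ^ 2 = 1)
    (z u : V) : linL (β (act c a b z)) (act c a b u) = linL (β z) u := by
  rw [← h c a b hc hab z, linL_apply, linL_apply]
  simp only [ContinuousAlternatingMap.compContinuousLinearMap_apply]
  congr 1
  ext1 i
  fin_cases i
  rfl

lemma Inv.bil {σ : Form 2} (h : Inv σ) {c a b : ℂ} (hc : c ≠ 0) (hab : ‖a‖ ^ 2 + ‖b‖ ^ 2 = 1)
    (z u v : V) : bilL (σ (act c a b z)) (act c a b u) (act c a b v) = bilL (σ z) u v := by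
  rw [← h c a b hc hab z, bilL_apply, bilL_apply]
  simp only [ContinuousAlternatingMap.compContinuousLinearMap_apply]
  congr 1
  ext1 i
  fin_cases i <;> rfl

lemma act_ne {c a b : ℂ} (hc : c ≠ 0) (hab : ‖a‖ ^ 2 + ‖b‖ ^ 2 = 1) {z : V} (hz : z ≠ 0) :
    act c a b z ≠ 0 := by
  intro h
  have h0 := congrFun h 0
  have h1 := congrFun h 1
  have h2 := congrFun h 2
  have h3 : a * conj a + b * conj b = 1 := by
    rw [Complex.mul_conj', Complex.mul_conj']
    exact_mod_cast hab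
  change c * z 0 = 0 at h0
  change c * a * z 1 - c * conj b * z 2 = 0 at h1
  change c * b * z 1 + c * conj a * z 2 = 0 at h2
  refine hz (funext fun i => mul_left_cancel₀ hc ?_)
  fin_cases i
  · simpa using h0
  · change c * z 1 = c * 0
    linear_combination conj a * h1 + conj b * h2 - c * z 1 * h3
  · change c * z 2 = c * 0
    linear_combination a * h2 - b * h1 - c * z 2 * h3

lemma Inv.extDeriv {k : ℕ} {β : Form k} (h : Inv β) (hd : ∀ z, z ≠ 0 → DifferentiableAt ℝ β z)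
    {c a b : ℂ} (hc : c ≠ 0) (hab : ‖a‖ ^ 2 + ‖b‖ ^ 2 = 1) {z : V} (hz : z ≠ 0) :
    (extDeriv β (act c a b z)).compContinuousLinearMap (act c a b) = extDeriv β z := by
  have h1 := extDeriv_pullback (r := 2) (x := z) (f := act c a b) (hd _ (act_ne hc hab hz))
    (act c a b).contDiff.contDiffAt (by simp)
  simp only [ContinuousLinearMap.fderiv, h c a b hc hab] at h1
  exact h1.symm

/-- One-parameter subgroups of `SU(2)`. -/
lemma curve_su {a b : ℂ} (ha : a.re = 0) (hab : ‖a‖ ^ 2 + ‖b‖ ^ 2 = 1) :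
    ∃ p q : ℝ → ℂ, (∀ t, ‖p t‖ ^ 2 + ‖q t‖ ^ 2 = 1) ∧ (∀ z, act 1 (p 0) (q 0) z = z) ∧
      ∀ z, HasDerivAt (fun t => act 1 (p t) (q t) z) (mat a b z) 0 := by
  refine ⟨fun t => Real.cos t + Real.sin t * a, fun t => Real.sin t * b, fun t => ?_, fun z => ?_,
    fun z => ?_⟩
  · rw [Complex.sq_norm, Complex.sq_norm, Complex.normSq_apply, Complex.normSq_apply] at *
    simp only [Complex.add_re, Complex.ofReal_re, Complex.re_ofReal_mul, ha, Complex.add_im,
      Complex.ofReal_im, Complex.im_ofReal_mul] at *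
    have := Real.sin_sq_add_cos_sq t
    linear_combination Real.sin t ^ 2 * hab + this
  · simp [act_one]
  · have h1 : (fun t : ℝ => act 1 (Real.cos t + Real.sin t * a) (Real.sin t * b) z) =
        fun t => lm 1 0 0 0 0 z + Real.cos t • lm 0 1 1 0 0 z + Real.sin t • mat a b z := by
      ext t i
      fin_cases i <;> simp [act, mat, lm_apply, -Complex.ofReal_cos, -Complex.ofReal_sin] <;> ring
    rw [h1]
    simpa using (((Real.hasDerivAt_cos 0).smul_const (lm 0 1 1 0 0 z)).const_add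
      (lm 1 0 0 0 0 z)).fun_add ((Real.hasDerivAt_sin 0).smul_const (mat a b z))

lemma Inv.inf_lin {β : Form 1} (h : Inv β) {z : V} (hd : DifferentiableAt ℝ β z) {a b : ℂ}
    (ha : a.re = 0) (hab : ‖a‖ ^ 2 + ‖b‖ ^ 2 = 1) (u : V) :
    linL (fderiv ℝ β z (mat a b z)) u + linL (β z) (mat a b u) = 0 := by
  obtain ⟨p, q, h1, h2, h3⟩ := curve_su ha hab
  have h4 := hasDerivAt_lin (β := β) (by rwa [h2]) (h3 z) (h3 u)
  simp only [h.lin one_ne_zero (h1 _), h2] at h4
  exact h4.unique (hasDerivAt_const _ _)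

lemma Inv.inf_bil {σ : Form 2} (h : Inv σ) {z : V} (hd : DifferentiableAt ℝ σ z) {a b : ℂ}
    (ha : a.re = 0) (hab : ‖a‖ ^ 2 + ‖b‖ ^ 2 = 1) (u v : V) :
    bilL (fderiv ℝ σ z (mat a b z)) u v + bilL (σ z) (mat a b u) v + bilL (σ z) u (mat a b v) = 0 := by
  obtain ⟨p, q, h1, h2, h3⟩ := curve_su ha hab
  have h4 := hasDerivAt_bil (σ := σ) (by rwa [h2]) (h3 z) (h3 u) (h3 v)
  simp only [h.bil one_ne_zero (h1 _), h2] at h4
  exact h4.unique (hasDerivAt_const _ _)

lemma Inv.inf_scale {β : Form 1} (h : Inv β) {z : V} (hd : DifferentiableAt ℝ β z) (c : ℂ) (u : V) :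
    linL (fderiv ℝ β z (c • z)) u + linL (β z) (c • u) = 0 := by
  have h3 : ∀ z : V, HasDerivAt (fun t : ℝ => Complex.exp (t * c) • z) (c • z) 0 := fun z => by
    simpa using ((Complex.ofRealCLM.hasDerivAt (x := 0)).mul_const c).cexp.smul_const z
  have h4 := hasDerivAt_lin (β := β) (by simpa using hd) (h3 z) (h3 u)
  have h5 : ∀ t : ℝ, linL (β (Complex.exp (t * c) • z)) (Complex.exp (t * c) • u) = linL (β z) u :=
    fun t => by simpa only [act_one] using h.lin (a := 1) (b := 0) (Complex.exp_ne_zero _) (by simp) z u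
  simp only [h5] at h4
  simpa using h4.unique (hasDerivAt_const _ _)

end Pool.Agent.MP_2fc7fa_gt
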