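import Pool.Agent.MP_2fc7fa_gt.Cls

/-! Reconstruction of an invariant symplectic form from its curve. -/

open Set Filter Topology Complex
open scoped ContDiff ComplexConjugate Matrix InnerProductSpace

namespace Pool.Agent.MP_2fc7fa_gt

/-- An equivariant horizontal vector field. -/
noncomputable def yy (g : E3) (z : V) : V :=
  ![-g 2 * (z 1 * conj (z 1) + z 2 * conj (z 2)) * z 0,
    g 2 * (z 0 * conj (z 0)) * z 1 - (g 1 - I * g 0) * z 0 ^ 2 * conj (z 2),
    g 2 * (z 0 * conj (z 0)) * z 2 + (g 1 - I * g 0) * z 0 ^ 2 * conj (z 1)]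

/-- The orbit parameter. -/
noncomputable def sq (z : V) : ℝ := 1 - (nn z)⁻¹ * ‖z 0‖ ^ 2

/-- The invariant one-form with coefficients `g`. -/
noncomputable def al (g : ℝ → E3) : Form 1 := fun z => cov ((nn z)⁻¹ ^ 2 • yy (g (sq z)) z)

lemma contDiff_yy : ContDiff ℝ ∞ fun q : E3 × V => yy q.1 q.2 := by
  have h1 : ∀ i, ContDiff ℝ ∞ fun q : E3 × V => (q.1 i : ℂ) := fun i =>
    Complex.ofRealCLM.contDiff.comp ((EuclideanSpace.proj i : E3 →L[ℝ] ℝ).contDiff.comp contDiff_fst)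
  have h2 : ∀ i, ContDiff ℝ ∞ fun q : E3 × V => q.2 i := fun i =>
    (contDiff_apply ℝ ℂ i).comp contDiff_snd
  have h3 : ∀ i, ContDiff ℝ ∞ fun q : E3 × V => conj (q.2 i) := fun i =>
    Complex.conjCLE.contDiff.comp (h2 i)
  have h4 := ((h1 1).sub (contDiff_const (c := I).mul (h1 0))).mul ((h2 0).pow 2)
  have h5 := (h1 2).mul ((h2 0).mul (h3 0))
  refine contDiff_pi.2 fun i => ?_
  fin_cases i
  · exact ((h1 2).neg.mul (((h2 1).mul (h3 1)).add ((h2 2).mul (h3 2)))).mul (h2 0)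
  · exact (h5.mul (h2 1)).sub (h4.mul (h3 2))
  · exact (h5.mul (h2 2)).add (h4.mul (h3 1))

lemma yy_act {c a b : ℂ} (hab : ‖a‖ ^ 2 + ‖b‖ ^ 2 = 1) (g : E3) (z : V) :
    yy g (act c a b z) = ‖c‖ ^ 2 • act c a b (yy g z) := by
  have h3 : a * conj a + b * conj b = 1 := by
    rw [Complex.mul_conj', Complex.mul_conj']
    exact_mod_cast hab
  ext i
  fin_cases i <;> simp [yy, act, lm_apply, ← Complex.mul_conj']
  · linear_combination g 2 * c ^ 2 * conj c * z 0 * (z 1 * conj (z 1) + z 2 * conj (z 2)) * h3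
  · ring
  · ring

lemma her_yy (g : E3) (z : V) : her (yy g z) z = 0 := by
  simp [her, yy, Fin.sum_univ_three]
  ring

lemma sq_act {c a b : ℂ} (hc : c ≠ 0) (hab : ‖a‖ ^ 2 + ‖b‖ ^ 2 = 1) (z : V) :
    sq (act c a b z) = sq z := by
  have h : ‖c‖ ≠ 0 := by simpa using hc
  rw [sq, sq, nn_act hab]
  change 1 - _ * ‖c * z 0‖ ^ 2 = _
  rw [norm_mul]
  field_simp

lemma sq_mem {z : V} (hz : z ≠ 0) : sq z ∈ Icc (0 : ℝ) 1 := by
  have h := nn_pos hz
  refine ⟨sub_nonneg.2 ((inv_mul_le_one₀ h).2 ?_), sub_le_self _ (by positivity)⟩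
  exact Finset.single_le_sum (f := fun j => ‖z j‖ ^ 2) (fun _ _ => sq_nonneg _) (Finset.mem_univ 0)

lemma sq_sl' {s : ℝ} (hs : s ∈ Icc (0 : ℝ) 1) : sq (sl s) = s := by
  rw [sq, nn_sl hs]
  simp [sl, pt, Real.sq_sqrt (sub_nonneg.2 hs.2)]

lemma inv_al (g : ℝ → E3) : Inv (al g) :=
  inv_cov (Y := fun z => (nn z)⁻¹ ^ 2 • yy (g (sq z)) z) fun c a b hc hab z => by
    have h : ‖c‖ ≠ 0 := by simpa using hc
    rw [nn_act hab, sq_act hc hab, yy_act hab, map_smul, smul_smul, smul_smul]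
    congr 1
    field_simp

lemma linL_al (g : ℝ → E3) (z u : V) :
    linL (al g z) u = (nn z)⁻¹ ^ 2 * (her (yy (g (sq z)) z) u).im := by
  rw [al, linL_cov, ← Complex.coe_smul, her_smul, conj_ofReal, im_ofReal_mul]

lemma al_horiz (g : ℝ → E3) (z : V) (c : ℂ) : linL (al g z) (c • z) = 0 := by
  simp [linL_al, her_smul', her_yy]

lemma al_sl (g : ℝ → E3) {s : ℝ} (hs : s ∈ Icc (0 : ℝ) 1) (i : Fin 3) :
    linL (al g (sl s)) (![mat 0 1 (sl s), mat 0 I (sl s), mat I 0 (sl s)] i) =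
      s * (1 - s) * g s i := by
  rw [linL_al, nn_sl hs, sq_sl' hs]
  have h1 := Real.mul_self_sqrt hs.1
  have h2 := Real.mul_self_sqrt (sub_nonneg.2 hs.2)
  fin_cases i <;> simp [her, yy, Fin.sum_univ_three, mat, lm_apply, sl, pt, pow_two] <;> rw [h2]
  · linear_combination (1 - s) * g s 0 * h1
  · linear_combination (1 - s) * g s 1 * h1
  · linear_combination (1 - s) * g s 2 * h1

variable {P : Type} [TopologicalSpace P]

lemma sm_al {g : P → ℝ → E3} (hg : Sm (Icc 0 1) g) : Sm {0}ᶜ fun p => al (g p) := by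
  have hU : UniqueDiffOn ℝ ({0}ᶜ : Set V) := isOpen_compl_singleton.uniqueDiffOn
  have h1 : Sm {0}ᶜ fun p z => g p (sq z) := hg.comp (sm_of_contDiffOn hU (contDiffOn_const.sub
    (contDiffOn_inv_nn.mul (contDiff_sq 0).contDiffOn))) fun _ _ hz => sq_mem hz
  exact ((sm_of_contDiffOn hU (contDiffOn_inv_nn.pow 2)).smul
    ((h1.prod sm_id).post' contDiff_yy)).post' contDiff_cov

lemma isForm_al {g : ℝ → E3} (hg : ContDiffOn ℝ ∞ (al g) {0}ᶜ) : IsForm (al g) := by
  refine ⟨hg, fun c hc z v => ?_, fun z v i c h => ?_, ?_⟩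
  · rw [eq_linL, eq_linL, ← (inv_al g).lin (a := 1) (b := 0) hc (by simp) z, act_one, act_one]
    rfl
  · rw [eq_linL, ← al_horiz g z c, ← h, Subsingleton.elim i 0]
  · ext v
    simp [eq_linL, linL_al, nn]

lemma build {l : ℝ} {H : P → ℝ → E3} (hH : Sm (Icc 0 1) H) (h1 : ∀ p, H p 1 = !₂[0, 0, 2 * l])
    (hQ : ∀ p, ∀ s ∈ Icc (0 : ℝ) 1, ⟪H p s, H p s + s • derivWithin (H p) (Icc 0 1) s⟫_ℝ ≠ 0) :
    ∃ Φ : P → {σ : Symp l // Invariant SU2 σ.form}, Continuous Φ ∧
      ∀ p, EqOn (hh (Φ p).1.form) (H p) (Icc 0 1) := by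
  have hU : IsOpen ({0}ᶜ : Set V) := isOpen_compl_singleton
  obtain ⟨G, hG, hGe⟩ := hH.hadamard (convex_Icc 0 1) (uniqueDiffOn_Icc one_pos)
    ⟨zero_le_one, le_rfl⟩
  have a1 := sm_al ((sm_const (c := fun _ => (-1 / 2 : ℝ)) continuous_const).smul hG)
  set α : P → Form 1 := fun p => al fun s => (-1 / 2 : ℝ) • G p s with hα
  have a2 : Sm {0}ᶜ fun p z => l • theta z + α p z :=
    ((sm_const continuous_const).smul (sm_of_contDiffOn hU.uniqueDiffOn contDiffOn_theta)).add a1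
  have a3 : ∀ p, Inv fun z => l • theta z + α p z := fun p c a b hc hab z => by
    ext v
    simp only [ContinuousAlternatingMap.compContinuousLinearMap_apply, eq_linL, map_add, map_smul,
      add_apply, smul_apply, Function.comp_apply, inv_theta.lin hc hab, hα, (inv_al _).lin hc hab]
  have a4 : ∀ p, Good (dd fun z => l • theta z + α p z) := fun p =>
    good_dd (a2.contDiffOn hU.uniqueDiffOn p) (a3 p) fun c => ⟨l * c.im, fun z hz => by
      simp only [map_add, map_smul, add_apply, smul_apply, theta_horiz c hz, hα, al_horiz, add_zero,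
        smul_eq_mul]⟩
  have a5 := sm_dd a2
  have a6 : ∀ p z, z ≠ 0 → DifferentiableAt ℝ (α p) z := fun p z hz =>
    ((a1.contDiffOn hU.uniqueDiffOn p).contDiffAt (hU.mem_nhds hz)).differentiableAt (by simp)
  have a7 : ∀ z, z ≠ 0 → DifferentiableAt ℝ theta z := fun z hz =>
    (contDiffOn_theta.contDiffAt (hU.mem_nhds hz)).differentiableAt (by simp)
  have a8 : ∀ p, EqOn (hh (dd fun z => l • theta z + α p z)) (H p) (Icc 0 1) := fun p => by
    refine EqOn.of_subset_closure (s := Ioo 0 1) (fun s hs => ?_)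
      ((sm_hh a5 fun p => (a4 p).inv).jc.at p) (hH.jc.at p) Ioo_subset_Icc_self
      (closure_Ioo zero_ne_one).ge
    have hs' := Ioo_subset_Icc_self hs
    ext i
    have b1 := (a3 p).mul_hh_dd hs' (((a7 _ (sl_ne hs')).const_smul l).add (a6 p _ (sl_ne hs'))) i
    have b2 := (inv_theta.mul_hh_dd hs' (a7 _ (sl_ne hs')) i).symm.trans (hh_theta hs' i)
    simp only [map_add, map_smul, add_apply, smul_apply, hα, al_sl _ hs', smul_eq_mul,
      PiLp.smul_apply] at b1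
    refine mul_left_cancel₀ hs.1.ne' ?_
    rw [b1, hGe p s hs', h1]
    have b3 : (!₂[0, 0, 2 * l] : E3) i = l * ![0, 0, 2] i := by fin_cases i <;> simp [mul_comm]
    rw [PiLp.add_apply, b3, PiLp.smul_apply, smul_eq_mul]
    linear_combination l * b2
  refine ⟨fun p => ⟨⟨dd fun z => l • theta z + α p z, ⟨a5.contDiffOn hU.uniqueDiffOn p,
    (inv_iff.1 (a4 p).inv).1, fun z v i c h => ?_, if_pos rfl⟩, (a4 p).closed, ?_, α p,
    isForm_al (a1.contDiffOn hU.uniqueDiffOn p), fun z hz => ?_⟩, (inv_iff.1 (a4 p).inv).2⟩,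
    ?_, a8⟩
  · rw [eq_bilL]
    fin_cases i
    · exact (congrArg (bilL _ · _) h).trans ((a4 p).horiz z c _)
    · rw [bilL_skew, neg_eq_zero]
      exact (congrArg (bilL _ · _) h).trans ((a4 p).horiz z c _)
  · refine ((a4 p).nondeg (h' := derivWithin (H p) (Icc 0 1)) (fun s hs =>
      (hH.hasDerivWithinAt p hs).congr (a8 p) (a8 p hs))
      ((hH.derivWithin (uniqueDiffOn_Icc one_pos)).jc.at p)).2 fun s hs => ?_
    rw [a8 p hs]
    exact hQ p s hs
  · rw [dd_of_ne _ hz, ← extDeriv_smul, ← extDeriv_add ((a7 z hz).const_smul l) (a6 p z hz)]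
    rfl
  · refine Continuous.subtype_mk (continuous_iInf_rng.2 fun n => continuous_induced_rng.2
      (ContinuousMap.continuous_of_continuous_uncurry _ ?_)) _
    exact ContinuousOn.comp_continuous (f := fun q : P × ({0}ᶜ : Set V) => (q.1, q.2.1))
      (((sm_iff_iter hU).1 a5).2 n) (by fun_prop) fun q => ⟨mem_univ _, q.2.2⟩

end Pool.Agent.MP_2fc7fa_gt
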