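import Pool.Agent.MP_2fc7fa_gt.Defs

namespace Pool.Agent.MP_2fc7fa_gt

/-- The cyclic group of order `37` of the matrices `diag (1, ζ, ζ)` with `ζ ^ 37 = 1`. -/
def Cyc37 : Set (Matrix (Fin 3) (Fin 3) ℂ) :=
  {M | ∃ ζ : ℂ, ζ ^ 37 = 1 ∧ M = Matrix.diagonal ![1, ζ, ζ]}

end Pool.Agent.MP_2fc7fa_gt
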