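import Pool.Agent.MP_2fc7fa_gt.Ext

/-! The cohomology class determines the end point of the curve (Green's formula on a line). -/

open Set Filter Topology Complex
open scoped ContDiff ComplexConjugate Matrix InnerProductSpace Real

namespace Pool.Agent.MP_2fc7fa_gt

lemma Good.line {σ : Form 2} (h : Good σ) {e : ℂ} {x y : ℝ} (he : ‖e‖ = 1) (hxy : x ^ 2 + y ^ 2 = 1) :
    bilL (σ ![0, e * x, conj e * y]) (mat I 0 ![0, e * x, conj e * y])
      ![0, e * (-y : ℝ), conj e * x] = 2 * hh σ 1 2 * (y * x) := by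
  have h1 : e * conj e = 1 := by simp [Complex.mul_conj', he]
  have h2 : (x : ℂ) ^ 2 + y ^ 2 = 1 := by exact_mod_cast hxy
  have e1 : (![0, e * x, conj e * y] : V) = act 1 (e * x) (conj e * y) (sl 1) := by
    ext i
    fin_cases i <;> simp [act, lm_apply, sl, pt]
  have e2 : (![0, e * (-y : ℝ), conj e * x] : V) = act 1 (e * x) (conj e * y) ![0, 0, 1] := by
    ext i
    fin_cases i <;> simp [act, lm_apply]
  have e3 : mat I 0 ![0, e * x, conj e * y] = act 1 (e * x) (conj e * y)
      ((I * (x ^ 2 - y ^ 2) : ℂ) • sl 1 + (-2 * (y * x)) • ![0, 0, I]) := by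
    ext i
    fin_cases i <;> simp [act, mat, lm_apply, sl, pt]
    · linear_combination -I * e * x * h2
    · linear_combination I * conj e * y * h2
  rw [e3, e2, e1, h.inv.bil one_ne_zero (by simpa [he] using hxy), map_add, add_apply, h.horiz,
    map_smul, smul_apply, bilL_skew]
  change _ = 2 * bilL (σ (sl 1)) ![0, 0, 1] ![0, 0, I] * (y * x)
  simp only [smul_eq_mul]
  ring

/-- A parametrisation of a projective line. -/
noncomputable def gam (θ t : ℝ) : V :=
  ![0, exp (θ * I) * Real.cos t, conj (exp (θ * I)) * Real.sin t]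

lemma gam_eq (θ t : ℝ) : gam θ t = (Real.cos θ * Real.cos t) • ![0, 1, 0] +
    (Real.sin θ * Real.cos t) • ![0, I, 0] + (Real.cos θ * Real.sin t) • ![0, 0, 1] -
    (Real.sin θ * Real.sin t) • ![0, 0, I] := by
  ext i
  fin_cases i <;> simp [gam, exp_mul_I, ← Complex.ofReal_cos, ← Complex.ofReal_sin] <;> ring

lemma gam_ne (θ t : ℝ) : gam θ t ≠ 0 := fun h => by
  have h1 : Real.cos t = 0 := by simpa [gam, -Complex.ofReal_cos] using congrFun h 1
  have h2 : Real.sin t = 0 := by simpa [gam, -Complex.ofReal_sin] using congrFun h 2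
  simpa [h1, h2] using Real.sin_sq_add_cos_sq t

lemma gam_fst (θ t : ℝ) : HasDerivAt (fun θ => gam θ t) (mat I 0 (gam θ t)) θ := by
  simp only [gam_eq]
  refine ((((((Real.hasDerivAt_cos θ).mul_const _).smul_const _).fun_add
    (((Real.hasDerivAt_sin θ).mul_const _).smul_const _)).fun_add
    (((Real.hasDerivAt_cos θ).mul_const _).smul_const _)).fun_sub
    (((Real.hasDerivAt_sin θ).mul_const _).smul_const _)).congr_deriv ?_
  ext i
  fin_cases i <;> simp [mat, lm_apply, mul_add, mul_sub] <;> ring_nf <;> simp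

lemma gam_snd (θ t : ℝ) : HasDerivAt (fun t => gam θ t) (gam θ (t + π / 2)) t := by
  simp only [gam_eq, Real.cos_add_pi_div_two, Real.sin_add_pi_div_two]
  exact (((((Real.hasDerivAt_cos t).const_mul _).smul_const _).fun_add
    (((Real.hasDerivAt_cos t).const_mul _).smul_const _)).fun_add
    (((Real.hasDerivAt_sin t).const_mul _).smul_const _)).fun_sub
    (((Real.hasDerivAt_sin t).const_mul _).smul_const _)

lemma green {α : Form 1} (hα : IsForm α) {κ : ℝ} (h : ∀ θ t, bilL (extDeriv α (gam θ t))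
    (mat I 0 (gam θ t)) (gam θ (t + π / 2)) = κ * (Real.sin t * Real.cos t)) : κ = 0 := by
  have hd : ∀ θ t, DifferentiableAt ℝ α (gam θ t) := fun θ t =>
    (hα.smooth.contDiffAt (isOpen_compl_singleton.mem_nhds (gam_ne θ t))).differentiableAt (by simp)
  have hG : Differentiable ℝ fun q : ℝ × ℝ => gam q.1 q.2 := by
    simp only [gam_eq]
    fun_prop
  have h0 : Differentiable ℝ fun q : ℝ × ℝ => linL (α (gam q.1 q.2)) := fun q =>
    linL.differentiableAt.comp q ((hd _ _).comp q (hG q))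
  have hf : Differentiable ℝ fun q : ℝ × ℝ => linL (α (gam q.1 q.2)) (gam q.1 (q.2 + π / 2)) :=
    h0.clm_apply (hG.comp (f := fun q : ℝ × ℝ => (q.1, q.2 + π / 2)) (by fun_prop))
  have hg : Differentiable ℝ fun q : ℝ × ℝ => -linL (α (gam q.1 q.2)) (mat I 0 (gam q.1 q.2)) :=
    (h0.clm_apply ((mat I 0).differentiable.comp hG)).neg
  have hdiv : ∀ q : ℝ × ℝ,
      fderiv ℝ (fun q : ℝ × ℝ => linL (α (gam q.1 q.2)) (gam q.1 (q.2 + π / 2))) q (1, 0) +
      fderiv ℝ (fun q : ℝ × ℝ => -linL (α (gam q.1 q.2)) (mat I 0 (gam q.1 q.2))) q (0, 1) =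
        κ * (Real.sin q.2 * Real.cos q.2) := by
    rintro ⟨θ, t⟩
    have h1 := ((hf (θ, t)).hasFDerivAt.comp_hasDerivAt θ
      ((hasDerivAt_id' θ).prodMk (hasDerivAt_const θ t))).unique
      (hasDerivAt_lin (z := fun θ => gam θ t) (hd θ t) (gam_fst θ t) (gam_fst θ (t + π / 2)))
    have h2 := ((hg (θ, t)).hasFDerivAt.comp_hasDerivAt t
      ((hasDerivAt_const t θ).prodMk (hasDerivAt_id' t))).unique
      (hasDerivAt_lin (hd θ t) (gam_snd θ t) (clm_hasDerivAt (mat I 0) (gam_snd θ t))).neg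
    rw [h1, h2, ← h θ t, bilL_extDeriv]
    ring
  have hz : ∀ z (c : ℂ), linL (α z) (c • z) = 0 := fun z c => by
    rw [linL_apply]
    exact hα.horiz z _ 0 c rfl
  have key := MeasureTheory.integral2_divergence_prod_of_hasFDerivAt _ _ _ _ 0 0 (2 * π) (π / 2)
    hf.continuous.continuousOn hg.continuous.continuousOn (fun q _ => (hf q).hasFDerivAt)
    (fun q _ => (hg q).hasFDerivAt) (by
      simp only [hdiv]
      exact ContinuousOn.integrableOn_compact (isCompact_uIcc.prod isCompact_uIcc) (by fun_prop))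
  have e1 : ∀ θ, mat I 0 (gam θ (π / 2)) = (-I) • gam θ (π / 2) := fun θ => by
    ext i
    fin_cases i <;> simp [gam, mat, lm_apply]
  have e2 : ∀ θ, mat I 0 (gam θ 0) = I • gam θ 0 := fun θ => by
    ext i
    fin_cases i <;> simp [gam, mat, lm_apply]
  have e3 : gam (2 * π) = gam 0 := by
    ext t
    simp [gam_eq]
  simp only [hdiv, e1, e2, e3, hz, intervalIntegral.integral_const_mul, integral_sin_mul_cos₁] at key
  simpa using key

lemma hh_theta {s : ℝ} (hs : s ∈ Icc (0 : ℝ) 1) (i : Fin 3) :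
    s * hh (dd theta) s i = s * ![0, 0, 2] i := by
  rw [inv_theta.mul_hh_dd hs ((contDiffOn_theta.contDiffAt
    (isOpen_compl_singleton.mem_nhds (sl_ne hs))).differentiableAt (by simp)), linL_theta, nn_sl hs]
  fin_cases i <;> simp [her, Fin.sum_univ_three, mat, lm_apply, sl, pt, Real.mul_self_sqrt hs.1,
    mul_comm]

lemma Symp.good {l : ℝ} (σ : Symp l) (h : Invariant SU2 σ.form) : Good σ.form :=
  ⟨fun _ hz => (σ.isForm.smooth.contDiffAt (isOpen_compl_singleton.mem_nhds hz)).differentiableAt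
    (by simp), σ.closed, inv_iff.2 ⟨σ.isForm.scale, h⟩, fun z c u => by
      rw [bilL_apply]
      exact σ.isForm.horiz z _ 0 c rfl⟩

lemma Symp.hh_one {l : ℝ} (σ : Symp l) (h : Invariant SU2 σ.form) :
    hh σ.form 1 = !₂[0, 0, 2 * l] := by
  obtain ⟨α, hα, h1⟩ := σ.cls
  have h2 : hh (dd theta) 1 2 = 2 := by simpa using hh_theta ⟨zero_le_one, le_rfl⟩ 2
  have h3 : 2 * hh σ.form 1 2 - l * 4 = 0 := green hα fun θ t => by
    have h4 := (σ.good h).line (norm_exp_ofReal_mul_I θ) (Real.cos_sq_add_sin_sq t)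
    have h5 := good_theta.line (norm_exp_ofReal_mul_I θ) (Real.cos_sq_add_sin_sq t)
    rw [← Real.cos_add_pi_div_two t] at h4 h5
    conv_lhs at h4 => arg 2; rw [← Real.sin_add_pi_div_two t]
    conv_lhs at h5 => arg 2; rw [← Real.sin_add_pi_div_two t]
    change bilL (σ.form (gam θ t)) (mat I 0 (gam θ t)) (gam θ (t + π / 2)) = _ at h4
    change bilL (dd theta (gam θ t)) (mat I 0 (gam θ t)) (gam θ (t + π / 2)) = _ at h5
    rw [h1 _ (gam_ne θ t), ← dd_of_ne _ (gam_ne θ t)] at h4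
    simp only [map_add, map_smul, add_apply, smul_apply, smul_eq_mul, h5, h2] at h4
    linarith
  rw [(σ.good h).hh_eq ⟨zero_le_one, le_rfl⟩] at h3 ⊢
  ext i
  fin_cases i <;> simp at h3 ⊢
  linarith

end Pool.Agent.MP_2fc7fa_gt
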