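import Pool.Agent.MP_2fc7fa_gt.Build

/-! Contraction of the space of curves. -/

open Set Filter Topology
open scoped ContDiff InnerProductSpace

namespace Pool.Agent.MP_2fc7fa_gt

lemma inner_deriv {F : ℝ → E3} {μ : ℝ → ℝ} {F' : E3} {μ' s : ℝ} (hs : s ∈ Icc (0 : ℝ) 1)
    (hF : HasDerivWithinAt F F' (Icc 0 1) s) (hμ : HasDerivWithinAt μ μ' (Icc 0 1) s)
    (e : ∀ t ∈ Icc (0 : ℝ) 1, ‖F t‖ = μ t) : ⟪F s, F s + s • F'⟫_ℝ = μ s * (μ s + s * μ') := by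
  have h1 := (uniqueDiffOn_Icc one_pos s hs).eq_deriv _ hF.norm_sq
    ((hμ.fun_pow 2).congr (fun t ht => by rw [e t ht]) (by rw [e s hs]))
  rw [inner_add_right, inner_smul_right, real_inner_self_eq_norm_sq, e s hs]
  simp only [Nat.cast_ofNat, Nat.add_one_sub_one, pow_one] at h1
  linear_combination s / 2 * h1

variable {P : Type} [TopologicalSpace P]

lemma contract {h : P → ℝ → E3} {c : E3} (hc : c ≠ 0) (hh : Sm (Icc 0 1) h) (h1 : ∀ p, h p 1 = c)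
    (hQ : ∀ p, ∀ s ∈ Icc (0 : ℝ) 1, ⟪h p s, h p s + s • derivWithin (h p) (Icc 0 1) s⟫_ℝ ≠ 0) :
    ∃ H : unitInterval × P → ℝ → E3, Sm (Icc 0 1) H ∧ (∀ q, H q 1 = c) ∧
      (∀ q, ∀ s ∈ Icc (0 : ℝ) 1, ⟪H q s, H q s + s • derivWithin (H q) (Icc 0 1) s⟫_ℝ ≠ 0) ∧
      (∀ p, ∀ s ∈ Icc (0 : ℝ) 1, H (0, p) s = h p s) ∧ ∀ p s, H (1, p) s = c := by
  have hU := uniqueDiffOn_Icc (one_pos (α := ℝ))
  have h0 : ∀ p, ∀ s ∈ Icc (0 : ℝ) 1, h p s ≠ 0 := fun p s hs e => hQ p s hs (by simp [e])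
  have h0' : ∀ p, ∀ s ∈ Icc (0 : ℝ) 1, 0 < ‖h p s‖ := fun p s hs => norm_pos_iff.2 (h0 p s hs)
  have hc' : 0 < ‖c‖ := norm_pos_iff.2 hc
  have hν : Sm (Icc 0 1) fun p s => ‖h p s‖ :=
    hh.post isOpen_compl_singleton (contDiffOn_id.norm ℝ fun _ hx => hx) h0
  have hu : Sm (Icc 0 1) fun p s => ‖h p s‖⁻¹ • h p s :=
    (hν.post isOpen_compl_singleton (contDiffOn_id.inv fun _ hx => hx)
      fun p s hs => (h0' p s hs).ne').smul hh
  have hpos : ∀ p, ∀ s ∈ Icc (0 : ℝ) 1,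
      0 < ‖h p s‖ + s * derivWithin (fun s => ‖h p s‖) (Icc 0 1) s := fun p s hs => by
    by_contra hn
    have c1 : ContinuousOn (fun s => ‖h p s‖ + s * derivWithin (fun s => ‖h p s‖) (Icc 0 1) s)
        (Icc 0 s) := ((hν.jc.at p).add (continuousOn_id.mul ((hν.derivWithin hU).jc.at p))).mono
      (Icc_subset_Icc_right hs.2)
    obtain ⟨t, ht, e⟩ := intermediate_value_Icc' hs.1 c1 ⟨not_lt.1 hn, by simp⟩
    have ht' := Icc_subset_Icc_right hs.2 ht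
    refine hQ p t ht' ?_
    rw [inner_deriv ht' (hh.hasDerivWithinAt p ht') (hν.hasDerivWithinAt p ht') fun _ _ => rfl]
    exact mul_eq_zero_of_right _ e
  have hm : ∀ τ : unitInterval, ∀ s ∈ Icc (0 : ℝ) 1, τ + (1 - τ) * s ∈ Icc (0 : ℝ) 1 := fun τ s hs => by
    have := τ.2.1
    have := τ.2.2
    constructor <;> nlinarith [hs.1, hs.2]
  have hτ : ∀ (τ : unitInterval) (x : ℝ), 0 < x → 0 < (1 - τ) * x + τ * ‖c‖ := fun τ x hx => by
    rcases eq_or_lt_of_le τ.2.1 with e | e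
    · simpa [← e] using hx
    · exact add_pos_of_nonneg_of_pos (mul_nonneg (sub_nonneg.2 τ.2.2) hx.le) (mul_pos e hc')
  have hH : Sm (Icc 0 1) fun (q : unitInterval × P) s => ((1 - q.1) * ‖h q.2 s‖ + q.1 * ‖c‖) •
      ‖h q.2 (q.1 + (1 - q.1) * s)‖⁻¹ • h q.2 (q.1 + (1 - q.1) * s) :=
    (((sm_const (by fun_prop)).smul (hν.param continuous_snd)).add (sm_const (by fun_prop))).smul
      ((hu.param continuous_snd).comp ((sm_const (by fun_prop)).add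
        ((sm_const (by fun_prop)).smul sm_id)) fun q => hm q.1)
  refine ⟨_, hH, fun q => ?_, fun q s hs => ?_, fun p s hs => ?_, fun p s => ?_⟩
  · simp only [mul_one, add_sub_cancel, h1, smul_smul]
    rw [show ((1 - q.1) * ‖c‖ + q.1 * ‖c‖) * ‖c‖⁻¹ = 1 by field_simp; ring, one_smul]
  · rw [inner_deriv hs (hH.hasDerivWithinAt q hs)
      (((hν.hasDerivWithinAt q.2 hs).const_mul (1 - q.1 : ℝ)).add_const (q.1 * ‖c‖)) fun t ht => by
        rw [norm_smul, norm_smul, norm_inv, norm_norm, inv_mul_cancel₀ (h0' _ _ (hm _ t ht)).ne',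
          mul_one, Real.norm_of_nonneg (hτ _ _ (h0' _ t ht)).le]]
    refine mul_ne_zero (hτ _ _ (h0' _ s hs)).ne' (ne_of_gt ?_)
    have := hτ q.1 _ (hpos q.2 s hs)
    linarith
  · simp [smul_smul, (h0' p s hs).ne']
  · simp [smul_smul, h1, hc'.ne']

theorem contractible (l : ℝ) (hl : l ≠ 0) :
    ContractibleSpace {σ : Symp l // Invariant SU2 σ.form} := by
  have hU : IsOpen ({0}ᶜ : Set V) := isOpen_compl_singleton
  have hc : (!₂[0, 0, 2 * l] : E3) ≠ 0 := fun e => hl (by simpa using congrArg (fun x : E3 => x 2) e)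
  have h1 : Sm {0}ᶜ fun σ : {σ : Symp l // Invariant SU2 σ.form} => σ.1.form := by
    have := hU.locallyCompactSpace
    refine (sm_iff_iter hU).2 ⟨fun σ => σ.1.isForm.smooth, fun m => ?_⟩
    rw [JC, continuousOn_iff_continuous_domRestrict]
    have h2 : Continuous fun σ : Symp l => σ.jet m :=
      continuous_iInf_dom (i := m) continuous_induced_dom
    exact continuous_eval.comp (f := fun q : (univ ×ˢ {0}ᶜ : Set ({σ : Symp l //
      Invariant SU2 σ.form} × V)) => (q.1.1.1.jet m, (⟨q.1.2, q.2.2⟩ : ({0}ᶜ : Set V))))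
      (by fun_prop)
  have h2 := sm_hh h1 fun σ => (σ.1.good σ.2).inv
  obtain ⟨H, a1, a2, a3, a4, a5⟩ := contract hc h2 (fun σ => σ.1.hh_one σ.2) fun σ =>
    ((σ.1.good σ.2).nondeg (fun s hs => h2.hasDerivWithinAt σ hs)
      ((h2.derivWithin (uniqueDiffOn_Icc one_pos)).jc.at σ)).1 σ.1.nondeg
  obtain ⟨Φ, b1, b2⟩ := build a1 a2 a3
  obtain ⟨Ψ, -, b3⟩ := build (P := Unit) (l := l) (sm_const continuous_const) (fun _ => rfl)
    fun _ s _ => by simpa using hc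
  have key : ∀ σ σ' : {σ : Symp l // Invariant SU2 σ.form},
      EqOn (hh σ.1.form) (hh σ'.1.form) (Icc 0 1) → σ = σ' := by
    rintro ⟨⟨σ, c1, c2, c3, c4⟩, c5⟩ ⟨⟨σ', d1, d2, d3, d4⟩, d5⟩ e
    obtain rfl : σ = σ' := funext fun z => by
      rcases eq_or_ne z 0 with rfl | hz
      · exact c1.zero.trans d1.zero.symm
      · exact (Symp.good ⟨σ, c1, c2, c3, c4⟩ c5).unique (Symp.good ⟨σ', d1, d2, d3, d4⟩ d5)
          (e.mono Ioo_subset_Icc_self) hz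
    rfl
  exact (contractible_iff_id_nullhomotopic _).2 ⟨Ψ (), ⟨⟨⟨Φ, b1⟩,
    fun σ => key _ _ fun s hs => (b2 _ hs).trans (a4 σ s hs),
    fun σ => key _ _ fun s hs => (b2 _ hs).trans ((a5 σ s).trans (b3 () hs).symm)⟩⟩⟩

end Pool.Agent.MP_2fc7fa_gt
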