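import Mathlib

/-! Symplectic forms on the complex projective plane, through their pull-backs to `ℂ³ ∖ 0`. -/

open scoped ContDiff ComplexConjugate Matrix

namespace Pool.Agent.MP_2fc7fa_gt

/-- Homogeneous coordinates. -/
abbrev V : Type := Fin 3 → ℂ

/-- Real differential `k`-forms on `ℂ³`. -/
abbrev Form (k : ℕ) : Type := V → V [⋀^Fin k]→L[ℝ] ℝ

/-- `α` is the pull-back to `ℂ³ ∖ 0` of a smooth form on `ℂP²`: it is smooth, invariant under
`ℂˣ` and horizontal. The irrelevant value at the origin is normalised to `0`. -/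
structure IsForm {k : ℕ} (α : Form k) : Prop where
  smooth : ContDiffOn ℝ ∞ α {0}ᶜ
  scale : ∀ c : ℂ, c ≠ 0 → ∀ z v, α (c • z) (c • v) = α z v
  horiz : ∀ z v i (c : ℂ), v i = c • z → α z v = 0
  zero : α 0 = 0

/-- The covector `u ↦ Im ∑ conj (a j) * u j`. -/
noncomputable def cov (a : V) : V [⋀^Fin 1]→L[ℝ] ℝ :=
  ContinuousAlternatingMap.ofSubsingletonLIE 0 (∑ j, Complex.imCLM ∘L
    ContinuousLinearMap.mul ℝ ℂ (conj (a j)) ∘L ContinuousLinearMap.proj j)

/-- The connection form `Im ⟨z, dz⟩ / |z|²`; its differential is the pull-back of (a positive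
multiple of) the Fubini-Study form. -/
noncomputable def theta : Form 1 := fun z => cov ((∑ j, ‖z j‖ ^ 2)⁻¹ • z)

/-- Symplectic forms on `ℂP²` in the class `l [dθ]`. -/
structure Symp (l : ℝ) where
  form : Form 2
  isForm : IsForm form
  closed : ∀ z, z ≠ 0 → extDeriv form z = 0
  nondeg : ∀ z, z ≠ 0 → ∃ a b c d, form z ![a, b] * form z ![c, d] -
    form z ![a, c] * form z ![b, d] + form z ![a, d] * form z ![b, c] ≠ 0
  cls : ∃ α : Form 1, IsForm α ∧ ∀ z, z ≠ 0 → form z = l • extDeriv theta z + extDeriv α z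

/-- The `n`-th derivative, as a continuous map on `ℂ³ ∖ 0`. -/
noncomputable def Symp.jet {l : ℝ} (σ : Symp l) (n : ℕ) :
    C(({0}ᶜ : Set V), V [×n]→L[ℝ] V [⋀^Fin 2]→L[ℝ] ℝ) :=
  ⟨fun z => iteratedFDeriv ℝ n σ.form z, continuous_iff_continuousAt.2 fun z =>
    ((σ.isForm.smooth.contDiffAt (isOpen_compl_singleton.mem_nhds z.2)).continuousAt_iteratedFDeriv
      (mod_cast le_top)).comp continuousAt_subtype_val⟩

/-- The `C^∞` topology: uniform convergence of all derivatives on compact sets. -/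
noncomputable instance cinf (l : ℝ) : TopologicalSpace (Symp l) :=
  ⨅ n, TopologicalSpace.induced (fun σ => σ.jet n) inferInstance

/-- Invariance under a set of matrices. -/
def Invariant (G : Set (Matrix (Fin 3) (Fin 3) ℂ)) (σ : Form 2) : Prop :=
  ∀ g ∈ G, ∀ z v, σ (g *ᵥ z) (fun i => g *ᵥ v i) = σ z v

/-- The group `SU(2)`, acting on the last two coordinates. -/
def SU2 : Set (Matrix (Fin 3) (Fin 3) ℂ) :=
  {g | ∃ a b : ℂ, ‖a‖ ^ 2 + ‖b‖ ^ 2 = 1 ∧ g = !![1, 0, 0; 0, a, -conj b; 0, b, conj a]}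

end Pool.Agent.MP_2fc7fa_gt
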