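import Pool.Agent.MP_2fc7fa_gt.Good

/-! The curve of a smooth family of invariant forms; differentials of invariant one-forms. -/

open Set Filter Topology Complex
open scoped ContDiff ComplexConjugate Matrix InnerProductSpace

namespace Pool.Agent.MP_2fc7fa_gt

lemma contDiff_kk : ContDiff ℝ ∞ kk := by
  have h : ∀ u v : V, ContDiff ℝ ∞ fun φ => bilL φ u v := fun u v => by
    simp only [bilL_apply]
    exact (ContinuousAlternatingMap.apply ℝ V ℝ ![u, v]).contDiff
  refine contDiff_euclidean.2 fun i => ?_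
  fin_cases i <;> exact h _ _

lemma Inv.kk_act {σ : Form 2} (h : Inv σ) {c a : ℝ} (hc : c ≠ 0) (ha : a ^ 2 = 1) (x y : ℝ) :
    kk (σ (pt x y)) = c ^ 2 • kk (σ (pt (c * x) (c * a * y))) := by
  have h1 : act c a 0 (pt x y) = pt (c * x) (c * a * y) := by
    ext i
    fin_cases i <;> simp [act, lm_apply, pt]
  have h2 : ∀ p q : ℂ, act c a 0 ![0, p, q] = (c * a) • ![0, p, q] := fun p q => by
    ext i
    fin_cases i <;> simp [act, lm_apply]
  have h3 : ∀ p q p' q' : ℂ, bilL (σ (pt x y)) ![0, p, q] ![0, p', q'] =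
      c ^ 2 * bilL (σ (pt (c * x) (c * a * y))) ![0, p, q] ![0, p', q'] := fun p q p' q' => by
    rw [← h.bil (c := c) (a := a) (b := 0) (by exact_mod_cast hc) (by simpa using ha), h1, h2, h2]
    simp only [map_smul, smul_apply, smul_eq_mul]
    linear_combination c ^ 2 * bilL (σ (pt (c * x) (c * a * y))) ![0, p, q] ![0, p', q'] * ha
  ext i
  fin_cases i <;> exact h3 _ _ _ _

lemma contDiff_pt : ContDiff ℝ ∞ fun q : ℝ × ℝ => pt q.1 q.2 := by
  refine contDiff_pi.2 fun i => ?_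
  fin_cases i
  · exact Complex.ofRealCLM.contDiff.comp contDiff_fst
  · exact Complex.ofRealCLM.contDiff.comp contDiff_snd
  · exact contDiff_const

variable {P : Type} [TopologicalSpace P]

lemma sm_hh {σ : P → Form 2} (hs : Sm {0}ᶜ σ) (hi : ∀ p, Inv (σ p)) :
    Sm (Icc 0 1) fun p => hh (σ p) := by
  have k1 : Sm (Ici 0) fun p r => kk (σ p (pt 1 √r)) :=
    Sm.whitney (F := fun p t => kk (σ p (pt 1 t))) ((hs.comp (sm_of_contDiff
      (contDiff_pt.comp (contDiff_const.prodMk contDiff_id))) fun _ _ _ =>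
        pt_ne (.inl one_ne_zero)).post' contDiff_kk) fun p t => by
      simpa using ((hi p).kk_act (c := 1) (a := -1) one_ne_zero (by simp) 1 t).symm
  have k2 : Sm (Ici 0) fun p r => kk (σ p (pt √r 1)) :=
    Sm.whitney (F := fun p t => kk (σ p (pt t 1))) ((hs.comp (sm_of_contDiff
      (contDiff_pt.comp (contDiff_id.prodMk contDiff_const))) fun _ _ _ =>
        pt_ne (.inr one_ne_zero)).post' contDiff_kk) fun p t => by
      simpa using ((hi p).kk_act (c := -1) (a := -1) (by simp) (by simp) t 1).symm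
  refine sm_union (uniqueDiffOn_Icc one_pos) (isOpen_Iio (a := 1)) (isOpen_Ioi (a := 0))
    (fun s _ => by by_cases h : s < 1 <;> simp [h]; linarith) ?_ ?_
  · have h1 : ContDiffOn ℝ ∞ (fun s : ℝ => (1 - s)⁻¹) (Iio 1) :=
      (contDiffOn_const.sub contDiffOn_id).inv fun s hs => (sub_pos.2 hs).ne'
    refine (((sm_of_contDiffOn isOpen_Iio.uniqueDiffOn h1).mono inter_subset_right).smul
      (k1.comp ((sm_of_contDiffOn isOpen_Iio.uniqueDiffOn (contDiffOn_id.mul h1)).mono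
        inter_subset_right) fun _ s hs => mul_nonneg hs.1.1 (inv_pos.2 (sub_pos.2 hs.2)).le)).congr
      fun p s hs => ?_
    have hx : √(1 - s) ≠ 0 := (Real.sqrt_pos.2 (sub_pos.2 hs.2)).ne'
    rw [hh, sl, (hi p).kk_act (c := (√(1 - s))⁻¹) (a := 1) (inv_ne_zero hx) (by simp), inv_pow,
      Real.sq_sqrt (sub_pos.2 hs.2).le, inv_mul_cancel₀ hx, id, Real.sqrt_mul hs.1.1, Real.sqrt_inv,
      mul_one, mul_comm]
  · have h1 : ContDiffOn ℝ ∞ (fun s : ℝ => s⁻¹) (Ioi 0) :=
      contDiffOn_id.inv fun s hs => ne_of_gt hs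
    refine (((sm_of_contDiffOn isOpen_Ioi.uniqueDiffOn h1).mono inter_subset_right).smul
      (k2.comp ((sm_of_contDiffOn isOpen_Ioi.uniqueDiffOn ((contDiffOn_const.sub
        contDiffOn_id).mul h1)).mono inter_subset_right) fun _ s hs =>
          mul_nonneg (sub_nonneg.2 hs.1.2) (inv_pos.2 hs.2).le)).congr fun p s hs => ?_
    have hx : √s ≠ 0 := (Real.sqrt_pos.2 hs.2).ne'
    rw [hh, sl, (hi p).kk_act (c := (√s)⁻¹) (a := 1) (inv_ne_zero hx) (by simp), inv_pow,
      Real.sq_sqrt hs.1.1, mul_one, inv_mul_cancel₀ hx, id, Real.sqrt_mul (sub_nonneg.2 hs.1.2),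
      Real.sqrt_inv, mul_comm]

open Classical in
/-- The exterior derivative, normalised to `0` at the origin. -/
noncomputable def dd (β : Form 1) : Form 2 := fun z => if z = 0 then 0 else extDeriv β z

lemma dd_of_ne (β : Form 1) {z : V} (hz : z ≠ 0) : dd β z = extDeriv β z := if_neg hz

lemma sm_dd {β : P → Form 1} (hs : Sm {0}ᶜ β) : Sm {0}ᶜ fun p => dd (β p) :=
  ((hs.fderiv isOpen_compl_singleton).clm
    (ContinuousAlternatingMap.alternatizeUncurryFinCLM ℝ V ℝ)).congr fun _ _ hz => dd_of_ne _ hz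

lemma good_dd {β : Form 1} (hs : ContDiffOn ℝ ∞ β {0}ᶜ) (hi : Inv β)
    (hh : ∀ c : ℂ, ∃ κ, ∀ z, z ≠ 0 → linL (β z) (c • z) = κ) : Good (dd β) := by
  have hc : ∀ z, z ≠ 0 → ContDiffAt ℝ ∞ β z := fun z hz =>
    hs.contDiffAt (isOpen_compl_singleton.mem_nhds hz)
  have hd : ∀ z, z ≠ 0 → DifferentiableAt ℝ β z := fun z hz => (hc z hz).differentiableAt (by simp)
  refine ⟨fun z hz => ?_, fun z hz => ?_, fun c a b hc hab z => ?_, fun z c u => ?_⟩
  · exact (((sm_dd (sm_of_contDiffOn (P := Unit) isOpen_compl_singleton.uniqueDiffOn hs)).contDiffOn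
      isOpen_compl_singleton.uniqueDiffOn ()).contDiffAt
        (isOpen_compl_singleton.mem_nhds hz)).differentiableAt (by simp)
  · rw [← extDeriv_extDeriv_apply ((hc z hz).of_le (m := 2) (WithTop.coe_le_coe.2 le_top)) (by simp)]
    exact EventuallyEq.extDeriv_eq
      (mem_of_superset (isOpen_compl_singleton.mem_nhds hz) fun y hy => dd_of_ne β hy)
  · rcases eq_or_ne z 0 with rfl | hz
    · ext v
      simp [dd]
    · rw [dd_of_ne _ hz, dd_of_ne _ (act_ne hc hab hz), hi.extDeriv hd hc hab hz]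
  · rcases eq_or_ne z 0 with rfl | hz
    · simp
    · obtain ⟨κ, hκ⟩ := hh c
      have h1 : HasDerivAt (fun t : ℝ => z + t • u) u 0 := by
        simpa using ((hasDerivAt_id' (0 : ℝ)).smul_const u).const_add z
      have h2 := hasDerivAt_lin (β := β) (by simpa using hd z hz) h1 (h1.fun_const_smul c)
      have h3 : (fun t : ℝ => linL (β (z + t • u)) (c • (z + t • u))) =ᶠ[𝓝 0] fun _ => κ :=
        (h1.continuousAt.eventually_ne (y := 0) (by simpa using hz)).mono fun t ht => hκ _ ht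
      have h4 := h2.unique ((hasDerivAt_const _ κ).congr_of_eventuallyEq h3)
      have h5 := hi.inf_scale (hd z hz) c u
      rw [dd_of_ne _ hz, bilL_extDeriv]
      simp only [zero_smul, add_zero] at h4
      linarith

lemma Inv.dd_mat {β : Form 1} (hi : Inv β) {z : V} (hz : z ≠ 0) (hd : DifferentiableAt ℝ β z)
    {a b a' b' : ℂ} (ha : a.re = 0) (hab : ‖a‖ ^ 2 + ‖b‖ ^ 2 = 1) (ha' : a'.re = 0)
    (hab' : ‖a'‖ ^ 2 + ‖b'‖ ^ 2 = 1) : bilL (dd β z) (mat a b z) (mat a' b' z) =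
      -linL (β z) (mat a b (mat a' b' z) - mat a' b' (mat a b z)) := by
  have h1 := hi.inf_lin hd ha hab (mat a' b' z)
  have h2 := hi.inf_lin hd ha' hab' (mat a b z)
  rw [dd_of_ne _ hz, bilL_extDeriv, map_sub]
  linarith

lemma Inv.mul_hh_dd {β : Form 1} (hi : Inv β) {s : ℝ} (hs : s ∈ Icc (0 : ℝ) 1)
    (hd : DifferentiableAt ℝ β (sl s)) (i : Fin 3) : s * hh (dd β) s i =
      2 * linL (β (sl s)) (![mat 0 1 (sl s), mat 0 I (sl s), mat I 0 (sl s)] i) := by
  rw [mul_hh _ hs.1]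
  fin_cases i
  · refine (hi.dd_mat (sl_ne hs) hd rfl (by simp) (by simp) (by simp)).trans ?_
    simp [comm23]
  · refine (hi.dd_mat (sl_ne hs) hd (by simp) (by simp) (by simp) (by simp)).trans ?_
    simp [comm31]
  · refine (hi.dd_mat (sl_ne hs) hd rfl (by simp) (by simp) (by simp)).trans ?_
    simp [comm12]

/-- The Hermitian product. -/
noncomputable def her (y u : V) : ℂ := ∑ j, conj (y j) * u j

lemma linL_cov (y u : V) : linL (cov y) u = (her y u).im := by
  simp [linL, cov, her]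

lemma her_act {c a b : ℂ} (hab : ‖a‖ ^ 2 + ‖b‖ ^ 2 = 1) (y u : V) :
    her (act c a b y) (act c a b u) = (‖c‖ ^ 2 : ℝ) * her y u := by
  have h3 : a * conj a + b * conj b = 1 := by
    rw [Complex.mul_conj', Complex.mul_conj']
    exact_mod_cast hab
  simp [her, Fin.sum_univ_three, act, lm_apply, ← Complex.mul_conj']
  linear_combination c * conj c * (conj (y 1) * u 1 + conj (y 2) * u 2) * h3

lemma her_smul (c : ℂ) (y u : V) : her (c • y) u = conj c * her y u := by
  simp [her, Finset.mul_sum, mul_assoc]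

lemma her_smul' (c : ℂ) (y u : V) : her y (c • u) = c * her y u := by
  simp [her, Finset.mul_sum, mul_left_comm]

lemma contDiff_cov : ContDiff ℝ ∞ cov :=
  (ContinuousAlternatingMap.ofSubsingletonLIE (𝕜 := ℝ) (E := V) (F := ℝ) (0 : Fin 1)).contDiff.comp
    (ContDiff.sum fun j _ => contDiff_const.clm_comp ((((ContinuousLinearMap.mul ℝ ℂ).contDiff.comp
      (Complex.conjCLE.contDiff.comp (contDiff_apply ℝ ℂ j)))).clm_comp contDiff_const))

lemma inv_cov {Y : V → V} (hY : ∀ c a b : ℂ, c ≠ 0 → ‖a‖ ^ 2 + ‖b‖ ^ 2 = 1 → ∀ z,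
    Y (act c a b z) = (‖c‖ ^ 2)⁻¹ • act c a b (Y z)) : Inv fun z => cov (Y z) := by
  intro c a b hc hab z
  ext v
  have h : (‖c‖ ^ 2 : ℝ) ≠ 0 := by simpa using hc
  rw [ContinuousAlternatingMap.compContinuousLinearMap_apply, eq_linL, eq_linL, linL_cov, linL_cov,
    hY c a b hc hab, ← Complex.coe_smul, her_smul, Function.comp_apply, her_act hab, conj_ofReal,
    ← mul_assoc, ← ofReal_mul, inv_mul_cancel₀ h, ofReal_one, one_mul]

/-- The squared norm. -/
noncomputable def nn (z : V) : ℝ := ∑ j, ‖z j‖ ^ 2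

lemma her_self (z : V) : her z z = nn z := by
  simp [her, nn, Complex.conj_mul']

lemma nn_act {c a b : ℂ} (hab : ‖a‖ ^ 2 + ‖b‖ ^ 2 = 1) (z : V) :
    nn (act c a b z) = ‖c‖ ^ 2 * nn z := by
  have h := her_act (c := c) hab z z
  rw [her_self, her_self] at h
  exact_mod_cast h

lemma nn_pos {z : V} (hz : z ≠ 0) : 0 < nn z := by
  obtain ⟨j, hj⟩ := Function.ne_iff.1 hz
  exact Finset.sum_pos' (fun _ _ => sq_nonneg _) ⟨j, Finset.mem_univ _, pow_pos (norm_pos_iff.2 hj) 2⟩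

lemma nn_sl {s : ℝ} (hs : s ∈ Icc (0 : ℝ) 1) : nn (sl s) = 1 := by
  simpa [nn, sl, pt, Fin.sum_univ_three] using sq_sl hs

lemma contDiff_sq (j : Fin 3) : ContDiff ℝ ∞ fun z : V => ‖z j‖ ^ 2 :=
  (contDiff_norm_sq ℝ).comp (contDiff_apply ℝ ℂ j)

lemma contDiffOn_inv_nn : ContDiffOn ℝ ∞ (fun z => (nn z)⁻¹) {0}ᶜ :=
  (ContDiff.sum fun j _ => contDiff_sq j).contDiffOn.inv fun _ hz => (nn_pos hz).ne'

lemma contDiffOn_theta : ContDiffOn ℝ ∞ theta {0}ᶜ :=
  contDiff_cov.comp_contDiffOn (contDiffOn_inv_nn.smul contDiffOn_id)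

lemma inv_theta : Inv theta := inv_cov (Y := fun z => (nn z)⁻¹ • z) fun c a b _ hab z => by
  rw [nn_act hab, map_smul, smul_smul, mul_inv]

lemma linL_theta (z u : V) : linL (theta z) u = (nn z)⁻¹ * (her z u).im := by
  rw [theta, linL_cov, ← Complex.coe_smul, her_smul, conj_ofReal, im_ofReal_mul]
  rfl

lemma theta_horiz (c : ℂ) {z : V} (hz : z ≠ 0) : linL (theta z) (c • z) = c.im := by
  rw [linL_theta, her_smul', her_self, im_mul_ofReal]
  field_simp [(nn_pos hz).ne']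

lemma good_theta : Good (dd theta) :=
  good_dd contDiffOn_theta inv_theta fun c => ⟨c.im, fun _ => theta_horiz c⟩

end Pool.Agent.MP_2fc7fa_gt
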