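import Mathlib

/-! Families of smooth maps depending continuously (with all derivatives) on a parameter. -/

open Set Filter Topology
open scoped ContDiff

namespace Pool.Agent.MP_2fc7fa_gt

variable {P : Type} [TopologicalSpace P] {X : Type} [NormedAddCommGroup X] [NormedSpace ℝ X]

/-- Joint continuity in the parameter and the point. -/
def JC {E : Type} [TopologicalSpace E] (U : Set X) (F : P → X → E) : Prop :=
  ContinuousOn (fun q : P × X => F q.1 q.2) (univ ×ˢ U)

/-- `F p` is `C^n` on `U`, and its derivatives depend continuously on `(p, x)`. -/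
def Fam (U : Set X) : ℕ → ∀ (E : Type) [NormedAddCommGroup E] [NormedSpace ℝ E],
    (P → X → E) → Prop
  | 0, _, _, _, F => JC U F
  | n + 1, E, _, _, F => JC U F ∧ ∃ F' : P → X → X →L[ℝ] E,
      (∀ p, ∀ x ∈ U, HasFDerivWithinAt (F p) (F' p x) U x) ∧ Fam U n (X →L[ℝ] E) F'

section
variable {U : Set X} {n : ℕ}

omit [NormedSpace ℝ X] in
lemma JC.comp_cont {E G : Type} [TopologicalSpace E] [TopologicalSpace G] {F : P → X → E}
    (h : JC U F) {g : E → G} (hg : Continuous g) : JC U fun p x => g (F p x) :=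
  hg.comp_continuousOn h

omit [NormedSpace ℝ X] in
lemma JC.at {E : Type} [TopologicalSpace E] {F : P → X → E} (h : JC U F) (p : P) :
    ContinuousOn (F p) U :=
  ContinuousOn.comp (g := fun q : P × X => F q.1 q.2) (f := fun x => (p, x)) h (by fun_prop)
    fun x hx => ⟨mem_univ _, hx⟩

lemma Fam.jc {E : Type} [NormedAddCommGroup E] [NormedSpace ℝ E] {F : P → X → E}
    (h : Fam U n E F) : JC U F := by
  cases n
  · exact h
  · exact h.1

lemma Fam.of_succ {E : Type} [NormedAddCommGroup E] [NormedSpace ℝ E] {F : P → X → E}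
    (h : Fam U (n + 1) E F) : Fam U n E F := by
  induction n generalizing E with
  | zero => exact h.1
  | succ n ih =>
    obtain ⟨h1, F', h2, h3⟩ := h
    exact ⟨h1, F', h2, ih h3⟩

lemma Fam.congr {E : Type} [NormedAddCommGroup E] [NormedSpace ℝ E] {F G : P → X → E}
    (h : Fam U n E F) (e : ∀ p, ∀ x ∈ U, G p x = F p x) : Fam U n E G := by
  have h0 : JC U G := h.jc.congr fun q hq => e q.1 q.2 hq.2
  cases n
  · exact h0
  · obtain ⟨-, F', h2, h3⟩ := h
    exact ⟨h0, F', fun p x hx => (h2 p x hx).congr (e p) (e p x hx), h3⟩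

lemma Fam.mono {E : Type} [NormedAddCommGroup E] [NormedSpace ℝ E] {F : P → X → E} {W : Set X}
    (h : Fam U n E F) (hW : W ⊆ U) : Fam W n E F := by
  induction n generalizing E with
  | zero => exact ContinuousOn.mono h (prod_mono subset_rfl hW)
  | succ n ih =>
    obtain ⟨h1, F', h2, h3⟩ := h
    exact ⟨ContinuousOn.mono h1 (prod_mono subset_rfl hW), F',
      fun p x hx => (h2 p x (hW hx)).mono hW, ih h3⟩

lemma Fam.param {E : Type} [NormedAddCommGroup E] [NormedSpace ℝ E] {F : P → X → E} {Q : Type}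
    [TopologicalSpace Q] (h : Fam U n E F) {g : Q → P} (hg : Continuous g) :
    Fam U n E fun q => F (g q) := by
  have key : ∀ {E : Type} [TopologicalSpace E] {F : P → X → E}, JC U F → JC U fun q => F (g q) :=
    fun h => ContinuousOn.comp (f := fun q : Q × X => (g q.1, q.2)) h (by fun_prop)
      fun q hq => ⟨mem_univ _, hq.2⟩
  induction n generalizing E with
  | zero => exact key h
  | succ n ih =>
    obtain ⟨h1, F', h2, h3⟩ := h
    exact ⟨key h1, fun q => F' (g q), fun q => h2 (g q), ih h3⟩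

lemma fam_const {E : Type} [NormedAddCommGroup E] [NormedSpace ℝ E] {c : P → E}
    (hc : Continuous c) : Fam U n E fun p _ => c p := by
  induction n generalizing E with
  | zero => exact (hc.comp continuous_fst).continuousOn
  | succ n ih =>
    exact ⟨(hc.comp continuous_fst).continuousOn, fun _ _ => 0,
      fun p x _ => hasFDerivWithinAt_const _ _ _, ih continuous_const⟩

lemma fam_id : Fam U n X fun (_ : P) x => x := by
  cases n
  · exact continuousOn_snd
  · exact ⟨continuousOn_snd, fun _ _ => ContinuousLinearMap.id ℝ X,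
      fun p x _ => hasFDerivWithinAt_id _ _, fam_const continuous_const⟩

lemma Fam.clm {E G : Type} [NormedAddCommGroup E] [NormedSpace ℝ E] [NormedAddCommGroup G]
    [NormedSpace ℝ G] {F : P → X → E} (h : Fam U n E F) (L : E →L[ℝ] G) :
    Fam U n G fun p x => L (F p x) := by
  induction n generalizing E G with
  | zero => exact JC.comp_cont h L.continuous
  | succ n ih =>
    obtain ⟨h1, F', h2, h3⟩ := h
    exact ⟨h1.comp_cont L.continuous, fun p x => L.comp (F' p x),
      fun p x hx => L.hasFDerivAt.comp_hasFDerivWithinAt x (h2 p x hx),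
      ih h3 (ContinuousLinearMap.compL ℝ X E G L)⟩

lemma Fam.add {E : Type} [NormedAddCommGroup E] [NormedSpace ℝ E] {F G : P → X → E}
    (h : Fam U n E F) (h' : Fam U n E G) : Fam U n E fun p x => F p x + G p x := by
  induction n generalizing E with
  | zero => exact ContinuousOn.add h h'
  | succ n ih =>
    obtain ⟨h1, F', h2, h3⟩ := h
    obtain ⟨h4, G', h5, h6⟩ := h'
    exact ⟨ContinuousOn.add h1 h4, fun p x => F' p x + G' p x,
      fun p x hx => (h2 p x hx).add (h5 p x hx), ih h3 h6⟩

lemma Fam.prod {E G : Type} [NormedAddCommGroup E] [NormedSpace ℝ E] [NormedAddCommGroup G]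
    [NormedSpace ℝ G] {F : P → X → E} {H : P → X → G} (h : Fam U n E F) (h' : Fam U n G H) :
    Fam U n (E × G) fun p x => (F p x, H p x) :=
  ((h.clm (ContinuousLinearMap.inl ℝ E G)).add (h'.clm (ContinuousLinearMap.inr ℝ E G))).congr
    fun p x _ => by simp

lemma Fam.bilin {E G K : Type} [NormedAddCommGroup E] [NormedSpace ℝ E] [NormedAddCommGroup G]
    [NormedSpace ℝ G] [NormedAddCommGroup K] [NormedSpace ℝ K] {F : P → X → E} {H : P → X → G}
    (h : Fam U n E F) (h' : Fam U n G H) (B : E →L[ℝ] G →L[ℝ] K) :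
    Fam U n K fun p x => B (F p x) (H p x) := by
  have key : ∀ {E G K : Type} [NormedAddCommGroup E] [NormedSpace ℝ E] [NormedAddCommGroup G]
      [NormedSpace ℝ G] [NormedAddCommGroup K] [NormedSpace ℝ K] {F : P → X → E} {H : P → X → G},
      JC U F → JC U H → ∀ B : E →L[ℝ] G →L[ℝ] K, JC U fun p x => B (F p x) (H p x) :=
    fun h h' B => (B.continuous.comp_continuousOn h).clm_apply h'
  induction n generalizing E G K with
  | zero => exact key h h' B
  | succ n ih =>
    have h0 := h.of_succ
    have h0' := h'.of_succ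
    obtain ⟨h1, F', h2, h3⟩ := h
    obtain ⟨h4, G', h5, h6⟩ := h'
    exact ⟨key h1 h4 B, fun p x => B.precompR X (F p x) (G' p x) + B.precompL X (F' p x) (H p x),
      fun p x hx => B.hasFDerivWithinAt_of_bilinear (h2 p x hx) (h5 p x hx),
      (ih h0 h6 _).add (ih h3 h0' _)⟩

lemma Fam.comp {Y E : Type} [NormedAddCommGroup Y] [NormedSpace ℝ Y] [NormedAddCommGroup E]
    [NormedSpace ℝ E] {W : Set Y} {F : P → Y → E} {G : P → X → Y} (h : Fam W n E F)
    (h' : Fam U n Y G) (hm : ∀ p, MapsTo (G p) U W) : Fam U n E fun p x => F p (G p x) := by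
  have key : ∀ {E : Type} [TopologicalSpace E] {F : P → Y → E}, JC W F →
      JC U fun p x => F p (G p x) := fun h =>
    ContinuousOn.comp (f := fun q : P × X => (q.1, G q.1 q.2)) h (continuousOn_fst.prodMk h'.jc)
      fun q hq => ⟨mem_univ _, hm q.1 hq.2⟩
  induction n generalizing E with
  | zero => exact key h
  | succ n ih =>
    have h0' := h'.of_succ
    obtain ⟨h1, F', h2, h3⟩ := h
    obtain ⟨h4, G', h5, h6⟩ := h'
    exact ⟨key h1, fun p x => (F' p (G p x)).comp (G' p x),
      fun p x hx => (h2 p _ (hm p hx)).comp x (h5 p x hx) (hm p),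
      (ih h3 h0').bilin h6 (ContinuousLinearMap.compL ℝ X Y E)⟩

lemma fam_of_contDiffOn {E : Type} [NormedAddCommGroup E] [NormedSpace ℝ E] {f : X → E}
    (hU : UniqueDiffOn ℝ U) (hf : ContDiffOn ℝ ∞ f U) : Fam U n E fun (_ : P) => f := by
  have key : ∀ {E : Type} [TopologicalSpace E] {f : X → E}, ContinuousOn f U →
      JC U fun (_ : P) => f := fun h => h.comp continuousOn_snd fun q hq => hq.2
  induction n generalizing E with
  | zero => exact key hf.continuousOn
  | succ n ih =>
    have h := (contDiffOn_infty_iff_fderivWithin hU).1 hf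
    exact ⟨key hf.continuousOn, fun _ => fderivWithin ℝ f U,
      fun _ x hx => (h.1 x hx).hasFDerivWithinAt, ih h.2⟩

lemma Fam.fderivWithin {E : Type} [NormedAddCommGroup E] [NormedSpace ℝ E] {F : P → X → E}
    (h : Fam U (n + 1) E F) (hU : UniqueDiffOn ℝ U) :
    Fam U n (X →L[ℝ] E) fun p => fderivWithin ℝ (F p) U := by
  obtain ⟨-, F', h2, h3⟩ := h
  exact h3.congr fun p x hx => (h2 p x hx).fderivWithin (hU x hx)

lemma Fam.diffOn {E : Type} [NormedAddCommGroup E] [NormedSpace ℝ E] {F : P → X → E}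
    (h : Fam U (n + 1) E F) (p : P) : DifferentiableOn ℝ (F p) U := by
  obtain ⟨-, F', h2, -⟩ := h
  exact fun x hx => (h2 p x hx).differentiableWithinAt

lemma Fam.contDiffOn {E : Type} [NormedAddCommGroup E] [NormedSpace ℝ E] {F : P → X → E}
    (h : Fam U n E F) (hU : UniqueDiffOn ℝ U) (p : P) : ContDiffOn ℝ n (F p) U := by
  induction n generalizing E with
  | zero => exact contDiffOn_zero.2 (JC.at h p)
  | succ n ih =>
    rw [Nat.cast_succ, contDiffOn_succ_iff_fderivWithin hU]
    exact ⟨h.diffOn p, by simp, ih (h.fderivWithin hU)⟩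

lemma fam_local {E : Type} [NormedAddCommGroup E] [NormedSpace ℝ E] {F : P → X → E}
    (hU : UniqueDiffOn ℝ U) (h : ∀ x ∈ U, ∃ O, IsOpen O ∧ x ∈ O ∧ Fam (U ∩ O) n E F) :
    Fam U n E F := by
  have key : ∀ {E : Type} [TopologicalSpace E] {F : P → X → E},
      (∀ x ∈ U, ∃ O, IsOpen O ∧ x ∈ O ∧ JC (U ∩ O) F) → JC U F := by
    intro E _ F h
    refine continuousOn_of_locally_continuousOn fun q hq => ?_
    obtain ⟨O, h1, h2, h3⟩ := h q.2 hq.2
    refine ⟨univ ×ˢ O, isOpen_univ.prod h1, ⟨mem_univ _, h2⟩, ?_⟩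
    rw [prod_inter_prod, univ_inter]
    exact h3
  induction n generalizing E with
  | zero => exact key h
  | succ n ih =>
    refine ⟨key fun x hx => (h x hx).imp fun O hO => ⟨hO.1, hO.2.1, hO.2.2.jc⟩,
      fun p => fderivWithin ℝ (F p) U, fun p x hx => ?_, ih fun x hx => ?_⟩
    · obtain ⟨O, h1, h2, h3⟩ := h x hx
      exact ((differentiableWithinAt_inter (h1.mem_nhds h2)).1
        (h3.diffOn p x ⟨hx, h2⟩)).hasFDerivWithinAt
    · obtain ⟨O, h1, h2, h3⟩ := h x hx
      exact ⟨O, h1, h2, (h3.fderivWithin (hU.inter h1)).congr fun p y hy =>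
        (fderivWithin_inter (h1.mem_nhds hy.2)).symm⟩

lemma Fam.jc_iter {E : Type} [NormedAddCommGroup E] [NormedSpace ℝ E] {F : P → X → E}
    (h : Fam U n E F) (hU : IsOpen U) : JC U fun p => iteratedFDeriv ℝ n (F p) := by
  induction n generalizing E with
  | zero => exact JC.comp_cont h (continuousMultilinearCurryFin0 ℝ X E).symm.continuous
  | succ n ih =>
    have h1 : Fam U n (X →L[ℝ] E) fun p => fderiv ℝ (F p) :=
      (h.fderivWithin hU.uniqueDiffOn).congr fun p x hx => (fderivWithin_of_isOpen hU hx).symm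
    simp only [JC, iteratedFDeriv_succ_eq_comp_right]
    exact (ih h1).comp_cont (continuousMultilinearCurryRightEquiv' ℝ n X E).symm.continuous

lemma fam_of_iter {E : Type} [NormedAddCommGroup E] [NormedSpace ℝ E] {F : P → X → E}
    (hU : IsOpen U) (h : ∀ p, ContDiffOn ℝ ∞ (F p) U)
    (h' : ∀ m, JC U fun p => iteratedFDeriv ℝ m (F p)) : Fam U n E F := by
  have key : ∀ {E : Type} [NormedAddCommGroup E] [NormedSpace ℝ E] {F : P → X → E},
      (JC U fun p => iteratedFDeriv ℝ 0 (F p)) → JC U F := fun {E} _ _ F h =>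
    h.comp_cont (continuousMultilinearCurryFin0 ℝ X E).continuous
  induction n generalizing E with
  | zero => exact key (h' 0)
  | succ n ih =>
    have h1 := fun p => (contDiffOn_infty_iff_fderiv_of_isOpen hU).1 (h p)
    refine ⟨key (h' 0), fun p => fderiv ℝ (F p), fun p x hx =>
      (((h1 p).1 x hx).differentiableAt (hU.mem_nhds hx)).hasFDerivAt.hasFDerivWithinAt,
      ih (fun p => (h1 p).2) fun m => ?_⟩
    have := (h' (m + 1)).comp_cont (continuousMultilinearCurryRightEquiv' ℝ m X E).continuous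
    simpa only [JC, iteratedFDeriv_succ_eq_comp_right, Function.comp_apply,
      LinearIsometryEquiv.apply_symm_apply] using this

end

end Pool.Agent.MP_2fc7fa_gt
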