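import Pool.Agent.MP_2fc7fa_gt.Alg

/-! Invariant closed two-forms are determined by a curve in `ℝ³`. -/

open Set Filter Topology Complex
open scoped ContDiff ComplexConjugate Matrix InnerProductSpace

namespace Pool.Agent.MP_2fc7fa_gt

/-- Closed invariant horizontal two-forms. -/
structure Good (σ : Form 2) : Prop where
  diff : ∀ z, z ≠ 0 → DifferentiableAt ℝ σ z
  closed : ∀ z, z ≠ 0 → extDeriv σ z = 0
  inv : Inv σ
  horiz : ∀ z (c : ℂ) u, bilL (σ z) (c • z) u = 0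

lemma Good.moment {σ : Form 2} (h : Good σ) {z : ℝ → V} {z' : V} {t : ℝ} (h0 : z t ≠ 0)
    (hz : HasDerivAt z z' t) {a b a' b' : ℂ} (ha : a.re = 0) (hab : ‖a‖ ^ 2 + ‖b‖ ^ 2 = 1)
    (ha' : a'.re = 0) (hab' : ‖a'‖ ^ 2 + ‖b'‖ ^ 2 = 1) :
    HasDerivAt (fun t => bilL (σ (z t)) (mat a b (z t)) (mat a' b' (z t)))
      (bilL (σ (z t)) (mat a b (mat a' b' (z t)) - mat a' b' (mat a b (z t))) z') t := by
  have hd := h.diff _ h0
  convert hasDerivAt_bil hd hz (clm_hasDerivAt (mat a b) hz) (clm_hasDerivAt (mat a' b') hz) using 1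
  have h1 := closed_apply (h.closed _ h0) z' (mat a b (z t)) (mat a' b' (z t))
  have h2 := h.inv.inf_bil hd ha hab z' (mat a' b' (z t))
  have h3 := h.inv.inf_bil hd ha' hab' z' (mat a b (z t))
  rw [map_sub, sub_apply, bilL_skew _ _ z', bilL_skew _ (mat a' b' (mat a b (z t))),
    bilL_skew _ (mat a b (z t)) (mat a' b' z')]
  linarith

/-- Euclidean three-space. -/
abbrev E3 : Type := EuclideanSpace ℝ (Fin 3)

/-- Points of a slice. -/
def pt (x y : ℝ) : V := ![x, y, 0]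

/-- The slice, parametrised by `s ∈ [0, 1]`. -/
noncomputable def sl (s : ℝ) : V := pt √(1 - s) √s

/-- A frame of the horizontal space along the slice. -/
noncomputable def fr (s : ℝ) : Fin 4 → V :=
  ![![-√s, √(1 - s), 0], ![-√s * I, √(1 - s) * I, 0], ![0, 0, 1], ![0, 0, I]]

/-- Three components of a two-form. -/
noncomputable def kk (φ : V [⋀^Fin 2]→L[ℝ] ℝ) : E3 :=
  !₂[bilL φ ![0, 0, I] ![0, I, 0], bilL φ ![0, I, 0] ![0, 0, 1], bilL φ ![0, 0, 1] ![0, 0, I]]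

/-- The curve of a two-form. -/
noncomputable def hh (σ : Form 2) (s : ℝ) : E3 := kk (σ (sl s))

/-- The components along the slice. -/
noncomputable def cp (σ : Form 2) (s : ℝ) (i j : Fin 4) : ℝ := bilL (σ (sl s)) (fr s i) (fr s j)

lemma sq_sl {s : ℝ} (hs : s ∈ Icc (0 : ℝ) 1) : √(1 - s) ^ 2 + √s ^ 2 = 1 := by
  rw [Real.sq_sqrt hs.1, Real.sq_sqrt (sub_nonneg.2 hs.2)]
  ring

lemma pt_ne {x y : ℝ} (h : x ≠ 0 ∨ y ≠ 0) : pt x y ≠ 0 := fun e =>
  h.elim (fun h => h (by simpa [pt] using congrFun e 0)) fun h => h (by simpa [pt] using congrFun e 1)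

lemma sl_ne {s : ℝ} (hs : s ∈ Icc (0 : ℝ) 1) : sl s ≠ 0 := by
  refine pt_ne (not_and_or.1 fun h => ?_)
  have := sq_sl hs
  simp [h.1, h.2] at this

lemma continuous_sl : Continuous sl := by
  refine continuous_pi fun i => ?_
  fin_cases i <;> simp [sl, pt] <;> fun_prop

lemma continuous_fr (i : Fin 4) : Continuous fun s => fr s i := by
  refine continuous_pi fun j => ?_
  fin_cases i <;> fin_cases j <;> simp [fr] <;> fun_prop

lemma Good.contOn {σ : Form 2} (h : Good σ) {u v : ℝ → V} (hu : Continuous u) (hv : Continuous v) :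
    ContinuousOn (fun s => bilL (σ (sl s)) (u s) (v s)) (Icc 0 1) := by
  have h1 : ContinuousOn (fun s => σ (sl s)) (Icc 0 1) := fun s hs =>
    ((h.diff _ (sl_ne hs)).continuousAt.comp continuous_sl.continuousAt).continuousWithinAt
  exact ((bilL.continuous.comp_continuousOn h1).clm_apply hu.continuousOn).clm_apply hv.continuousOn

/-- Coordinates with respect to the frame. -/
noncomputable def co (s : ℝ) (u : V) : Fin 4 → ℝ :=
  ![-√s * (u 0).re + √(1 - s) * (u 1).re, -√s * (u 0).im + √(1 - s) * (u 1).im, (u 2).re, (u 2).im]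

lemma frame_eq {s : ℝ} (hs : s ∈ Icc (0 : ℝ) 1) (u : V) :
    u = (√(1 - s) * u 0 + √s * u 1 : ℂ) • sl s + (co s u 0 • fr s 0 + co s u 1 • fr s 1 +
      co s u 2 • fr s 2 + co s u 3 • fr s 3) := by
  have h2 := sq_sl hs
  ext i
  fin_cases i <;> apply Complex.ext <;> simp [sl, pt, fr, co]
  · linear_combination -(u 0).re * h2
  · linear_combination -(u 0).im * h2
  · linear_combination -(u 1).re * h2
  · linear_combination -(u 1).im * h2

lemma Good.frame {σ : Form 2} (h : Good σ) {s : ℝ} (hs : s ∈ Icc (0 : ℝ) 1) (u v : V) :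
    bilL (σ (sl s)) u v = (co s u 0 * co s v 1 - co s u 1 * co s v 0) * cp σ s 0 1 +
      (co s u 0 * co s v 2 - co s u 2 * co s v 0) * cp σ s 0 2 +
      (co s u 0 * co s v 3 - co s u 3 * co s v 0) * cp σ s 0 3 +
      (co s u 1 * co s v 2 - co s u 2 * co s v 1) * cp σ s 1 2 +
      (co s u 1 * co s v 3 - co s u 3 * co s v 1) * cp σ s 1 3 +
      (co s u 2 * co s v 3 - co s u 3 * co s v 2) * cp σ s 2 3 := by
  have h1 : ∀ (c : ℂ) u, bilL (σ (sl s)) u (c • sl s) = 0 := fun c u => by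
    rw [bilL_skew, h.horiz, neg_zero]
  conv_lhs => rw [frame_eq hs u, frame_eq hs v]
  simp only [map_add, map_smul, add_apply, smul_apply, smul_eq_mul, h.horiz, h1, bilL_self, cp,
    bilL_skew _ (fr s 1) (fr s 0), bilL_skew _ (fr s 2) (fr s 0), bilL_skew _ (fr s 3) (fr s 0),
    bilL_skew _ (fr s 2) (fr s 1), bilL_skew _ (fr s 3) (fr s 1), bilL_skew _ (fr s 3) (fr s 2)]
  ring

lemma ie1 {s : ℝ} (hs : s ∈ Icc (0 : ℝ) 1) :
    (![0, I, 0] : V) = ((√s : ℝ) * I : ℂ) • sl s + √(1 - s) • fr s 1 := by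
  have h2 : ((√(1 - s) : ℝ) : ℂ) ^ 2 + (√s : ℝ) ^ 2 = 1 := by exact_mod_cast sq_sl hs
  ext i
  fin_cases i <;> simp [sl, pt, fr]
  · ring
  · linear_combination -I * h2

lemma Good.hh_eq {σ : Form 2} (h : Good σ) {s : ℝ} (hs : s ∈ Icc (0 : ℝ) 1) :
    hh σ s = !₂[-√(1 - s) * cp σ s 1 3, √(1 - s) * cp σ s 1 2, cp σ s 2 3] := by
  rw [hh, kk, bilL_skew _ _ ![0, I, 0], ie1 hs]
  simp only [map_add, map_smul, add_apply, smul_apply, h.horiz, zero_add, smul_eq_mul, neg_mul]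
  rfl

lemma hasDerivAt_sl {s : ℝ} (hs : s ∈ Ioo (0 : ℝ) 1) :
    HasDerivAt sl ((1 / (2 * √(1 - s) * √s)) • fr s 0) s := by
  have h1 : sl = fun s => √(1 - s) • (![1, 0, 0] : V) + √s • ![0, 1, 0] := by
    ext s i
    fin_cases i <;> simp [sl, pt]
  have hx : √(1 - s) ≠ 0 := (Real.sqrt_pos.2 (sub_pos.2 hs.2)).ne'
  have hy : √s ≠ 0 := (Real.sqrt_pos.2 hs.1).ne'
  have hx' : ((√(1 - s) : ℝ) : ℂ) ≠ 0 := by exact_mod_cast hx
  have hy' : ((√s : ℝ) : ℂ) ≠ 0 := by exact_mod_cast hy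
  rw [h1]
  refine (((((hasDerivAt_id' s).const_sub 1).sqrt (sub_pos.2 hs.2).ne').smul_const (![1, 0, 0] : V)
    ).fun_add ((Real.hasDerivAt_sqrt hs.1.ne').smul_const (![0, 1, 0] : V))).congr_deriv ?_
  ext i
  fin_cases i <;> simp [fr] <;> field_simp

lemma mat_sl1 (s : ℝ) : mat 0 1 (sl s) = √s • fr s 2 := by
  ext i
  fin_cases i <;> simp [mat, lm_apply, sl, pt, fr]

lemma mat_sl2 (s : ℝ) : mat 0 I (sl s) = √s • fr s 3 := by
  ext i
  fin_cases i <;> simp [mat, lm_apply, sl, pt, fr, mul_comm]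

lemma mat_sl3 (s : ℝ) : mat I 0 (sl s) = √s • ![0, I, 0] := by
  ext i
  fin_cases i <;> simp [mat, lm_apply, sl, pt, mul_comm]

lemma comm12 (z : V) : mat 0 1 (mat 0 I z) - mat 0 I (mat 0 1 z) = (-2 : ℝ) • mat I 0 z := by
  ext i
  fin_cases i <;> simp [mat, lm_apply] <;> ring

lemma comm23 (z : V) : mat 0 I (mat I 0 z) - mat I 0 (mat 0 I z) = (-2 : ℝ) • mat 0 1 z := by
  ext i
  fin_cases i <;> simp [mat, lm_apply, ← mul_assoc] <;> ring

lemma comm31 (z : V) : mat I 0 (mat 0 1 z) - mat 0 1 (mat I 0 z) = (-2 : ℝ) • mat 0 I z := by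
  ext i
  fin_cases i <;> simp [mat, lm_apply] <;> ring

lemma mul_hh (σ : Form 2) {s : ℝ} (hs : 0 ≤ s) (i : Fin 3) : s * hh σ s i =
    ![bilL (σ (sl s)) (mat 0 I (sl s)) (mat I 0 (sl s)),
      bilL (σ (sl s)) (mat I 0 (sl s)) (mat 0 1 (sl s)),
      bilL (σ (sl s)) (mat 0 1 (sl s)) (mat 0 I (sl s))] i := by
  simp only [mat_sl1, mat_sl2, mat_sl3, map_smul, smul_apply, smul_eq_mul, ← mul_assoc,
    Real.mul_self_sqrt hs]
  fin_cases i <;> rfl

lemma Good.hasDerivAt {σ : Form 2} (h : Good σ) {s : ℝ} (hs : s ∈ Ioo (0 : ℝ) 1) (i : Fin 3) :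
    HasDerivAt (fun s => s * hh σ s i)
      (![cp σ s 0 2 / √(1 - s), cp σ s 0 3 / √(1 - s), cp σ s 0 1] i) s := by
  have hs' := Ioo_subset_Icc_self hs
  have hx : √(1 - s) ≠ 0 := (Real.sqrt_pos.2 (sub_pos.2 hs.2)).ne'
  have hy : √s ≠ 0 := (Real.sqrt_pos.2 hs.1).ne'
  refine HasDerivAt.congr_of_eventuallyEq ?_
    (mem_of_superset (Ici_mem_nhds hs.1) fun t ht => mul_hh σ ht i)
  fin_cases i
  · refine (h.moment (sl_ne hs') (hasDerivAt_sl hs) (a := 0) (b := I) (a' := I) (b' := 0) rfl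
      (by simp) (by simp) (by simp)).congr_deriv ?_
    rw [comm23, mat_sl1, bilL_skew]
    simp only [map_smul, smul_apply, smul_eq_mul]
    change _ = bilL (σ (sl s)) (fr s 0) (fr s 2) / √(1 - s)
    field_simp
  · refine (h.moment (sl_ne hs') (hasDerivAt_sl hs) (a := I) (b := 0) (a' := 0) (b' := 1)
      (by simp) (by simp) (by simp) (by simp)).congr_deriv ?_
    rw [comm31, mat_sl2, bilL_skew]
    simp only [map_smul, smul_apply, smul_eq_mul]
    change _ = bilL (σ (sl s)) (fr s 0) (fr s 3) / √(1 - s)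
    field_simp
  · refine (h.moment (sl_ne hs') (hasDerivAt_sl hs) (a := 0) (b := 1) (a' := 0) (b' := I)
      (by simp) (by simp) (by simp) (by simp)).congr_deriv ?_
    rw [comm12, mat_sl3, ie1 hs']
    simp only [map_add, map_smul, add_apply, smul_apply, smul_eq_mul, h.horiz, zero_add]
    rw [bilL_skew]
    change _ = bilL (σ (sl s)) (fr s 0) (fr s 1)
    field_simp

lemma exists_act (z : V) (hz : z ≠ 0) : ∃ (c a b : ℂ) (s : ℝ), c ≠ 0 ∧ ‖a‖ ^ 2 + ‖b‖ ^ 2 = 1 ∧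
    s ∈ Icc (0 : ℝ) 1 ∧ z = act c a b (sl s) := by
  obtain ⟨e, he, h0⟩ := Complex.exists_norm_mul_eq_self (z 0)
  have he0 : e ≠ 0 := norm_pos_iff.1 (he ▸ one_pos)
  obtain ⟨a, b, r, hab, hr, h1, h2⟩ : ∃ (a b : ℂ) (r : ℝ), ‖a‖ ^ 2 + ‖b‖ ^ 2 = 1 ∧ 0 ≤ r ∧
      z 1 = e * a * r ∧ z 2 = e * b * r := by
    by_cases h : ‖z 1‖ ^ 2 + ‖z 2‖ ^ 2 = 0
    · obtain ⟨h1, h2⟩ := (add_eq_zero_iff_of_nonneg (sq_nonneg _) (sq_nonneg _)).1 h
      exact ⟨1, 0, 0, by simp, le_rfl, by simpa using h1, by simpa using h2⟩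
    · have h1 : 0 < ‖z 1‖ ^ 2 + ‖z 2‖ ^ 2 := lt_of_le_of_ne (by positivity) (Ne.symm h)
      have h2 := Real.sqrt_pos.2 h1
      have h3 : ((√(‖z 1‖ ^ 2 + ‖z 2‖ ^ 2) : ℝ) : ℂ) ≠ 0 := by exact_mod_cast h2.ne'
      refine ⟨z 1 / (e * √(‖z 1‖ ^ 2 + ‖z 2‖ ^ 2)), z 2 / (e * √(‖z 1‖ ^ 2 + ‖z 2‖ ^ 2)), _, ?_,
        h2.le, by field_simp, by field_simp⟩
      simp only [norm_div, norm_mul, he, one_mul, Complex.norm_real, Real.norm_eq_abs, div_pow, sq_abs,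
        Real.sq_sqrt h1.le]
      field_simp
  have hN : 0 < ‖z 0‖ ^ 2 + r ^ 2 := by
    refine lt_of_le_of_ne (by positivity) fun h => hz (funext fun i => ?_)
    obtain ⟨h3, h4⟩ := (add_eq_zero_iff_of_nonneg (sq_nonneg _) (sq_nonneg _)).1 h.symm
    rw [sq_eq_zero_iff] at h4
    fin_cases i
    · simpa using h3
    · simp [h1, h4]
    · simp [h2, h4]
  have hρ := Real.sqrt_pos.2 hN
  have h3 : √(r ^ 2 / (‖z 0‖ ^ 2 + r ^ 2)) = r / √(‖z 0‖ ^ 2 + r ^ 2) := by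
    rw [Real.sqrt_div (sq_nonneg r), Real.sqrt_sq hr]
  have h4 : √(1 - r ^ 2 / (‖z 0‖ ^ 2 + r ^ 2)) = ‖z 0‖ / √(‖z 0‖ ^ 2 + r ^ 2) := by
    rw [show 1 - r ^ 2 / (‖z 0‖ ^ 2 + r ^ 2) = ‖z 0‖ ^ 2 / (‖z 0‖ ^ 2 + r ^ 2) by field_simp; ring,
      Real.sqrt_div (sq_nonneg _), Real.sqrt_sq (norm_nonneg _)]
  have h5 : ((√(‖z 0‖ ^ 2 + r ^ 2) : ℝ) : ℂ) ≠ 0 := by exact_mod_cast hρ.ne'
  refine ⟨e * √(‖z 0‖ ^ 2 + r ^ 2), a, b, r ^ 2 / (‖z 0‖ ^ 2 + r ^ 2), mul_ne_zero he0 h5, hab,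
    ⟨by positivity, (div_le_one hN).2 (by nlinarith [sq_nonneg ‖z 0‖])⟩, ?_⟩
  rw [sl, h3, h4]
  ext i
  fin_cases i <;> simp [act, lm_apply, pt, h1, h2] <;> field_simp
  exact h0.symm

lemma act_surj {c a b : ℂ} (hc : c ≠ 0) (hab : ‖a‖ ^ 2 + ‖b‖ ^ 2 = 1) :
    Function.Surjective (act c a b) :=
  (LinearMap.injective_iff_surjective (f := (act c a b : V →ₗ[ℝ] V))).1
    ((injective_iff_map_eq_zero _).2 fun _ hz => by_contra fun h => act_ne hc hab h hz)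

lemma Good.unique {σ σ' : Form 2} (h : Good σ) (h' : Good σ') (e : EqOn (hh σ) (hh σ') (Ioo 0 1))
    {z : V} (hz : z ≠ 0) : σ z = σ' z := by
  obtain ⟨c, a, b, s, hc, hab, hs, rfl⟩ := exists_act z hz
  ext v
  obtain ⟨u, hu⟩ := act_surj hc hab (v 0)
  obtain ⟨w, hw⟩ := act_surj hc hab (v 1)
  rw [eq_bilL, eq_bilL, ← hu, ← hw, h.inv.bil hc hab, h'.inv.bil hc hab]
  refine EqOn.of_subset_closure (s := Ioo 0 1) (fun s hs => ?_) (h.contOn continuous_const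
    continuous_const) (h'.contOn continuous_const continuous_const) Ioo_subset_Icc_self
    (closure_Ioo zero_ne_one).ge hs
  have hs' := Ioo_subset_Icc_self hs
  have hx : √(1 - s) ≠ 0 := (Real.sqrt_pos.2 (sub_pos.2 hs.2)).ne'
  have h1 := fun i => (h.hasDerivAt hs i).unique ((h'.hasDerivAt hs i).congr_of_eventuallyEq
    (mem_of_superset (Ioo_mem_nhds hs.1 hs.2) fun t ht => congrArg (fun x : E3 => t * x i) (e ht)))
  have h2 := e hs
  rw [h.hh_eq hs', h'.hh_eq hs'] at h2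
  have h3 := fun i => congrArg (fun x : E3 => x i) h2
  have a1 : cp σ s 0 2 = cp σ' s 0 2 := by simpa [hx] using h1 0
  have a2 : cp σ s 0 3 = cp σ' s 0 3 := by simpa [hx] using h1 1
  have a3 : cp σ s 0 1 = cp σ' s 0 1 := by simpa [hx] using h1 2
  have a4 : cp σ s 1 3 = cp σ' s 1 3 := by simpa [hx] using h3 0
  have a5 : cp σ s 1 2 = cp σ' s 1 2 := by simpa [hx] using h3 1
  have a6 : cp σ s 2 3 = cp σ' s 2 3 := by simpa [hx] using h3 2
  simp only [h.frame hs', h'.frame hs', a1, a2, a3, a4, a5, a6]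

lemma Good.nondeg {σ : Form 2} (h : Good σ) {h' : ℝ → E3}
    (hd : ∀ s ∈ Icc (0 : ℝ) 1, HasDerivWithinAt (hh σ) (h' s) (Icc 0 1) s)
    (hc : ContinuousOn h' (Icc 0 1)) :
    (∀ z, z ≠ 0 → ∃ a b c d, σ z ![a, b] * σ z ![c, d] - σ z ![a, c] * σ z ![b, d] +
      σ z ![a, d] * σ z ![b, c] ≠ 0) ↔ ∀ s ∈ Icc (0 : ℝ) 1, ⟪hh σ s, hh σ s + s • h' s⟫_ℝ ≠ 0 := by
  have hcont : ContinuousOn (hh σ) (Icc 0 1) := fun s hs => (hd s hs).continuousWithinAt
  have key : EqOn (fun s => ⟪hh σ s, hh σ s + s • h' s⟫_ℝ) (fun s =>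
      cp σ s 0 1 * cp σ s 2 3 - cp σ s 0 2 * cp σ s 1 3 + cp σ s 0 3 * cp σ s 1 2) (Icc 0 1) := by
    have c1 : ∀ i j, ContinuousOn (fun s => cp σ s i j) (Icc 0 1) := fun i j =>
      h.contOn (continuous_fr i) (continuous_fr j)
    refine EqOn.of_subset_closure (s := Ioo 0 1) (fun s hs => ?_)
      (ContinuousOn.inner (𝕜 := ℝ) hcont (hcont.add (continuousOn_id.smul hc)))
      ((((c1 _ _).mul (c1 _ _)).sub ((c1 _ _).mul (c1 _ _))).add ((c1 _ _).mul (c1 _ _)))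
      Ioo_subset_Icc_self (closure_Ioo zero_ne_one).ge
    have hs' := Ioo_subset_Icc_self hs
    have hx : √(1 - s) ≠ 0 := (Real.sqrt_pos.2 (sub_pos.2 hs.2)).ne'
    have h1 := fun i => (h.hasDerivAt hs i).unique ((hasDerivAt_id' s).fun_mul (clm_hasDerivAt
      (EuclideanSpace.proj i : E3 →L[ℝ] ℝ) ((hd s hs').hasDerivAt (Icc_mem_nhds hs.1 hs.2))))
    have h2 : hh σ s + s • h' s =
        !₂[cp σ s 0 2 / √(1 - s), cp σ s 0 3 / √(1 - s), cp σ s 0 1] := by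
      ext i
      simpa using (h1 i).symm
    beta_reduce
    rw [h2, h.hh_eq hs']
    simp [PiLp.inner_apply, Fin.sum_univ_three]
    field_simp
    ring
  simp only [← bilL_apply]
  refine ⟨fun H s hs e => ?_, fun H z hz => ?_⟩
  · obtain ⟨a, b, c, d, h1⟩ := H _ (sl_ne hs)
    have h2 := (key hs).symm.trans e
    simp only [h.frame hs] at h1
    refine h1 ?_
    linear_combination ((co s a 0 * co s b 1 - co s a 1 * co s b 0) *
      (co s c 2 * co s d 3 - co s c 3 * co s d 2) - (co s a 0 * co s b 2 - co s a 2 * co s b 0) *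
      (co s c 1 * co s d 3 - co s c 3 * co s d 1) + (co s a 0 * co s b 3 - co s a 3 * co s b 0) *
      (co s c 1 * co s d 2 - co s c 2 * co s d 1) + (co s a 1 * co s b 2 - co s a 2 * co s b 1) *
      (co s c 0 * co s d 3 - co s c 3 * co s d 0) - (co s a 1 * co s b 3 - co s a 3 * co s b 1) *
      (co s c 0 * co s d 2 - co s c 2 * co s d 0) + (co s a 2 * co s b 3 - co s a 3 * co s b 2) *
      (co s c 0 * co s d 1 - co s c 1 * co s d 0)) * h2
  · obtain ⟨c, a, b, s, hc, hab, hs, rfl⟩ := exists_act z hz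
    refine ⟨act c a b (fr s 0), act c a b (fr s 1), act c a b (fr s 2), act c a b (fr s 3), ?_⟩
    simp only [h.inv.bil hc hab]
    exact fun e => H s hs ((key hs).trans e)

end Pool.Agent.MP_2fc7fa_gt
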