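import Pool.Agent.MP_2fc7fa_gt.TPlane

/-! Angle functions of admissible gradient fields. -/

namespace Pool.Agent.MP_2fc7fa_gt.Tor

open Set Complex Filter Topology
open scoped ContDiff Real

theorem lyap_tri (θ : C(Tri, ℝ)) {K : Set (Tri × ℂ)} (hK : IsCompact K)
    (h : ∀ p ∈ K, 0 < (p.2 * exp (-(θ p.1 : ℂ) * I)).re) :
    ∃ L : ℂ → ℝ, ContDiff ℝ ∞ L ∧ ∀ p ∈ K, 1 ≤ fderiv ℝ L p.1 p.2 := by
  obtain ⟨g, hg⟩ := θ.exists_restrict_eq tri_closed
  obtain ⟨f, f1, -, f2, -⟩ := exists_continuous_one_zero_of_isCompact tri_compact isClosed_empty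
    (disjoint_empty _)
  obtain ⟨L, hL, h1⟩ := lyapunov (W := fun x => f x * g x)
    ((f2.mul_right (f' := g)).uniformContinuous_of_continuous (by fun_prop))
    (hK.image (f := fun p => (p.1.1, p.2)) (by fun_prop)) (by
      rintro _ ⟨p, hp, rfl⟩
      have : g p.1 = θ p.1 := by rw [← hg]; rfl
      simpa [ee, f1 p.1.2, this] using h p hp)
  exact ⟨L, hL, fun p hp => h1 _ ⟨p, hp, rfl⟩⟩

/-- The two boundary arcs. -/
def AH (x : Tri) : Prop := x.1.im = 0 ∨ x.1.re + x.1.im = 1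

/-- The two boundary arcs. -/
def BH (x : Tri) : Prop := x.1.re = 0 ∨ x.1.re + x.1.im = 1

/-- Admissible angle functions. -/
def Win (θ : C(Tri, ℝ)) : Prop :=
  ∀ x, (AH x → -(π / 2) < θ x ∧ θ x < π / 2) ∧ (BH x → 0 < θ x ∧ θ x < π)

/-- Fields in the half-planes of an angle function. -/
def Rel (θ : C(Tri, ℝ)) (N : C(Tri, ℂ)) : Prop :=
  ∀ x, 0 < (N x * exp (-(θ x : ℂ) * I)).re ∧ (AH x → 0 < (N x).re) ∧ (BH x → 0 < (N x).im)

theorem Rel.hc {θ : C(Tri, ℝ)} {N : C(Tri, ℂ)} (h : Rel θ N) : Hc N := fun x =>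
  ⟨fun e => by simpa [e] using (h x).1, (h x).2⟩

theorem connAH : IsPreconnected {x | AH x} :=
  connA.union ⟨1, one_mem_tri⟩ rfl (add_zero (1 : ℝ)) connH

theorem connBH : IsPreconnected {x | BH x} :=
  connB.union ⟨I, I_mem_tri⟩ rfl (zero_add (1 : ℝ)) connH

theorem angle : ∃ θ : C({N // Hc N}, C(Tri, ℝ)), ∀ N, Win (θ N) ∧ Rel (θ N) N.1 := by
  have m : ∀ (t : unitInterval) (x : Tri), 1 + (t : ℝ) • (x.1 - 1) ∈ Tri := fun t x =>
    tri_convex.add_smul_sub_mem one_mem_tri x.2 t.2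
  let e : Tri := ⟨1, one_mem_tri⟩
  have he : ∀ N : {N // Hc N}, 0 < (N.1 e).re := fun N => (N.2 e).2.1 (Or.inl rfl)
  let H : C(unitInterval × ({N // Hc N} × Tri), {z : ℂ // z ≠ 0}) :=
    ⟨fun q => ⟨q.2.1.1 ⟨_, m q.1 q.2.2⟩, (q.2.1.2 _).1⟩, by fun_prop⟩
  let f : C({N // Hc N} × Tri, ℂ) := ⟨fun q => log (q.1.1 e), Continuous.clog (by fun_prop)
    fun q => Or.inl (he q.1)⟩
  have h0 : ∀ a, H (0, a) = ⟨exp (f a), exp_ne_zero _⟩ := fun a => by
    simp [H, f, e, exp_log (a.1.2 e).1]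
  let G := isCoveringMap_exp.liftHomotopy H f h0
  have h1 : ∀ q, exp (G q) = H q := fun q =>
    congrArg Subtype.val (congrFun (isCoveringMap_exp.liftHomotopy_lifts H f h0) q)
  have h2 : ∀ N x, exp (G (1, N, x)) = N.1 x := fun N x => by simp [h1, H]
  have h3 : ∀ N, G (1, N, e) = log (N.1 e) := fun N =>
    (isCoveringMap_exp.const_of_comp (g := fun t => G (t, N, e)) (by fun_prop)
      (fun a b => Subtype.ext (by simp [h1, H, e])) 1 0).trans
      (isCoveringMap_exp.liftHomotopy_zero H f h0 _)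
  refine ⟨ContinuousMap.curry ⟨fun q => (G (1, q)).im, by fun_prop⟩, fun N => ?_⟩
  have k : ∀ x, (N.1 x).re = rexp (G (1, N, x)).re * Real.cos (G (1, N, x)).im ∧
      (N.1 x).im = rexp (G (1, N, x)).re * Real.sin (G (1, N, x)).im := fun x => by
    rw [← h2, exp_re, exp_im]; exact ⟨rfl, rfl⟩
  have k1 : |(G (1, N, e)).im| < π / 2 := by
    rw [h3, log_im]; exact abs_arg_lt_pi_div_two_iff.2 (Or.inl (he N))
  have c : Continuous fun x => (G (1, N, x)).im := by fun_prop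
  have kA : ∀ x, AH x → Real.cos (G (1, N, x)).im ≠ 0 := fun x hx h => by
    simpa [(k x).1, h] using (N.2 x).2.1 hx
  have kB : ∀ x, BH x → Real.sin (G (1, N, x)).im ≠ 0 := fun x hx h => by
    simpa [(k x).2, h] using (N.2 x).2.2 hx
  have eB : BH e := Or.inr (by simp [e])
  have k2 : 0 < (G (1, N, e)).im := by
    have := (N.2 e).2.2 eB
    rw [(k e).2] at this
    by_contra hn
    have := Real.sin_nonpos_of_nonpos_of_neg_pi_le (not_lt.1 hn)
      (by linarith [(abs_lt.1 k1).1, Real.pi_pos])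
    nlinarith [Real.exp_pos (G (1, N, e)).re]
  refine ⟨fun x => ⟨fun hx => ⟨?_, ?_⟩, fun hx => ⟨?_, ?_⟩⟩, fun x => ⟨?_, (N.2 x).2⟩⟩
  · refine sub_pos.1 (pos_of_conn connAH (c.sub continuous_const) (fun y hy h => kA y hy ?_)
      (a := e) (Or.inl rfl) (sub_pos.2 (abs_lt.1 k1).1) x hx)
    simp [sub_eq_zero.1 h]
  · refine sub_pos.1 (pos_of_conn connAH (continuous_const.sub c) (fun y hy h => kA y hy ?_)
      (a := e) (Or.inl rfl) (sub_pos.2 (abs_lt.1 k1).2) x hx)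
    simp [← sub_eq_zero.1 h]
  · exact pos_of_conn connBH c (fun y hy h => kB y hy (by simp [h])) (a := e) eB k2 x hx
  · refine sub_pos.1 (pos_of_conn connBH (continuous_const.sub c) (fun y hy h => kB y hy ?_)
      (a := e) eB (sub_pos.2 (by linarith [(abs_lt.1 k1).2, Real.pi_pos])) x hx)
    simp [← sub_eq_zero.1 h]
  · rw [← h2, ← exp_add, exp_re]
    simp [Real.exp_pos]

end Pool.Agent.MP_2fc7fa_gt.Tor
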