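import Pool.Agent.MP_2fc7fa_gt.TAngle

/-! The abstract contraction argument. -/

namespace Pool.Agent.MP_2fc7fa_gt.Tor

open Set Complex Filter Topology ContinuousMap
open scoped Real

theorem ev_pos {X : Type*} [TopologicalSpace X] {f : X → Tri → ℝ}
    (hf : Continuous fun q : X × Tri => f q.1 q.2) {x : X} (h : ∀ y, 0 < f x y) :
    ∀ᶠ x' in 𝓝 x, ∀ y, 0 < f x' y :=
  (isCompact_univ.eventually_forall_of_forall_eventually (P := fun x y => 0 < f x y) fun y _ =>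
    hf.continuousAt.eventually (lt_mem_nhds (h y))).mono fun _ h y => h y trivial

theorem comb_pos {a b x y : ℝ} (ha : 0 ≤ a) (hb : 0 ≤ b) (hab : a + b = 1) (hx : 0 < x)
    (hy : 0 < y) : 0 < a * x + b * y := by
  rcases ha.eq_or_lt with e | e
  · rw [← e, zero_add] at hab; simpa [← e, hab]
  · exact add_pos_of_pos_of_nonneg (mul_pos e hx) (mul_nonneg hb hy.le)

theorem rel_convex (θ : C(Tri, ℝ)) : Convex ℝ {N | Rel θ N} := fun N hN N' hN' a b ha hb hab x =>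
  ⟨by simpa [add_mul, mul_assoc, -mul_re, re_ofReal_mul] using
    comb_pos ha hb hab (hN x).1 (hN' x).1,
    fun h => by simpa using comb_pos ha hb hab ((hN x).2.1 h) ((hN' x).2.1 h),
    fun h => by simpa using comb_pos ha hb hab ((hN x).2.2 h) ((hN' x).2.2 h)⟩

theorem win_convex : Convex ℝ {θ | Win θ} := fun _ h _ h' _ _ ha hb hab x =>
  ⟨fun k => convex_Ioo _ _ ((h x).1 k) ((h' x).1 k) ha hb hab,
    fun k => convex_Ioo _ _ ((h x).2 k) ((h' x).2 k) ha hb hab⟩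

variable {E : Type*} [AddCommGroup E] [Module ℝ E] [TopologicalSpace E] [ContinuousAdd E]
  [ContinuousSMul ℝ E]

theorem seg_homotopic {X : Type*} [TopologicalSpace X] {S : E → Prop} {f g : C(X, {e // S e})}
    (h : ∀ x (a b : ℝ), 0 ≤ a → 0 ≤ b → a + b = 1 → S (a • (f x).1 + b • (g x).1)) : f.Homotopic g :=
  ⟨⟨⟨fun q => ⟨(1 - q.1 : ℝ) • (f q.2).1 + (q.1 : ℝ) • (g q.2).1,
    h _ _ _ (sub_nonneg.2 q.1.2.2) q.1.2.1 (by ring)⟩, by fun_prop⟩, by simp, by simp⟩⟩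

theorem assembly {l : ℝ} {C : ℝ → E → Prop} (P N : E →L[ℝ] C(Tri, ℂ))
    (lin : ∀ {a b ω ω'} (s t : ℝ), C a ω → C b ω' → C (s * a + t * b) (s • ω + t • ω'))
    (H1 : ∀ ω, C l ω → (∀ x, det (P ω x) (N ω x) ≠ 0) → (∀ x, 0 < det (P ω x) (N ω x)) ∧ Hc (N ω))
    (H3 : ∀ θ, Win θ → ∃ ω, C l ω ∧ Rel θ (N ω))
    (H4 : ∀ ω, C l ω → Hc (N ω) → ∃ ω', C l ω' ∧ N ω' = N ω ∧ ∀ x, 0 < det (P ω' x) (N ω x)) :
    ContractibleSpace {ω // C l ω ∧ ∀ x, det (P ω x) (N ω x) ≠ 0} := by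
  have cv : ∀ {c ω ω'} {a b : ℝ}, a + b = 1 → C c ω → C c ω' → C c (a • ω + b • ω') :=
    fun {c _ _ a b} hab h h' => by simpa [← add_mul, hab] using lin a b h h'
  obtain ⟨θ, hθ⟩ := angle
  obtain ⟨σ, hσ⟩ := exists_continuous_forall_mem_convex_of_local_const
    (t := fun θ : {θ | Win θ} => {ω | C l ω ∧ Rel θ (N ω)})
    (fun θ ω h ω' h' a b ha hb hab => ⟨cv hab h.1 h'.1, by
      simpa using rel_convex θ h.2 h'.2 ha hb hab⟩) fun θ => by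
      obtain ⟨ω, h1, h2⟩ := H3 θ θ.2
      exact ⟨ω, (ev_pos (f := fun (θ : {θ | Win θ}) x => (N ω x * exp (-(θ.1 x : ℂ) * I)).re)
        (by fun_prop) fun x => (h2 x).1).mono fun θ' h => ⟨h1, fun x => ⟨h x, (h2 x).2⟩⟩⟩
  obtain ⟨τ, hτ⟩ := exists_continuous_forall_mem_convex_of_local_const
    (t := fun q : {q : C(Tri, ℂ) × C(Tri, ℂ) // ∃ ω, C l ω ∧ Hc (N ω) ∧ q = (P ω, N ω)} =>
      {η | C 0 η ∧ N η = 0 ∧ ∀ x, 0 < det (q.1.1 x + P η x) (q.1.2 x)})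
    (fun q ω h ω' h' a b ha hb hab => ⟨cv hab h.1 h'.1, by simp [h.2.1, h'.2.1], fun x => by
      convert comb_pos ha hb hab (h.2.2 x) (h'.2.2 x) using 1
      simp [det]
      linear_combination ((q.1.1 x).im * (q.1.2 x).re - (q.1.1 x).re * (q.1.2 x).im) * hab⟩)
    fun q => by
      obtain ⟨_, ω, h1, h2, rfl⟩ := q
      obtain ⟨ω', h3, h4, h5⟩ := H4 ω h1 h2
      refine ⟨(1 : ℝ) • ω' + (-1 : ℝ) • ω, (ev_pos (f := fun (q : {q : C(Tri, ℂ) × C(Tri, ℂ) //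
        ∃ ω, C l ω ∧ Hc (N ω) ∧ q = (P ω, N ω)}) x => det (q.1.1 x + P ((1 : ℝ) • ω' +
          (-1 : ℝ) • ω) x) (q.1.2 x)) (by unfold det; fun_prop) fun x => by simpa using h5 x).mono
        fun q h => ⟨by simpa using lin 1 (-1) h3 h1, by simp [h4], h⟩⟩
  have := win_convex.contractibleSpace ⟨.const _ (π / 4), fun x => by
    have := Real.pi_pos
    refine ⟨fun _ => ⟨?_, ?_⟩, fun _ => ⟨?_, ?_⟩⟩ <;> simp <;> linarith⟩
  let a : C({ω // C l ω ∧ Hc (N ω)}, {θ | Win θ}) :=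
    ⟨fun ω => ⟨θ ⟨N ω, ω.2.2⟩, (hθ _).1⟩, by fun_prop⟩
  let b : C({θ | Win θ}, {ω // C l ω ∧ Hc (N ω)}) :=
    ⟨fun θ => ⟨σ θ, (hσ θ).1, (hσ θ).2.hc⟩, by fun_prop⟩
  have k1 : (ContinuousMap.id _).Homotopic (b.comp a) := seg_homotopic fun ω s t hs ht hst =>
    ⟨cv hst ω.2.1 (hσ _).1, Rel.hc (by
      simpa [b] using rel_convex _ (hθ ⟨N ω, ω.2.2⟩).2 (hσ (a ω)).2 hs ht hst)⟩
  obtain ⟨y, hy⟩ := ((id_nullhomotopic _).comp_right b).comp_left a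
  let i : C({ω // C l ω ∧ ∀ x, det (P ω x) (N ω x) ≠ 0}, {ω // C l ω ∧ Hc (N ω)}) :=
    ⟨fun ω => ⟨ω, ω.2.1, (H1 _ ω.2.1 ω.2.2).2⟩, by fun_prop⟩
  let d : C({ω // C l ω ∧ Hc (N ω)}, E) :=
    ⟨fun ω => τ ⟨(P ω, N ω), ω, ω.2.1, ω.2.2, rfl⟩, by fun_prop⟩
  have hd : ∀ ω, C 0 (d ω) ∧ N (d ω) = 0 ∧ ∀ x, 0 < det (P ω x + P (d ω) x) (N ω x) :=
    fun ω => hτ _
  let T : C({ω // C l ω ∧ Hc (N ω)}, {ω // C l ω ∧ ∀ x, det (P ω x) (N ω x) ≠ 0}) :=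
    ⟨fun ω => ⟨ω + d ω, by simpa using lin 1 1 ω.2.1 (hd ω).1, fun x => by
      simpa [(hd ω).2.1] using ((hd ω).2.2 x).ne'⟩, by fun_prop⟩
  have k2 : (ContinuousMap.id _).Homotopic (T.comp i) := seg_homotopic fun ω s t hs ht hst =>
    ⟨cv hst ω.2.1 (T (i ω)).2.1, fun x => ne_of_gt (by
      refine (comb_pos hs ht hst ((H1 _ ω.2.1 ω.2.2).1 x) ((hd (i ω)).2.2 x)).trans_eq (.symm ?_)
      obtain rfl : s = 1 - t := by linarith
      change det (P ((1 - t) • ω.1 + t • (ω.1 + d (i ω))) x)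
        (N ((1 - t) • ω.1 + t • (ω.1 + d (i ω))) x) = _ * _ + _ * det (P ω x + _) (N ω x)
      simp [(hd _).2.1, det]
      ring)⟩
  obtain ⟨z, hz⟩ := (Nullhomotopic.comp_right ⟨y, k1.trans hy⟩ T).comp_left i
  exact (contractible_iff_id_nullhomotopic _).2 ⟨z, k2.trans hz⟩

end Pool.Agent.MP_2fc7fa_gt.Tor
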