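import Pool.Agent.MP_2fc7fa_gt.TPf

/-! Averaging primitives over the torus. -/

namespace Pool.Agent.MP_2fc7fa_gt.Tor

open Set Complex Filter Topology
open scoped ContDiff ComplexConjugate Real

/-- Primitives of `σ` invariant under `S`. -/
structure Prim (l : ℝ) (σ : Form 2) (S : Set V) (b : L1) : Prop where
  smooth : ContDiffOn ℝ ∞ b {0}ᶜ
  inv : ∀ g ∈ S, ∀ z ≠ 0, ∀ v, b (g * z) (g * v) = b z v
  horiz : ∀ z ≠ 0, ∀ c : ℂ, b z (c • z) = l * c.im
  d : ∀ z ≠ 0, ∀ u v, fderiv ℝ b z u v - fderiv ℝ b z v u = bilL (σ z) u v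

/-- Rotations of one coordinate. -/
noncomputable def rot (a : V) (t : ℝ) : V := fun j => exp (t * a j)

theorem rot_add (a : V) (s t : ℝ) : rot a (s + t) = rot a s * rot a t := by
  ext j; simp [rot, add_mul, exp_add]

theorem Prim.avg {l : ℝ} {σ : Form 2} {S : Set V} {b : L1} (h : Prim l σ S b)
    (hS : ∀ g ∈ S, TG g) (hσ : ∀ g, TG g → ∀ z ≠ 0, ∀ u v, bilL (σ (g * z)) (g * u) (g * v) = bilL (σ z) u v)
    {a : V} (ha : ∀ t, TG (rot a t)) (h1 : rot a 1 = 1) :
    ∃ b', Prim l σ (S ∪ range (rot a)) b' := by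
  have hU : IsOpen ({0}ᶜ : Set V) := isOpen_compl_singleton
  have c : Continuous fun q : Unit × ℝ => rot a q.2 := by unfold rot; fun_prop
  let F : Unit × ℝ → L1 := fun q z =>
    (b (rot a q.2 * z)).comp (ContinuousLinearMap.mul ℝ V (rot a q.2))
  have hF : Sm {0}ᶜ F := ((sm_of_contDiffOn hU.uniqueDiffOn h.smooth).comp
    ((sm_const c).bilin sm_id (ContinuousLinearMap.mul ℝ V)) fun q z hz => (ha _).ne hz).bilin
    (sm_const ((ContinuousLinearMap.mul ℝ V).continuous.comp c)) (ContinuousLinearMap.compL ℝ V V ℝ)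
  have hF' := hF.fderiv hU
  have ev : ∀ z ≠ 0, ∀ v, (∫ t in (0 : ℝ)..1, F ((), t) z) v =
      ∫ t in (0 : ℝ)..1, b (rot a t * z) (rot a t * v) := fun z hz v =>
    ContinuousLinearMap.intervalIntegral_apply ((hF.jc.slice () hz).intervalIntegrable _ _) v
  have loc : ∀ z ≠ 0, ∃ O : Set V, IsOpen O ∧ z ∈ O ∧ Convex ℝ O ∧ O ⊆ {0}ᶜ := fun z hz => by
    obtain ⟨ε, hε, h⟩ := Metric.isOpen_iff.1 hU z hz
    exact ⟨_, Metric.isOpen_ball, Metric.mem_ball_self hε, convex_ball _ _, h⟩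
  refine ⟨fun z => ∫ t in (0 : ℝ)..1, F ((), t) z, contDiffOn_of_locally_contDiffOn fun z hz => ?_,
    ?_, fun z hz c => ?_, fun z hz u v => ?_⟩
  · obtain ⟨O, o1, o2, o3, o4⟩ := loc z hz
    exact ⟨O, o1, o2, (Sm.contDiffOn (fun n => Fam.integral o3 (hF.mono o4 n)) o1.uniqueDiffOn
      ()).mono inter_subset_right⟩
  · rintro g (hg | ⟨s, rfl⟩) z hz v
    · rw [ev _ ((hS g hg).ne hz), ev _ hz]
      simp only [mul_left_comm _ g, h.inv g hg _ ((ha _).ne hz)]
    · rw [ev _ ((ha s).ne hz), ev _ hz]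
      simp only [← mul_assoc, ← rot_add]
      rw [intervalIntegral.integral_comp_add_right (fun t => b (rot a t * z) (rot a t * v))]
      simpa [add_comm] using Function.Periodic.intervalIntegral_add_eq (T := 1)
        (f := fun t => b (rot a t * z) (rot a t * v)) (fun t => by simp [rot_add, h1]) s 0
  · rw [ev _ hz]
    simp [h.horiz _ ((ha _).ne hz)]
  · obtain ⟨O, o1, o2, o3, o4⟩ := loc z hz
    have d := fun q y (hy : y ≠ 0) => dAt (hF.contDiffOn hU.uniqueDiffOn q) hy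
    have i := (hF'.jc.slice () hz).intervalIntegrable (μ := MeasureTheory.volume) 0 1
    have e : ∀ u v, (∫ t in (0 : ℝ)..1, fderiv ℝ (F ((), t)) z) u v =
        ∫ t in (0 : ℝ)..1, fderiv ℝ b (rot a t * z) (rot a t * u) (rot a t * v) := fun u v => by
      rw [ContinuousLinearMap.intervalIntegral_apply i, ContinuousLinearMap.intervalIntegral_apply
        (((hF'.jc.slice () hz).clm_apply continuous_const).intervalIntegrable _ _)]
      congr 1
      ext t
      simpa using (dlin (b := F ((), t)) (by simpa using d _ z hz) (line z u)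
        (hasDerivAt_const 0 v)).unique (dlin (b := b) (by simpa using dAt h.smooth ((ha t).ne hz))
          (dmul (rot a t) (line z u)) (hasDerivAt_const 0 (rot a t * v)))
    have c2 : ∀ u v, Continuous fun t => fderiv ℝ b (rot a t * z) (rot a t * u) (rot a t * v) :=
      fun u v => by
      have : Continuous (rot a) := by unfold rot; fun_prop
      exact (((h.smooth.continuousOn_fderiv_of_isOpen hU (by simp)).comp_continuous
        (this.mul continuous_const) fun t => (ha t).ne hz).clm_apply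
        (this.mul continuous_const)).clm_apply (this.mul continuous_const)
    rw [((hasFDerivWithinAt_integral o3 (hF.mono o4).jc (fun q y hy =>
      (d q y (o4 hy)).hasFDerivAt.hasFDerivWithinAt) (hF'.mono o4).jc () o2).hasFDerivAt
      (o1.mem_nhds o2)).fderiv, e, e, ← intervalIntegral.integral_sub
      ((c2 _ _).intervalIntegrable _ _) ((c2 _ _).intervalIntegrable _ _)]
    simp [h.d _ ((ha _).ne hz), hσ _ (ha _) z hz]

theorem Prim.conn {l : ℝ} {σ : Form 2} {b : L1} (h : Prim l σ {g | ∃ c ≠ 0, g = fun _ => c} b)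
    (hσ : ∀ g, TG g → ∀ z ≠ 0, ∀ u v, bilL (σ (g * z)) (g * u) (g * v) = bilL (σ z) u v) :
    ∃ b', Conn l b' ∧ ∀ z ≠ 0, σ z = dd (mk1 b') z := by
  have t : ∀ k t, TG (rot (Pi.single k (2 * π * I)) t) := fun k t => ⟨exp_ne_zero _, fun j => by
    simp [rot, norm_exp, Pi.single_apply, apply_ite Complex.re]⟩
  have p : ∀ k, rot (Pi.single k (2 * π * I)) 1 = 1 := fun k => funext fun j => by
    by_cases e : j = k <;> simp [rot, e]
  have s : ∀ g ∈ {g : V | ∃ c ≠ 0, g = fun _ => c}, TG g := by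
    rintro _ ⟨c, hc, rfl⟩
    exact ⟨hc, fun _ => rfl⟩
  obtain ⟨b₁, h₁⟩ := h.avg s hσ (t 1) (p 1)
  obtain ⟨b₂, h₂⟩ := h₁.avg (by
    rintro g (hg | ⟨s, rfl⟩)
    exacts [s g hg, t _ _]) hσ (t 2) (p 2)
  refine ⟨b₂, ⟨⟨h₂.smooth, fun g hg z hz v => ?_⟩, h₂.horiz⟩, fun z hz => ?_⟩
  · have k : ∀ j, g j = g 0 * exp (↑(arg (g j / g 0) / (2 * π)) * (2 * π * I)) := fun j => by
      have e := norm_mul_exp_arg_mul_I (g j / g 0)
      rw [norm_div, hg.2, div_self (norm_ne_zero_iff.2 hg.1), ofReal_one, one_mul] at e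
      have : (π : ℂ) ≠ 0 := ofReal_ne_zero.2 Real.pi_ne_zero
      rw [show ↑(arg (g j / g 0) / (2 * π)) * (2 * π * I) = arg (g j / g 0) * I by
        push_cast; field_simp, e, mul_div_cancel₀ _ hg.1]
    have e : g = (fun _ => g 0) * (rot (Pi.single 1 (2 * π * I)) (arg (g 1 / g 0) / (2 * π)) *
        rot (Pi.single 2 (2 * π * I)) (arg (g 2 / g 0) / (2 * π))) := by
      ext j
      fin_cases j
      · simp [rot]
      · simpa [rot] using k 1
      · simpa [rot] using k 2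
    rw [e, mul_assoc _ _ z, mul_assoc _ _ v, mul_assoc _ _ z, mul_assoc _ _ v, h₂.inv _ (.inl (.inl ⟨_, hg.1, rfl⟩)) _ ((t _ _).ne ((t _ _).ne hz)),
      h₂.inv _ (.inl (.inr ⟨_, rfl⟩)) _ ((t _ _).ne hz), h₂.inv _ (.inr ⟨_, rfl⟩) _ hz]
  · ext v
    rw [eq_bilL, eq_bilL, bil_dd _ hz, h₂.d _ hz]

/-- The standard invariant one-forms. -/
noncomputable def aj (a : V) : L1 := fun z => (nn z)⁻¹ • linL (cov (a * z))

theorem aj_apply (a z v : V) : aj a z v = (nn z)⁻¹ * (her (a * z) v).im := by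
  simp [aj, linL_cov]

theorem pre_aj (a : V) : Pre (aj a) := by
  refine ⟨contDiffOn_inv_nn.smul (linL.contDiff.comp (contDiff_cov.comp
    (contDiff_const.mul contDiff_id))).contDiffOn, fun g hg z hz v => ?_⟩
  have h : her (a * (g * z)) (g * v) = (‖g 0‖ ^ 2 : ℝ) * her (a * z) v := by
    simp only [her, Finset.mul_sum, Pi.mul_apply, map_mul]
    refine Finset.sum_congr rfl fun j _ => ?_
    rw [← hg.2 j, ofReal_pow, ← conj_mul']
    ring
  have : ‖g 0‖ ≠ 0 := by simpa using hg.1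
  rw [aj_apply, aj_apply, h, hg.nn, im_ofReal_mul]
  field_simp

theorem aj_ei (k j : Fin 3) {z : V} (hz : z ≠ 0) :
    aj (er k) z (ei j * z) = if j = k then xs (mu z) k else 0 := by
  rw [aj_apply, xs_mu hz]
  fin_cases k <;> fin_cases j <;>
    simp [her, er, ei, Fin.sum_univ_three, Complex.sq_norm, normSq_apply] <;> ring

theorem Pre.add {b b' : L1} (h : Pre b) (h' : Pre b') : Pre fun z => b z + b' z :=
  ⟨h.smooth.add h'.smooth, fun g hg z hz v => by simp [h.inv g hg z hz, h'.inv g hg z hz]⟩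

theorem Pre.smul {b : L1} (h : Pre b) {f : V → ℝ} (hf : ContDiffOn ℝ ∞ f {0}ᶜ)
    (hi : ∀ g, TG g → ∀ z ≠ 0, f (g * z) = f z) : Pre fun z => f z • b z :=
  ⟨hf.smul h.smooth, fun g hg z hz v => by simp [h.inv g hg z hz, hi g hg z hz]⟩

theorem Pre.comp {b : L1} (h : Pre b) (a : V) :
    Pre fun z => (b z).comp (ContinuousLinearMap.mul ℝ V a) :=
  ⟨h.smooth.clm_comp contDiffOn_const, fun g hg z hz v => by
    simp [mul_left_comm a, h.inv g hg z hz]⟩

theorem Pre.smooth_mom {b : L1} (h : Pre b) (a : V) : ContDiffOn ℝ ∞ (fun z => b z (a * z)) {0}ᶜ :=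
  h.smooth.clm_apply (contDiff_const.mul contDiff_id).contDiffOn

theorem I_smul (z : V) : I • z = ei 0 * z + ei 1 * z + ei 2 * z := by
  ext j
  fin_cases j <;> simp [ei]

theorem Pre.conn {l : ℝ} {b : L1} (h : Pre b)
    (hl : ∀ z ≠ 0, b z (ei 0 * z) + b z (ei 1 * z) + b z (ei 2 * z) = l) :
    ∃ b', Conn l b' ∧ ∀ k z, b' z (ei k * z) = b z (ei k * z) := by
  refine ⟨_, ⟨h.add ((pre_aj fun _ => I).smul (h.smooth_mom 1) fun g hg z hz => h.mom_inv 1 hg hz),
    fun z hz c => ?_⟩, fun k z => ?_⟩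
  · have e : c • z = c.re • z + c.im • I • z := by
      ext j
      apply Complex.ext <;> simp
      ring
    have e' : aj (fun _ => I) z (c • z) = -c.re := by
      rw [aj_apply, show (fun _ => I) * z = I • z from rfl, her_smul, her_smul', her_self]
      simp
      field_simp [(nn_pos hz).ne']
    rw [add_apply, smul_apply, e', e, map_add, map_smul, map_smul, I_smul, map_add, map_add, hl z hz]
    simp
    ring
  · have : (her ((fun _ => I) * z) (ei k * z)).im = 0 := by
      fin_cases k <;> simp [her, ei, Fin.sum_univ_three] <;> ring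
    simp [aj_apply, this]

end Pool.Agent.MP_2fc7fa_gt.Tor
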