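import Pool.Agent.MP_2fc7fa_gt.Defs

namespace Pool.Agent.MP_2fc7fa_gt

/-- The diagonal unitary matrices; they act on `ℂP²` through the maximal torus `T²` of `PU(3)`. -/
def Torus : Set (Matrix (Fin 3) (Fin 3) ℂ) :=
  {M | ∃ g : Fin 3 → ℂ, (∀ j, ‖g j‖ = 1) ∧ M = Matrix.diagonal g}

end Pool.Agent.MP_2fc7fa_gt
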