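import Pool.Agent.MP_2fc7fa_gt.TLyap

namespace Pool.Agent.MP_2fc7fa_gt.Tor

open Set Complex Filter Topology
open scoped ContDiff

/-- The standard triangle. -/
def Tri : Set ℂ := {x | 0 ≤ x.re ∧ 0 ≤ x.im ∧ x.re + x.im ≤ 1}

theorem tri_closed : IsClosed Tri :=
  (isClosed_le continuous_const continuous_re).inter ((isClosed_le continuous_const
    continuous_im).inter (isClosed_le (continuous_re.add continuous_im) continuous_const))

theorem tri_norm {x : ℂ} (h : x ∈ Tri) : ‖x‖ ≤ 1 := by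
  have := norm_le_abs_re_add_abs_im x
  rw [abs_of_nonneg h.1, abs_of_nonneg h.2.1] at this
  linarith [h.2.2]

theorem tri_compact : IsCompact Tri :=
  (isCompact_closedBall (0 : ℂ) 1).of_isClosed_subset tri_closed fun _ h =>
    mem_closedBall_zero_iff.2 (tri_norm h)

instance : CompactSpace Tri := isCompact_iff_compactSpace.1 tri_compact

theorem tri_convex : Convex ℝ Tri := by
  intro x hx y hy a b ha hb hab
  obtain ⟨h1, h2, h3⟩ := hx
  obtain ⟨h4, h5, h6⟩ := hy
  refine ⟨?_, ?_, ?_⟩ <;> simp only [add_re, add_im, smul_re, smul_im, smul_eq_mul] <;> nlinarith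

/-- The open triangle. -/
def TriO : Set ℂ := {x | 0 < x.re ∧ 0 < x.im ∧ x.re + x.im < 1}

theorem triO_open : IsOpen TriO :=
  (isOpen_lt continuous_const continuous_re).inter ((isOpen_lt continuous_const
    continuous_im).inter (isOpen_lt (continuous_re.add continuous_im) continuous_const))

theorem triO_sub : TriO ⊆ Tri := fun _ h => ⟨h.1.le, h.2.1.le, h.2.2.le⟩

theorem tri_uniq : UniqueDiffOn ℝ Tri :=
  uniqueDiffOn_convex tri_convex ⟨⟨1 / 3, 1 / 3⟩, interior_maximal triO_sub triO_open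
    ⟨by norm_num, by norm_num, by norm_num⟩⟩

theorem zero_mem_tri : (0 : ℂ) ∈ Tri := by simp [Tri]
theorem one_mem_tri : (1 : ℂ) ∈ Tri := by simp [Tri]
theorem I_mem_tri : I ∈ Tri := by simp [Tri]

/-- The linear form with gradient `n`. -/
noncomputable def dot (n : ℂ) : ℂ →L[ℝ] ℝ := n.re • reCLM + n.im • imCLM

@[simp] theorem dot_apply (n v : ℂ) : dot n v = n.re * v.re + n.im * v.im := by simp [dot]

/-- `F` has the continuous gradient `N` on the triangle. -/
def HG (F : ℂ → ℝ) (N : C(Tri, ℂ)) : Prop := ∀ x : Tri, HasFDerivWithinAt F (dot (N x)) Tri x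

theorem HG.unique {F : ℂ → ℝ} {N N' : C(Tri, ℂ)} (h : HG F N) (h' : HG F N') : N = N' := by
  ext1 x
  have := (tri_uniq x x.2).eq (h x) (h' x)
  have a := congrArg (fun L => L 1) this
  have b := congrArg (fun L => L I) this
  simp at a b
  exact Complex.ext a b

theorem HG.cont {F : ℂ → ℝ} {N : C(Tri, ℂ)} (h : HG F N) : ContinuousOn F Tri :=
  fun x hx => (h ⟨x, hx⟩).continuousWithinAt

theorem HG.add {F F' : ℂ → ℝ} {N N' : C(Tri, ℂ)} (h : HG F N) (h' : HG F' N') :
    HG (fun x => F x + F' x) (N + N') := fun x =>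
  ((h x).fun_add (h' x)).congr_fderiv (by ext1 v; simp; ring)

theorem HG.smul {F : ℂ → ℝ} {N : C(Tri, ℂ)} (h : HG F N) (c : ℝ) :
    HG (fun x => c * F x) (c • N) := fun x =>
  ((h x).const_mul c).congr_fderiv (by ext1 v; simp; ring)

theorem HG.congr {F F' : ℂ → ℝ} {N : C(Tri, ℂ)} (h : HG F N) (e : ∀ x ∈ Tri, F' x = F x) :
    HG F' N := fun x => (h x).congr e (e x x.2)

theorem line_deriv {F : ℂ → ℝ} {D : ℂ →L[ℝ] ℝ} {x w : ℂ} {t : ℝ} {S : Set ℝ}
    (h : HasFDerivWithinAt F D Tri (x + t * w)) (hS : ∀ s ∈ S, x + s * w ∈ Tri) :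
    HasDerivWithinAt (fun s : ℝ => F (x + s * w)) (D w) S t := by
  have h1 : HasDerivAt (fun s : ℝ => x + (s : ℂ) * w) w t := by
    simpa using ((ofRealCLM.hasDerivAt (x := t)).mul_const w).const_add x
  exact h.comp_hasDerivWithinAt t h1.hasDerivWithinAt hS

theorem dir_nonneg {F : ℂ → ℝ} {D : ℂ →L[ℝ] ℝ} {x w : ℂ} {ε : ℝ} (hε : 0 < ε)
    (h : HasFDerivWithinAt F D Tri x)
    (hS : ∀ s ∈ Icc 0 ε, x + s * w ∈ Tri ∧ F x ≤ F (x + s * w)) : 0 ≤ D w := by
  have h1 := line_deriv (x := x) (w := w) (t := 0) (S := Ioc 0 ε) (by simpa using h)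
    fun s hs => (hS s ⟨hs.1.le, hs.2⟩).1
  rw [hasDerivWithinAt_iff_tendsto_slope' (by simp)] at h1
  have : (𝓝[Ioc 0 ε] (0 : ℝ)).NeBot := by
    rw [nhdsWithin_Ioc_eq_nhdsGT hε]; infer_instance
  refine ge_of_tendsto h1 ?_
  filter_upwards [self_mem_nhdsWithin] with s hs
  have := (hS s ⟨hs.1.le, hs.2⟩).2
  rw [slope_def_field]
  simp only [ofReal_zero, zero_mul, add_zero, sub_zero]
  exact div_nonneg (by linarith) hs.1.le

theorem dir_zero {F : ℂ → ℝ} {D : ℂ →L[ℝ] ℝ} {x w : ℂ} {ε : ℝ} (hε : 0 < ε)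
    (h : HasFDerivWithinAt F D Tri x)
    (hS : ∀ s ∈ Icc 0 ε, x + s * w ∈ Tri ∧ F (x + s * w) = F x) : D w = 0 := by
  have a := dir_nonneg hε h fun s hs => ⟨(hS s hs).1, (hS s hs).2.ge⟩
  have b := dir_nonneg hε h.neg fun s hs => ⟨(hS s hs).1, by simp [(hS s hs).2]⟩
  simp at b
  linarith

theorem edgeA {F : ℂ → ℝ} {N : C(Tri, ℂ)} (h : HG F N) {c : ℝ}
    (hc : ∀ x ∈ Tri, x.im = 0 → F x = c) (x : Tri) (hx : x.1.im = 0) : (N x).re = 0 := by
  obtain ⟨h1, h2, h3⟩ := x.2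
  rcases le_total x.1.re (1 / 2) with k | k
  · have := dir_zero (w := 1) (ε := 1 / 2) (by norm_num) (h x) fun s hs => by
      have m : x.1 + s * 1 ∈ Tri := by
        refine ⟨?_, ?_, ?_⟩ <;> simp <;> linarith [hs.1, hs.2]
      exact ⟨m, by rw [hc _ m (by simp [hx]), hc _ x.2 hx]⟩
    simpa using this
  · have := dir_zero (w := -1) (ε := 1 / 2) (by norm_num) (h x) fun s hs => by
      have m : x.1 + s * (-1) ∈ Tri := by
        refine ⟨?_, ?_, ?_⟩ <;> simp <;> linarith [hs.1, hs.2]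
      exact ⟨m, by rw [hc _ m (by simp [hx]), hc _ x.2 hx]⟩
    simpa using this

theorem edgeB {F : ℂ → ℝ} {N : C(Tri, ℂ)} (h : HG F N) {c : ℝ}
    (hc : ∀ x ∈ Tri, x.re = 0 → F x = c) (x : Tri) (hx : x.1.re = 0) : (N x).im = 0 := by
  obtain ⟨h1, h2, h3⟩ := x.2
  rcases le_total x.1.im (1 / 2) with k | k
  · have := dir_zero (w := I) (ε := 1 / 2) (by norm_num) (h x) fun s hs => by
      have m : x.1 + s * I ∈ Tri := by
        refine ⟨?_, ?_, ?_⟩ <;> simp <;> linarith [hs.1, hs.2]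
      exact ⟨m, by rw [hc _ m (by simp [hx]), hc _ x.2 hx]⟩
    simpa using this
  · have := dir_zero (w := -I) (ε := 1 / 2) (by norm_num) (h x) fun s hs => by
      have m : x.1 + s * (-I) ∈ Tri := by
        refine ⟨?_, ?_, ?_⟩ <;> simp <;> linarith [hs.1, hs.2]
      exact ⟨m, by rw [hc _ m (by simp [hx]), hc _ x.2 hx]⟩
    simpa using this

theorem edgeH {F : ℂ → ℝ} {N : C(Tri, ℂ)} (h : HG F N) {c : ℝ}
    (hc : ∀ x ∈ Tri, x.re + x.im = 1 → F x = c) (x : Tri) (hx : x.1.re + x.1.im = 1) :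
    (N x).re = (N x).im := by
  obtain ⟨h1, h2, h3⟩ := x.2
  rcases le_total x.1.re (1 / 2) with k | k
  · have := dir_zero (w := 1 - I) (ε := 1 / 2) (by norm_num) (h x) fun s hs => by
      have m : x.1 + s * (1 - I) ∈ Tri := by
        refine ⟨?_, ?_, ?_⟩ <;> simp <;> linarith [hs.1, hs.2]
      exact ⟨m, by rw [hc _ m (by simp; linarith), hc _ x.2 hx]⟩
    simp at this; linarith
  · have := dir_zero (w := I - 1) (ε := 1 / 2) (by norm_num) (h x) fun s hs => by
      have m : x.1 + s * (I - 1) ∈ Tri := by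
        refine ⟨?_, ?_, ?_⟩ <;> simp <;> linarith [hs.1, hs.2]
      exact ⟨m, by rw [hc _ m (by simp; linarith), hc _ x.2 hx]⟩
    simp at this; linarith

theorem pos_of_conn {X : Type*} [TopologicalSpace X] {S : Set X} (hS : IsPreconnected S)
    {f : X → ℝ} (hf : Continuous f) (h0 : ∀ x ∈ S, f x ≠ 0) {a : X} (ha : a ∈ S) (hfa : 0 < f a) :
    ∀ x ∈ S, 0 < f x := fun x hx => by
  by_contra h
  obtain ⟨y, hy, hy0⟩ := hS.intermediate_value hx ha hf.continuousOn
    (show (0 : ℝ) ∈ Icc (f x) (f a) from ⟨not_lt.1 h, hfa.le⟩)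
  exact h0 y hy hy0

theorem conn_of_convex {S : Set ℂ} (hS : Convex ℝ S) :
    IsPreconnected {x : Tri | x.1 ∈ S} := by
  rw [← IsInducing.subtypeVal.isPreconnected_image]
  have : Subtype.val '' {x : Tri | x.1 ∈ S} = Tri ∩ S := by
    ext x; simp [and_comm]
  rw [this]
  exact (tri_convex.inter hS).isPreconnected

theorem connA : IsPreconnected {x : Tri | x.1.im = 0} :=
  conn_of_convex (S := {x | x.im = 0}) fun x hx y hy a b _ _ _ => by
    have hx : x.im = 0 := hx
    have hy : y.im = 0 := hy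
    show (a • x + b • y).im = 0
    simp [hx, hy]

theorem connB : IsPreconnected {x : Tri | x.1.re = 0} :=
  conn_of_convex (S := {x | x.re = 0}) fun x hx y hy a b _ _ _ => by
    have hx : x.re = 0 := hx
    have hy : y.re = 0 := hy
    show (a • x + b • y).re = 0
    simp [hx, hy]

theorem connH : IsPreconnected {x : Tri | x.1.re + x.1.im = 1} :=
  conn_of_convex (S := {x | x.re + x.im = 1}) fun x hx y hy a b _ _ hab => by
    have hx : x.re + x.im = 1 := hx
    have hy : y.re + y.im = 1 := hy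
    show (a • x + b • y).re + (a • x + b • y).im = 1
    simp only [add_re, add_im, smul_re, smul_im, smul_eq_mul]
    linear_combination a * hx + b * hy + hab

theorem connT : IsPreconnected (univ : Set Tri) := by
  simpa using conn_of_convex (S := univ) convex_univ

/-- The determinant of two plane vectors. -/
def det (a b : ℂ) : ℝ := a.re * b.im - a.im * b.re

/-- Gradient fields of admissible height functions. -/
def Hc (N : C(Tri, ℂ)) : Prop :=
  ∀ x : Tri, N x ≠ 0 ∧ (x.1.im = 0 ∨ x.1.re + x.1.im = 1 → 0 < (N x).re) ∧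
    (x.1.re = 0 ∨ x.1.re + x.1.im = 1 → 0 < (N x).im)

theorem mvt_edge {F : ℂ → ℝ} {N : C(Tri, ℂ)} (h : HG F N) {w : ℂ}
    (hw : ∀ s ∈ Icc (0 : ℝ) 1, (s : ℂ) * w ∈ Tri) (hF : F 0 < F w) :
    ∃ s, ∃ hs : s ∈ Icc (0 : ℝ) 1, 0 < dot (N ⟨s * w, hw s hs⟩) w := by
  classical
  have hd : ∀ s (hs : s ∈ Icc (0 : ℝ) 1), HasDerivWithinAt (fun s : ℝ => F (0 + s * w))
      (dot (N ⟨s * w, hw s hs⟩) w) (Icc 0 1) s := fun s hs =>
    line_deriv (by simpa using h ⟨s * w, hw s hs⟩) (by simpa using hw)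
  obtain ⟨c, hc, hc'⟩ := exists_hasDerivAt_eq_slope (fun s : ℝ => F (0 + s * w))
    (fun s => if hs : s ∈ Icc (0 : ℝ) 1 then dot (N ⟨s * w, hw s hs⟩) w else 0) one_pos
    (fun s hs => (hd s hs).continuousWithinAt) fun s hs => by
      rw [dif_pos (Ioo_subset_Icc_self hs)]
      exact (hd s (Ioo_subset_Icc_self hs)).hasDerivAt (Icc_mem_nhds hs.1 hs.2)
  rw [dif_pos (Ioo_subset_Icc_self hc)] at hc'
  refine ⟨c, Ioo_subset_Icc_self hc, ?_⟩
  rw [hc']
  simpa using hF

/-- Boundary conditions of a moment map of total mass `l`. -/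
def Bd (l : ℝ) (F₁ F₂ : ℂ → ℝ) : Prop :=
  ∀ x ∈ Tri, (x.re = 0 → F₁ x = 0) ∧ (x.im = 0 → F₂ x = 0) ∧ (x.re + x.im = 1 → F₁ x + F₂ x = l)

theorem signs {l : ℝ} (hl : 0 < l) {F₁ F₂ : ℂ → ℝ} {P Q : C(Tri, ℂ)} (h₁ : HG F₁ P)
    (h₂ : HG F₂ Q) (hb : Bd l F₁ F₂) (hd : ∀ x, det (P x) (Q x) ≠ 0) :
    (∀ x, 0 < det (P x) (Q x)) ∧ Hc (P + Q) := by
  have eA := edgeA h₂ fun x hx => (hb x hx).2.1
  have eB := edgeB h₁ fun x hx => (hb x hx).1
  have eH := edgeH (h₁.add h₂) fun x hx => (hb x hx).2.2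
  have pA : ∀ x : Tri, x.1.im = 0 → 0 < (P x).re := by
    obtain ⟨s, hs, h⟩ := mvt_edge h₁ (w := 1)
      (fun s hs => ⟨by simpa using hs.1, by simp, by simpa using hs.2⟩) (by
        have a := (hb 0 zero_mem_tri).1 rfl
        have b := (hb 1 one_mem_tri).2.1 rfl
        have c := (hb 1 one_mem_tri).2.2 (by simp)
        linarith)
    refine pos_of_conn connA (f := fun x => (P x).re) (by fun_prop) (fun x hx h0 => hd x ?_)
      (a := ⟨s * 1, by simpa using hs.1, by simp, by simpa using hs.2⟩) (by simp) (by simpa using h)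
    simp [det, h0, eA x hx]
  have pB : ∀ x : Tri, x.1.re = 0 → 0 < (Q x).im := by
    obtain ⟨s, hs, h⟩ := mvt_edge h₂ (w := I)
      (fun s hs => ⟨by simp, by simpa using hs.1, by simpa using hs.2⟩) (by
        have a := (hb 0 zero_mem_tri).2.1 rfl
        have b := (hb I I_mem_tri).1 rfl
        have c := (hb I I_mem_tri).2.2 (by simp)
        linarith)
    refine pos_of_conn connB (f := fun x => (Q x).im) (by fun_prop) (fun x hx h0 => hd x ?_)
      (a := ⟨s * I, by simp, by simpa using hs.1, by simpa using hs.2⟩) (by simp) (by simpa using h)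
    simp [det, h0, eB x hx]
  have pT : ∀ x, 0 < det (P x) (Q x) := fun x =>
    pos_of_conn connT (f := fun x => det (P x) (Q x)) (by unfold det; fun_prop)
      (fun x _ => hd x) (a := ⟨0, zero_mem_tri⟩) trivial (by
        have := mul_pos (pA ⟨0, zero_mem_tri⟩ rfl) (pB ⟨0, zero_mem_tri⟩ rfl)
        simpa [det, eB ⟨0, zero_mem_tri⟩ rfl] using this) x trivial
  have ne : ∀ x, (P + Q) x ≠ 0 := fun x h => hd x (by
    have : Q x = -P x := by simpa [add_eq_zero_iff_eq_neg'] using h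
    simp [det, this]; ring)
  have qA : ∀ x : Tri, x.1.im = 0 → 0 < ((P + Q) x).re := fun x hx => by
    simpa [eA x hx] using pA x hx
  have pH : ∀ x : Tri, x.1.re + x.1.im = 1 → 0 < ((P + Q) x).re :=
    pos_of_conn connH (f := fun x => ((P + Q) x).re) (by fun_prop)
      (fun x hx h0 => ne x (Complex.ext h0 (by rw [← eH x hx]; exact h0)))
      (a := ⟨1, one_mem_tri⟩) (by simp) (qA _ rfl)
  refine ⟨pT, fun x => ⟨ne x, fun h => h.elim (qA x) (pH x), fun h => h.elim (fun hx => ?_)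
    fun hx => by rw [← eH x hx]; exact pH x hx⟩⟩
  simpa [eB x hx] using pB x hx

theorem min_at_zero {F : ℂ → ℝ} {N : C(Tri, ℂ)} (h : HG F N) (hc : Hc N) {x : ℂ} (hx : x ∈ Tri)
    (h0 : x ≠ 0) : F 0 < F x := by
  have key : ∀ y ∈ Tri, IsMinOn F Tri y → y = 0 := fun y hy hmin => by
    obtain ⟨k0, kA, kB⟩ := hc ⟨y, hy⟩
    obtain ⟨h1, h2, h3⟩ := id hy
    have left : 0 < y.re → (N ⟨y, hy⟩).re ≤ 0 := fun hp => by
      have := dir_nonneg (w := -1) hp (h ⟨y, hy⟩) fun s hs => by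
        have m : y + s * (-1) ∈ Tri := by
          refine ⟨?_, ?_, ?_⟩ <;> simp <;> linarith [hs.1, hs.2]
        exact ⟨m, hmin m⟩
      simpa using this
    have down : 0 < y.im → (N ⟨y, hy⟩).im ≤ 0 := fun hp => by
      have := dir_nonneg (w := -I) hp (h ⟨y, hy⟩) fun s hs => by
        have m : y + s * (-I) ∈ Tri := by
          refine ⟨?_, ?_, ?_⟩ <;> simp <;> linarith [hs.1, hs.2]
        exact ⟨m, hmin m⟩
      simpa using this
    have up : y.re + y.im < 1 → 0 ≤ (N ⟨y, hy⟩).re ∧ 0 ≤ (N ⟨y, hy⟩).im := fun hp => by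
      have a := dir_nonneg (w := 1) (sub_pos.2 hp) (h ⟨y, hy⟩) fun s hs => by
        have m : y + s * 1 ∈ Tri := by
          refine ⟨?_, ?_, ?_⟩ <;> simp <;> linarith [hs.1, hs.2]
        exact ⟨m, hmin m⟩
      have b := dir_nonneg (w := I) (sub_pos.2 hp) (h ⟨y, hy⟩) fun s hs => by
        have m : y + s * I ∈ Tri := by
          refine ⟨?_, ?_, ?_⟩ <;> simp <;> linarith [hs.1, hs.2]
        exact ⟨m, hmin m⟩
      exact ⟨by simpa using a, by simpa using b⟩
    rcases h1.eq_or_lt with a | a <;> rcases h2.eq_or_lt with b | b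
    · exact Complex.ext a.symm b.symm
    · linarith [down b, kB (Or.inl a.symm)]
    · linarith [left a, kA (Or.inl b.symm)]
    · rcases h3.eq_or_lt with c | c
      · linarith [left a, kA (Or.inr c)]
      · exact absurd (Complex.ext (le_antisymm (left a) (up c).1) (le_antisymm (down b) (up c).2))
          k0
  obtain ⟨y, hy, hmin⟩ := tri_compact.exists_isMinOn ⟨0, zero_mem_tri⟩ h.cont
  obtain rfl := key y hy hmin
  by_contra hlt
  exact h0 (key x hx fun z hz => (not_lt.1 hlt).trans (hmin hz))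

theorem large_M {X : Type*} [TopologicalSpace X] {K : Set X} (hK : IsCompact K) {a b : X → ℝ}
    (ha : Continuous a) (hb : Continuous b) (h0 : ∀ p ∈ K, 0 ≤ b p)
    (h : ∀ p ∈ K, b p = 0 → 0 < a p) : ∃ M ≥ 0, ∀ p ∈ K, 0 < a p + M * b p := by
  obtain ⟨t, ht⟩ := hK.elim_directed_cover (fun n : ℕ => {p | 0 < a p + n * b p ∨ b p < 0})
    (fun n => (isOpen_lt (g := fun p => a p + n * b p) continuous_const (by fun_prop)).union
      (isOpen_lt (g := fun _ => (0 : ℝ)) hb continuous_const))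
    (fun p hp => by
      rcases (h0 p hp).eq_or_lt with e | e
      · exact mem_iUnion.2 ⟨0, Or.inl (by simpa using h p hp e.symm)⟩
      · obtain ⟨n, hn⟩ := exists_nat_gt (-a p / b p)
        rw [div_lt_iff₀ e] at hn
        exact mem_iUnion.2 ⟨n, Or.inl (by linarith)⟩)
    (directed_of_isDirected_le fun m n hmn p hp => by
      have : (m : ℝ) ≤ n := by exact_mod_cast hmn
      rcases lt_or_ge (b p) 0 with e | e
      · exact Or.inr e
      · exact Or.inl (by nlinarith [hp.resolve_right (not_lt.2 e)]))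
  exact ⟨t, t.cast_nonneg, fun p hp => (ht hp).resolve_right (not_lt.2 (h0 p hp))⟩

end Pool.Agent.MP_2fc7fa_gt.Tor
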