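import Pool.Agent.MP_2fc7fa_gt.Ext
import Pool.Agent.MP_2fc7fa_gt.TPlane

/-! Torus-invariant connection forms, their differentials and moment maps. -/

namespace Pool.Agent.MP_2fc7fa_gt.Tor

open Set Complex Filter Topology
open scoped ContDiff ComplexConjugate

/-- One-forms as families of linear maps. -/
abbrev L1 : Type := V → V →L[ℝ] ℝ

/-- The one-form of a family of linear maps. -/
noncomputable def mk1 (b : L1) : Form 1 := fun z =>
  ContinuousAlternatingMap.ofSubsingletonLIE (𝕜 := ℝ) (E := V) (F := ℝ) (0 : Fin 1) (b z)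

theorem linL_mk1 (b : L1) (z : V) : linL (mk1 b z) = b z := by simp [linL, mk1]

theorem smooth_mk1 {b : L1} (h : ContDiffOn ℝ ∞ b {0}ᶜ) : ContDiffOn ℝ ∞ (mk1 b) {0}ᶜ :=
  (ContinuousAlternatingMap.ofSubsingletonLIE (𝕜 := ℝ) (E := V) (F := ℝ)
    (0 : Fin 1)).contDiff.comp_contDiffOn h

theorem bil_dd (b : L1) {z : V} (hz : z ≠ 0) (u v : V) :
    bilL (dd (mk1 b) z) u v = fderiv ℝ b z u v - fderiv ℝ b z v u := by
  have : fderiv ℝ (mk1 b) z = _ := (ContinuousAlternatingMap.ofSubsingletonLIE (𝕜 := ℝ) (E := V)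
    (F := ℝ) (0 : Fin 1)).comp_fderiv (f := b) (x := z)
  rw [dd_of_ne _ hz, bilL_extDeriv, this]
  simp [linL]

theorem smooth_dd {β : Form 1} (h : ContDiffOn ℝ ∞ β {0}ᶜ) : ContDiffOn ℝ ∞ (dd β) {0}ᶜ :=
  (sm_dd (sm_of_contDiffOn (P := Unit) isOpen_compl_singleton.uniqueDiffOn h)).contDiffOn
    isOpen_compl_singleton.uniqueDiffOn ()

theorem dAt {E : Type} [NormedAddCommGroup E] [NormedSpace ℝ E] {b : V → E}
    (h : ContDiffOn ℝ ∞ b {0}ᶜ) {z : V} (hz : z ≠ 0) : DifferentiableAt ℝ b z :=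
  (h.contDiffAt (isOpen_compl_singleton.mem_nhds hz)).differentiableAt (by simp)

theorem line (z u : V) : HasDerivAt (fun t : ℝ => z + t • u) u 0 := by
  simpa using ((hasDerivAt_id' (0 : ℝ)).smul_const u).const_add z

theorem line_ne {z : V} (hz : z ≠ 0) (u : V) : ∀ᶠ t : ℝ in 𝓝 0, z + t • u ≠ 0 :=
  (line z u).continuousAt.eventually_ne (by simpa using hz)

theorem dmul (a : V) {z : ℝ → V} {z' : V} {t : ℝ} (h : HasDerivAt z z' t) :
    HasDerivAt (fun t => a * z t) (a * z') t := h.const_mul a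

theorem dlin {b : L1} {z u : ℝ → V} {z' u' : V} {t : ℝ} (h : DifferentiableAt ℝ b (z t))
    (hz : HasDerivAt z z' t) (hu : HasDerivAt u u' t) :
    HasDerivAt (fun t => b (z t) (u t)) (fderiv ℝ b (z t) z' (u t) + b (z t) u') t :=
  (h.hasFDerivAt.comp_hasDerivAt t hz).clm_apply hu

/-- The torus together with the scalars. -/
def TG (g : V) : Prop := g 0 ≠ 0 ∧ ∀ j, ‖g j‖ = ‖g 0‖

/-- Its Lie algebra. -/
def LA (a : V) : Prop := ∀ j, (a j).re = (a 0).re

theorem TG.ne {g z : V} (h : TG g) (hz : z ≠ 0) : g * z ≠ 0 := fun e => hz (funext fun j =>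
  (mul_eq_zero.1 (congrFun e j)).resolve_left fun k => h.1 (by simpa [k] using (h.2 j).symm))

theorem LA.curve {a : V} (h : LA a) : ∃ g : ℝ → V, (∀ t, TG (g t)) ∧ g 0 = 1 ∧
    ∀ z, HasDerivAt (fun t => g t * z) (a * z) 0 :=
  ⟨fun t j => exp (t * a j), fun t => ⟨exp_ne_zero _, fun j => by simp [norm_exp, h j]⟩,
    by ext; simp, fun z => hasDerivAt_pi.2 fun j => by
      simpa using ((ofRealCLM.hasDerivAt (x := 0)).mul_const (a j)).cexp.mul_const (z j)⟩

/-- Invariant one-forms. -/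
structure Pre (b : L1) : Prop where
  smooth : ContDiffOn ℝ ∞ b {0}ᶜ
  inv : ∀ g, TG g → ∀ z ≠ 0, ∀ v, b (g * z) (g * v) = b z v

/-- Invariant connection forms. -/
structure Conn (l : ℝ) (b : L1) : Prop extends Pre b where
  horiz : ∀ z ≠ 0, ∀ c : ℂ, b z (c • z) = l * c.im

theorem fderiv_inv {b : L1} (h : ContDiffOn ℝ ∞ b {0}ᶜ) {g : V} (hg : TG g)
    (hi : ∀ z ≠ 0, ∀ v, b (g * z) (g * v) = b z v) {z : V} (hz : z ≠ 0) (u v : V) :
    fderiv ℝ b (g * z) (g * u) (g * v) = fderiv ℝ b z u v := by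
  have h1 := dlin (b := b) (by simpa using dAt h (hg.ne hz)) (dmul g (line z u))
    (hasDerivAt_const 0 (g * v))
  have h2 := dlin (b := b) (by simpa using dAt h hz) (line z u) (hasDerivAt_const 0 v)
  simpa using h1.unique (h2.congr_of_eventuallyEq ((line_ne hz u).mono fun t ht => hi _ ht v))

theorem Pre.inf {b : L1} (h : Pre b) {a : V} (ha : LA a) {z : V} (hz : z ≠ 0) (u : V) :
    fderiv ℝ b z (a * z) u + b z (a * u) = 0 := by
  obtain ⟨g, h1, h2, h3⟩ := ha.curve
  have h4 := dlin (b := b) (by simpa [h2] using dAt h.smooth hz) (h3 z) (h3 u)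
  simp only [h.inv _ (h1 _) z hz, h2, one_mul] at h4
  exact h4.unique (hasDerivAt_const _ _)

theorem Pre.moment {b : L1} (h : Pre b) {a : V} (ha : LA a) {z : V} (hz : z ≠ 0) :
    HasFDerivAt (fun z => b z (a * z)) ((bilL (dd (mk1 b) z)).flip (a * z)) z := by
  refine ((dAt h.smooth hz).hasFDerivAt.clm_apply ((hasFDerivAt_id z).const_mul a)).congr_fderiv ?_
  ext v
  have := h.inf ha hz v
  simp [bil_dd b hz]
  linarith

theorem Pre.mom_inv {b : L1} (h : Pre b) (a : V) {g z : V} (hg : TG g) (hz : z ≠ 0) :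
    b (g * z) (a * (g * z)) = b z (a * z) := by rw [mul_left_comm, h.inv g hg z hz]

/-- Invariant horizontal two-forms with isotropic orbits. -/
structure G2 (σ : Form 2) : Prop where
  smooth : ContDiffOn ℝ ∞ σ {0}ᶜ
  inv : ∀ g, TG g → ∀ z ≠ 0, ∀ u v, bilL (σ (g * z)) (g * u) (g * v) = bilL (σ z) u v
  horiz : ∀ z ≠ 0, ∀ (c : ℂ) u, bilL (σ z) u (c • z) = 0
  lag : ∀ a a', LA a → LA a' → ∀ z ≠ 0, bilL (σ z) (a * z) (a' * z) = 0

theorem Conn.g2 {l : ℝ} {b : L1} (h : Conn l b) : G2 (dd (mk1 b)) := by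
  refine ⟨smooth_dd (smooth_mk1 h.smooth), fun g hg z hz u v => ?_, fun z hz c u => ?_,
    fun a a' ha ha' z hz => ?_⟩
  · rw [bil_dd b hz, bil_dd b (hg.ne hz), fderiv_inv h.smooth hg (h.inv g hg) hz,
      fderiv_inv h.smooth hg (h.inv g hg) hz]
  · have := (h.moment (a := fun _ => c) (fun _ => rfl) hz).unique
      ((hasFDerivAt_const (l * c.im) z).congr_of_eventuallyEq
      (mem_of_superset (isOpen_compl_singleton.mem_nhds hz) fun y hy => h.horiz y hy c))
    exact congrArg (fun L => L u) this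
  · have h1 := h.inf ha hz (a' * z)
    have h2 := h.inf ha' hz (a * z)
    rw [mul_left_comm] at h1
    rw [bil_dd b hz]
    linarith

/-- Real coordinate vectors. -/
noncomputable def er (k : Fin 3) : V := Pi.single k 1

/-- Imaginary coordinate vectors, and generators of the torus. -/
noncomputable def ei (k : Fin 3) : V := Pi.single k I

theorem la_ei (k : Fin 3) : LA (ei k) := fun j => by
  simp [ei, Pi.single_apply, apply_ite Complex.re]

theorem ei_mul (k : Fin 3) {z : V} (h : (z k).im = 0) : ei k * z = (z k).re • ei k := by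
  ext j
  rcases eq_or_ne j k with rfl | e
  · apply Complex.ext <;> simp [ei, h]
  · simp [ei, e]

theorem ei_ei (k : Fin 3) : ei k * ei k = -er k := by
  ext j
  rcases eq_or_ne j k with rfl | e
  · simp [ei, er]
  · simp [ei, er, e]

/-- Twice the derivative of a moment map with respect to `|z k|²`. -/
noncomputable def gg (σ : Form 2) (a : V) (k : Fin 3) (z : V) : ℝ :=
  bilL (fderiv ℝ σ z (ei k)) (ei k) (a * z) + bilL (σ z) (ei k) (a * ei k)

theorem G2.rad {σ : Form 2} (h : G2 σ) {a : V} (ha : LA a) {z : V} (hz : z ≠ 0) {k : Fin 3}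
    (hk : (z k).im = 0) : bilL (σ z) (er k) (a * z) = (z k).re * gg σ a k z := by
  have h1 := (hasDerivAt_bil (σ := σ) (by simpa using dAt h.smooth hz) (line z (ei k))
    (dmul (ei k) (line z (ei k))) (dmul a (line z (ei k)))).unique
    ((hasDerivAt_const 0 0).congr_of_eventuallyEq ((line_ne hz _).mono fun t ht =>
      h.lag _ _ (la_ei k) ha _ ht))
  simp [ei_mul k hk, ei_ei] at h1
  rw [gg]
  linarith

/-- Barycentric coordinates. -/
def xs (x : ℂ) : Fin 3 → ℝ := ![1 - x.re - x.im, x.re, x.im]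

/-- The real slice. -/
noncomputable def sc (x : ℂ) : V := fun j => √(xs x j)

theorem xs_nonneg {x : ℂ} (h : x ∈ Tri) (j : Fin 3) : 0 ≤ xs x j := by
  fin_cases j <;> simp [xs] <;> linarith [h.1, h.2.1, h.2.2]

theorem xs_pos {x : ℂ} (h : x ∈ TriO) (j : Fin 3) : 0 < xs x j := by
  fin_cases j <;> simp [xs] <;> linarith [h.1, h.2.1, h.2.2]

theorem nn_sc {x : ℂ} (h : x ∈ Tri) : nn (sc x) = 1 := by
  simp [nn, sc, Real.sq_sqrt (xs_nonneg h _), Fin.sum_univ_three]
  simp [xs]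
  ring

theorem sc_ne {x : ℂ} (h : x ∈ Tri) : sc x ≠ 0 := fun e => by simpa [e, nn] using nn_sc h

theorem cont_sc : Continuous sc := continuous_pi fun j => by
  fin_cases j <;> simp [sc, xs] <;> fun_prop

theorem tri_closure : closure TriO = Tri := by
  refine (closure_minimal triO_sub tri_closed).antisymm fun x hx => ?_
  have : Tendsto (fun t : ℝ => x + t * (⟨1 / 3, 1 / 3⟩ - x)) (𝓝[>] 0) (𝓝 x) :=
    tendsto_nhdsWithin_of_tendsto_nhds (Continuous.tendsto' (by fun_prop) _ _ (by simp))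
  refine mem_closure_of_tendsto this (mem_of_superset (Ioo_mem_nhdsGT one_pos) fun t ht => ?_)
  obtain ⟨h1, h2, h3⟩ := hx
  refine ⟨?_, ?_, ?_⟩ <;> simp <;> nlinarith [ht.1, ht.2]

theorem triO_convex : Convex ℝ TriO := fun x hx y hy a b ha hb hab => by
  have k := fun {u v : ℝ} (hu : 0 < u) (hv : 0 < v) => convex_Ioi (0 : ℝ) hu hv ha hb hab
  have := k (sub_pos.2 hx.2.2) (sub_pos.2 hy.2.2)
  refine ⟨by simpa using k hx.1 hy.1, by simpa using k hx.2.1 hy.2.1, ?_⟩
  simp at this ⊢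
  nlinarith

/-- The gradient of a moment map on the triangle. -/
noncomputable def grad (σ : Form 2) (a : V) (x : ℂ) : ℂ :=
  ⟨(gg σ a 1 (sc x) - gg σ a 0 (sc x)) / 2, (gg σ a 2 (sc x) - gg σ a 0 (sc x)) / 2⟩

theorem Conn.hg {l : ℝ} {b : L1} (h : Conn l b) {a : V} (ha : LA a) {N : C(Tri, ℂ)}
    (hN : ∀ x, N x = grad (dd (mk1 b)) a x) : HG (fun x => b (sc x) (a * sc x)) N := by
  have d : ∀ x ∈ TriO, HasFDerivAt (fun x => b (sc x) (a * sc x))
      (dot (grad (dd (mk1 b)) a x)) x := fun x hx => by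
    have h1 : ∀ j, HasFDerivAt (fun x => xs x j) (![-reCLM - imCLM, reCLM, imCLM] j) x := fun j => by
      fin_cases j
      exacts [(reCLM.hasFDerivAt.const_sub 1).sub imCLM.hasFDerivAt, reCLM.hasFDerivAt,
        imCLM.hasFDerivAt]
    have h2 : sc = fun x => ∑ j, √(xs x j) • er j := by
      ext x j
      simp [sc, er, Pi.single_apply]
    have h3 := HasFDerivAt.fun_sum (u := Finset.univ) fun j _ =>
      ((h1 j).sqrt (xs_pos hx j).ne').smul_const (er j)
    rw [← h2] at h3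
    refine ((h.moment ha (sc_ne (triO_sub hx))).comp x h3).congr_fderiv ?_
    ext1 v
    have h4 : ∀ j, bilL (dd (mk1 b) (sc x)) (er j) (a * sc x) = √(xs x j) * _ := fun j =>
      h.g2.rad ha (sc_ne (triO_sub hx)) (k := j) rfl
    have h5 := fun j => (Real.sqrt_pos.2 (xs_pos hx j)).ne'
    simp [Fin.sum_univ_three, h4, grad]
    field_simp [h5]
    ring
  intro x
  have c : ContinuousOn (fun x => dot (grad (dd (mk1 b)) a x)) Tri :=
    (show Continuous dot by unfold dot; fun_prop).comp_continuousOn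
      (continuousOn_iff_continuous_domRestrict.2 (N.continuous.congr hN))
  refine (hasFDerivWithinAt_closure_of_tendsto_fderiv
    (fun y hy => (d y hy).differentiableAt.differentiableWithinAt) triO_convex triO_open
    (fun y hy => ?_) ?_).mono tri_closure.ge
  · rw [tri_closure] at hy
    exact ((h.moment ha (sc_ne hy)).continuousAt.comp cont_sc.continuousAt).continuousWithinAt
  · rw [hN]
    exact ((c x x.2).mono triO_sub).tendsto.congr'
      (mem_of_superset self_mem_nhdsWithin fun y hy => (d y hy).fderiv.symm)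

theorem Conn.bd {l : ℝ} {b : L1} (h : Conn l b) :
    Bd l (fun x => b (sc x) (ei 1 * sc x)) (fun x => b (sc x) (ei 2 * sc x)) := fun x hx => by
  refine ⟨fun e => ?_, fun e => ?_, fun e => ?_⟩
  · simp [ei_mul 1 (z := sc x) rfl, sc, xs, e]
  · simp [ei_mul 2 (z := sc x) rfl, sc, xs, e]
  · have : ei 1 * sc x + ei 2 * sc x = I • sc x := by
      ext j
      fin_cases j <;> simp [ei, sc, xs, sub_sub, e]
    simp only
    rw [← map_add, this, h.horiz _ (sc_ne hx)]
    simp

end Pool.Agent.MP_2fc7fa_gt.Tor
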