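import Mathlib

namespace Pool.Agent.MP_2fc7fa_gt.Tor

open Set Complex

/-- The unit vector of angle `-W y`. -/
noncomputable def ee (W : ℂ → ℝ) (y : ℂ) : ℂ := Complex.exp (-(W y : ℂ) * I)

/-- Curves that move forward with speed at least `c` in the direction of angle `W y` as long as
they stay `ρ`-close to `y`. -/
def Adm (W : ℂ → ℝ) (ρ c : ℝ) (γ : ℝ → ℂ) (T : ℝ) : Prop :=
  ∀ s t y, 0 ≤ s → s ≤ t → t ≤ T → (∀ r ∈ Icc s t, ‖γ r - y‖ ≤ ρ) →
    c * (t - s) ≤ ((γ t - γ s) * ee W y).re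

/-- Concatenation of curves. -/
noncomputable def cat (γ₁ γ₂ : ℝ → ℂ) (T : ℝ) (t : ℝ) : ℂ :=
  γ₁ (min t T) + γ₂ (max (t - T) 0) - γ₂ 0

theorem cat_left (γ₁ γ₂ : ℝ → ℂ) {T t : ℝ} (h : t ≤ T) : cat γ₁ γ₂ T t = γ₁ t := by
  simp [cat, min_eq_left h, max_eq_right (sub_nonpos.2 h)]

theorem cat_right {γ₁ γ₂ : ℝ → ℂ} {T t : ℝ} (he : γ₁ T = γ₂ 0) (h : T ≤ t) :
    cat γ₁ γ₂ T t = γ₂ (t - T) := by
  simp [cat, min_eq_right h, max_eq_left (sub_nonneg.2 h), he]

theorem cat_continuous {γ₁ γ₂ : ℝ → ℂ} (h₁ : Continuous γ₁) (h₂ : Continuous γ₂) (T : ℝ) :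
    Continuous (cat γ₁ γ₂ T) := by
  unfold cat; fun_prop

theorem Adm.cat {W : ℂ → ℝ} {ρ c : ℝ} {γ₁ γ₂ : ℝ → ℂ} {T₁ T₂ : ℝ} (h₁ : Adm W ρ c γ₁ T₁)
    (h₂ : Adm W ρ c γ₂ T₂) (he : γ₁ T₁ = γ₂ 0) :
    Adm W ρ c (cat γ₁ γ₂ T₁) (T₁ + T₂) := by
  intro s t y hs hst ht hr
  rcases le_total t T₁ with h | h
  · rw [cat_left _ _ h, cat_left _ _ (hst.trans h)]
    refine h₁ s t y hs hst h fun r hr' => ?_
    rw [← cat_left γ₁ γ₂ (hr'.2.trans h)]; exact hr r hr'
  rcases le_total T₁ s with h' | h'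
  · rw [cat_right he h, cat_right he h']
    have := h₂ (s - T₁) (t - T₁) y (by linarith) (by linarith) (by linarith) fun r hr' => by
      have := hr (r + T₁) ⟨by linarith [hr'.1], by linarith [hr'.2]⟩
      rwa [cat_right he (by linarith [hr'.1]), add_sub_cancel_right] at this
    convert this using 2; ring
  · rw [cat_right he h, cat_left _ _ h']
    have a := h₁ s T₁ y hs h' le_rfl fun r hr' => by
      rw [← cat_left γ₁ γ₂ hr'.2]; exact hr r ⟨hr'.1, hr'.2.trans h⟩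
    have b := h₂ 0 (t - T₁) y le_rfl (by linarith) (by linarith) fun r hr' => by
      have := hr (r + T₁) ⟨by linarith [hr'.1], by linarith [hr'.2]⟩
      rwa [cat_right he (by linarith [hr'.1]), add_sub_cancel_right] at this
    rw [he] at a
    have e : (γ₂ (t - T₁) - γ₁ s) * ee W y
        = (γ₂ (t - T₁) - γ₂ 0) * ee W y + (γ₂ 0 - γ₁ s) * ee W y := by ring
    rw [e, add_re]; linarith

theorem Adm.shift {W : ℂ → ℝ} {ρ c : ℝ} {γ : ℝ → ℂ} {T a l : ℝ} (h : Adm W ρ c γ T)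
    (ha : 0 ≤ a) (hl : a + l ≤ T) : Adm W ρ c (fun t => γ (a + t)) l := by
  intro s t y hs hst ht hr
  have := h (a + s) (a + t) y (by linarith) (by linarith) (by linarith) fun r hr' => by
    have := hr (r - a) ⟨by linarith [hr'.1], by linarith [hr'.2]⟩
    simpa using this
  convert this using 2; ring

theorem Adm.mono {W : ℂ → ℝ} {ρ ρ' c c' : ℝ} {γ : ℝ → ℂ} {T : ℝ} (h : Adm W ρ c γ T)
    (hρ : ρ' ≤ ρ) (hc : c' ≤ c) : Adm W ρ' c' γ T := by
  intro s t y hs hst ht hr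
  have := h s t y hs hst ht fun r hr' => (hr r hr').trans hρ
  nlinarith

theorem exists_delta {γ : ℝ → ℂ} (hγ : Continuous γ) (T : ℝ) {ρ : ℝ} (hρ : 0 < ρ) :
    ∃ δ > 0, ∀ s ∈ Icc 0 T, ∀ t ∈ Icc 0 T, |s - t| ≤ δ → ‖γ s - γ t‖ ≤ ρ := by
  have := (isCompact_Icc (a := (0 : ℝ)) (b := T)).uniformContinuousOn_of_continuous hγ.continuousOn
  obtain ⟨δ, hδ, h⟩ := Metric.uniformContinuousOn_iff_le.1 this ρ hρ
  exact ⟨δ, hδ, fun s hs t ht hst => by
    simpa [dist_eq_norm] using h s hs t ht (by simpa [Real.dist_eq] using hst)⟩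

theorem const_of_exp {f : ℝ → ℂ} (hf : Continuous f) (h : ∀ a b, exp (f a) = exp (f b))
    (a b : ℝ) : f a = f b :=
  isCoveringMap_exp.const_of_comp hf (fun a b => Subtype.ext (h a b)) a b

/-- Hopf parity argument for a simple loop run twice. -/
theorem hopf_simple {W : ℂ → ℝ} (hW : Continuous W) {ρ c l : ℝ} (hρ : 0 < ρ) (hc : 0 < c)
    (hl : 0 < l) {g : ℝ → ℂ} (hg : Continuous g) (ha : Adm W ρ c g (l + l))
    (hper : ∀ s ∈ Icc 0 l, g (l + s) = g s)
    (hinj : ∀ s ∈ Icc 0 l, ∀ d, 0 < d → d < l → g (s + d) ≠ g s) : False := by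
  obtain ⟨δ, hδ, hδ'⟩ := exists_delta hg (l + l) hρ
  set d₀ := min δ (l / 2) with hd₀
  have hd0 : 0 < d₀ := lt_min hδ (by linarith)
  have hd1 : d₀ ≤ l / 2 := min_le_right _ _
  have hd2 : d₀ ≤ δ := min_le_left _ _
  let cs : ℝ → ℝ := fun s => max 0 (min s l)
  let cd : ℝ → ℝ := fun d => max d₀ (min d (l / 2))
  have cs_mem : ∀ s, cs s ∈ Icc 0 l := fun s =>
    ⟨le_max_left _ _, max_le hl.le (min_le_right _ _)⟩
  have cs_eq : ∀ s ∈ Icc 0 l, cs s = s := fun s hs => by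
    simp [cs, min_eq_left hs.2, max_eq_right hs.1]
  have cd_mem : ∀ d, cd d ∈ Icc d₀ (l / 2) := fun d =>
    ⟨le_max_left _ _, max_le hd1 (min_le_right _ _)⟩
  have cd_eq : ∀ d ∈ Icc d₀ (l / 2), cd d = d := fun d hd => by
    simp [cd, min_eq_left hd.2, max_eq_right hd.1]
  let F : ℝ × ℝ → ℂ := fun p => g (cs p.1 + cd p.2) - g (cs p.1)
  have hF : Continuous F := by
    simp only [F, cs, cd]; fun_prop
  have hF0 : ∀ p, F p ≠ 0 := fun p => sub_ne_zero.2
    (hinj _ (cs_mem _) _ (hd0.trans_le (cd_mem _).1) (by linarith [(cd_mem p.2).2]))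
  obtain ⟨Θ, ⟨-, hΘ⟩, -⟩ := isCoveringMap_exp.existsUnique_continuousMap_lifts
    (⟨fun p => ⟨F p, hF0 p⟩, by fun_prop⟩ : C(ℝ × ℝ, {z : ℂ // z ≠ 0})) (0, 0)
    (Complex.log (F (0, 0))) (Subtype.ext (exp_log (hF0 _)))
  have hΘ' : ∀ p, exp (Θ p) = F p := fun p => congrArg Subtype.val (congrFun hΘ p)
  have hc0 := cs_eq 0 ⟨le_rfl, hl.le⟩
  have hcl := cs_eq l ⟨hl.le, le_rfl⟩
  have g0 : g l = g 0 := by simpa using hper 0 ⟨le_rfl, hl.le⟩
  have FF : ∀ d, F (l, d) = F (0, d) := fun d => by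
    simp only [F, hc0, hcl, zero_add, g0]
    rw [hper _ ⟨hd0.le.trans (cd_mem d).1, by linarith [(cd_mem d).2]⟩]
  -- the winding number is constant in `d`
  have n_const : Θ (l, d₀) - Θ (0, d₀) = Θ (l, l / 2) - Θ (0, l / 2) := by
    refine const_of_exp (f := fun d => Θ (l, d) - Θ (0, d)) (by fun_prop) (fun a b => ?_) _ _
    simp only [exp_sub, hΘ', FF, div_self (hF0 _)]
  -- it is odd at half period
  have odd : Θ (l, l / 2) - Θ (0, l / 2) ≠ 0 := by
    let ch : ℝ → ℝ := fun s => max 0 (min s (l / 2))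
    have ch_mem : ∀ s, ch s ∈ Icc 0 (l / 2) := fun s =>
      ⟨le_max_left _ _, max_le (by linarith) (min_le_right _ _)⟩
    have key : ∀ s, exp (Θ (ch s + l / 2, l / 2) - Θ (ch s, l / 2)) = -1 := fun s => by
      have h := ch_mem s
      rw [exp_sub, hΘ', hΘ', div_eq_iff (hF0 _)]
      simp only [F]
      rw [cs_eq _ ⟨by linarith [h.1], by linarith [h.2]⟩, cs_eq _ ⟨h.1, by linarith [h.2]⟩,
        cd_eq _ ⟨hd1, le_rfl⟩, show ch s + l / 2 + l / 2 = l + ch s by ring,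
        hper _ ⟨h.1, by linarith [h.2]⟩]
      ring
    have m := const_of_exp (f := fun s => Θ (ch s + l / 2, l / 2) - Θ (ch s, l / 2))
      (by simp only [ch]; fun_prop) (fun a b => by rw [key, key]) 0 (l / 2)
    have k0 := key 0
    have e0 : ch 0 = 0 := by simp [ch, min_eq_left (show (0 : ℝ) ≤ l / 2 by linarith)]
    have e1 : ch (l / 2) = l / 2 := by simp [ch, max_eq_right (show (0 : ℝ) ≤ l / 2 by linarith)]
    simp only [e0, e1, zero_add, add_halves] at m k0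
    intro h
    have : Θ (l / 2, l / 2) - Θ (0, l / 2) = 0 := by linear_combination (1 / 2) * h + (1 / 2) * m
    rw [this, exp_zero] at k0
    norm_num at k0
  -- it vanishes for short secants
  have pos : ∀ s, 0 < (F (s, d₀) * ee W (g (cs s))).re := fun s => by
    have h := cs_mem s
    have := ha (cs s) (cs s + d₀) (g (cs s)) h.1 (by linarith) (by linarith [h.2]) fun r hr =>
      hδ' r ⟨h.1.trans hr.1, by linarith [hr.2, h.2]⟩ _ ⟨h.1, by linarith [h.2]⟩
        (abs_le.2 ⟨by linarith [hr.1], by linarith [hr.2]⟩)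
    simp only [F, cd_eq _ ⟨le_rfl, hd1⟩]
    nlinarith
  have k := const_of_exp (f := fun s => Θ (s, d₀) + -(W (g (cs s)) : ℂ) * I
      - Complex.log (F (s, d₀) * ee W (g (cs s))))
    (by
      refine Continuous.sub (by simp only [cs]; fun_prop) ?_
      refine Continuous.clog (by simp only [ee, cs]; fun_prop) fun s => Or.inl (pos s))
    (fun a b => by
      have : ∀ s, exp (Θ (s, d₀) + -(W (g (cs s)) : ℂ) * I
          - Complex.log (F (s, d₀) * ee W (g (cs s)))) = 1 := fun s => by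
        have h0 : F (s, d₀) * ee W (g (cs s)) ≠ 0 := fun h => by simpa [h] using pos s
        rw [exp_sub, exp_add, hΘ', exp_log h0]; exact div_self h0
      rw [this, this]) l 0
  simp only [FF, hc0, hcl, g0] at k
  exact odd (by rw [← n_const]; linear_combination k)

/-- No closed admissible curve. -/
theorem no_loop {W : ℂ → ℝ} (hW : Continuous W) {ρ c T : ℝ} (hρ : 0 < ρ) (hc : 0 < c)
    (hT : 0 < T) {γ : ℝ → ℂ} (hγ : Continuous γ) (ha : Adm W ρ c γ T) (hcl : γ T = γ 0) :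
    False := by
  obtain ⟨δ, hδ, hδ'⟩ := exists_delta hγ T hρ
  have short : ∀ s t, 0 ≤ s → s < t → t ≤ T → t - s ≤ δ → γ t ≠ γ s := fun s t hs hst ht hd h => by
    have := ha s t (γ s) hs hst.le ht fun r hr =>
      hδ' r ⟨hs.trans hr.1, hr.2.trans ht⟩ _ ⟨hs, hst.le.trans ht⟩
        (abs_le.2 ⟨by linarith [hr.1], by linarith [hr.2]⟩)
    rw [h] at this
    simp at this
    nlinarith
  set δ' := min δ T
  have hδ0 : 0 < δ' := lt_min hδ hT
  let E : Set (ℝ × ℝ) := (Icc 0 T ×ˢ Icc 0 T) ∩ {p | p.1 + δ' ≤ p.2 ∧ γ p.2 = γ p.1}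
  have hE : IsCompact E := (isCompact_Icc.prod isCompact_Icc).inter_right
    ((isClosed_le (f := fun p : ℝ × ℝ => p.1 + δ') (g := fun p => p.2) (by fun_prop)
      (by fun_prop)).inter (isClosed_eq (f := fun p : ℝ × ℝ => γ p.2) (g := fun p => γ p.1)
      (by fun_prop) (by fun_prop)))
  have hne : E.Nonempty := ⟨(0, T), ⟨⟨le_rfl, hT.le⟩, ⟨hT.le, le_rfl⟩⟩,
    by rw [zero_add]; exact min_le_right δ T, hcl⟩
  obtain ⟨⟨a, b⟩, ⟨⟨ha1, hb1⟩, hab, hγab⟩, hmin⟩ :=
    hE.exists_isMinOn hne (f := fun p => p.2 - p.1) (by fun_prop)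
  simp only [mem_Icc] at ha1 hb1 hab hγab
  set l := b - a with hl
  have hl0 : 0 < l := by linarith
  let g₁ : ℝ → ℂ := fun t => γ (a + t)
  have hg₁ : Continuous g₁ := by fun_prop
  have hA : Adm W ρ c g₁ l := ha.shift ha1.1 (by linarith [hb1.2])
  have he : g₁ l = g₁ 0 := by simp [g₁, hl, hγab]
  have inj : ∀ s t, 0 ≤ s → s < t → t ≤ l → t - s < l → g₁ t ≠ g₁ s := fun s t hs hst ht hd h => by
    by_cases h' : t - s ≤ δ
    · exact short (a + s) (a + t) (by linarith) (by linarith) (by linarith [hb1.2])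
        (by linarith) h
    · have hm : (a + s, a + t) ∈ E := ⟨⟨⟨by linarith, by linarith [hb1.2]⟩,
        ⟨by linarith, by linarith [hb1.2]⟩⟩, by
          have := min_le_left δ T
          show a + s + δ' ≤ a + t
          linarith, h⟩
      have := hmin hm
      have : b - a ≤ a + t - (a + s) := this
      linarith
  refine hopf_simple hW hρ hc hl0 (cat_continuous hg₁ hg₁ l) (hA.cat hA he)
    (fun s hs => ?_) fun s hs d hd hdl => ?_
  · rw [cat_right he (by linarith [hs.1]), cat_left _ _ hs.2, add_sub_cancel_left]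
  · rw [cat_left _ _ hs.2]
    rcases le_total (s + d) l with h | h
    · rw [cat_left _ _ h]
      exact inj s (s + d) hs.1 (by linarith) h (by linarith)
    · rw [cat_right he h]
      exact (inj (s + d - l) s (by linarith) (by linarith) hs.2 (by linarith)).symm

end Pool.Agent.MP_2fc7fa_gt.Tor
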