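import Pool.Agent.MP_2fc7fa_gt.THopf

namespace Pool.Agent.MP_2fc7fa_gt.Tor

open Set Complex MeasureTheory Filter Topology
open scoped ContDiff

theorem norm_ee (W : ℂ → ℝ) (y : ℂ) : ‖ee W y‖ = 1 := by
  have : -(W y : ℂ) * I = ((-W y : ℝ) : ℂ) * I := by push_cast; ring
  rw [ee, this, norm_exp_ofReal_mul_I]

theorem ee_sub (W : ℂ → ℝ) (y y' : ℂ) : ‖ee W y - ee W y'‖ ≤ |W y - W y'| := by
  have h := (lipschitzWith_circleMap 0 1).dist_le_mul (-W y) (-W y')
  simp only [circleMap, dist_eq_norm] at h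
  simpa [ee, abs_sub_comm, Real.norm_eq_abs, neg_add_eq_sub] using h

theorem re_ge (a e e' : ℂ) : (a * e).re - ‖a‖ * ‖e - e'‖ ≤ (a * e').re := by
  have : (a * (e - e')).re ≤ ‖a‖ * ‖e - e'‖ := by
    rw [← norm_mul]; exact re_le_norm _
  rw [mul_sub, sub_re] at this
  linarith

/-- Lipschitz bound on `[0,T]`. -/
def Lip (C : ℝ) (γ : ℝ → ℂ) (T : ℝ) : Prop :=
  ∀ s t, 0 ≤ s → s ≤ t → t ≤ T → ‖γ t - γ s‖ ≤ C * (t - s)

theorem Lip.cat {C : ℝ} {γ₁ γ₂ : ℝ → ℂ} {T₁ T₂ : ℝ} (h₁ : Lip C γ₁ T₁) (h₂ : Lip C γ₂ T₂)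
    (he : γ₁ T₁ = γ₂ 0) : Lip C (cat γ₁ γ₂ T₁) (T₁ + T₂) := by
  intro s t hs hst ht
  rcases le_total t T₁ with h | h
  · rw [cat_left _ _ h, cat_left _ _ (hst.trans h)]
    exact h₁ s t hs hst h
  rcases le_total T₁ s with h' | h'
  · rw [cat_right he h, cat_right he h']
    have := h₂ (s - T₁) (t - T₁) (by linarith) (by linarith) (by linarith)
    convert this using 2; ring
  · rw [cat_right he h, cat_left _ _ h']
    have a := h₁ s T₁ hs h' le_rfl
    have b := h₂ 0 (t - T₁) le_rfl (by linarith) (by linarith)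
    rw [he] at a
    have := norm_sub_le_norm_sub_add_norm_sub (γ₂ (t - T₁)) (γ₂ 0) (γ₁ s)
    linarith

theorem adm_seg {W : ℂ → ℝ} {ρ c T : ℝ} {a ζ : ℂ}
    (h : ∀ r ∈ Icc 0 T, ∀ y, ‖a + r * ζ - y‖ ≤ ρ → c ≤ (ζ * ee W y).re) :
    Adm W ρ c (fun r : ℝ => a + r * ζ) T := by
  intro s t y hs hst ht hr
  have := h s ⟨hs, hst.trans ht⟩ y (hr s ⟨le_rfl, hst⟩)
  have e : (a + t * ζ - (a + s * ζ)) * ee W y = ((t - s : ℝ) : ℂ) * (ζ * ee W y) := by
    push_cast; ring
  rw [e, re_ofReal_mul]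
  nlinarith

theorem time_bound {W : ℂ → ℝ} (hW : Continuous W) {ρ c C : ℝ} (hρ : 0 < ρ) (hc : 0 < c)
    (hC : 0 < C) (R : ℝ) : ∃ M, ∀ γ T, Continuous γ → Lip C γ T → Adm W ρ c γ T →
      (∀ t ∈ Icc 0 T, ‖γ t‖ ≤ R) → T ≤ M := by
  classical
  set τ := ρ / (4 * C) with hτ
  have hτ0 : 0 < τ := by positivity
  have hCτ : C * τ = ρ / 4 := by rw [hτ]; field_simp
  set r₀ := min (c * τ / 2) (ρ / 4) with hr₀
  have hr0 : 0 < r₀ := lt_min (by positivity) (by positivity)
  obtain ⟨S, -, hSf, hS⟩ := finite_cover_balls_of_compact (isCompact_closedBall (0 : ℂ) R)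
    (half_pos hr0)
  refine ⟨2 * hSf.toFinset.card * τ, fun γ T hγ hL hA hR => ?_⟩
  by_contra hT
  push Not at hT
  set N := hSf.toFinset.card
  have hin : ∀ k ∈ Finset.range (N + 1), 2 * k * τ ∈ Icc 0 T := fun k hk => by
    have : (k : ℝ) ≤ N := by exact_mod_cast Nat.lt_succ_iff.1 (Finset.mem_range.1 hk)
    exact ⟨by positivity, by nlinarith⟩
  have hex : ∀ k : ℕ, ∃ x, k ∈ Finset.range (N + 1) → x ∈ hSf.toFinset ∧
      dist (γ (2 * k * τ)) x < r₀ / 2 := fun k => by
    by_cases hk : k ∈ Finset.range (N + 1)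
    · have := hS (mem_closedBall_zero_iff.2 (hR _ (hin k hk)))
      simp only [mem_iUnion, Metric.mem_ball] at this
      obtain ⟨x, hx, h⟩ := this
      exact ⟨x, fun _ => ⟨by simpa using hx, h⟩⟩
    · exact ⟨0, fun h => absurd h hk⟩
  choose f hf using hex
  obtain ⟨k, hk, k', hk', hne, hff⟩ := Finset.exists_ne_map_eq_of_card_lt_of_maps_to
    (s := Finset.range (N + 1)) (t := hSf.toFinset) (f := f) (by simp [N]) fun k hk => (hf k hk).1
  wlog hlt : k < k' generalizing k k'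
  · exact this k' hk' k hk hne.symm hff.symm (by omega)
  set t := 2 * k * τ with ht
  set t' := 2 * k' * τ with ht'
  have h1 := hin k hk
  have h2 := hin k' hk'
  have htt : t + 2 * τ ≤ t' := by
    have : (k : ℝ) + 1 ≤ k' := by exact_mod_cast hlt
    nlinarith
  have hd : ‖γ t' - γ t‖ ≤ r₀ := by
    have a := (hf k hk).2
    have b := (hf k' hk').2
    rw [← hff] at b
    have := dist_triangle_right (γ t') (γ t) (f k)
    rw [dist_eq_norm] at this
    linarith
  set ζ := γ (t + τ) - γ t' with hζ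
  have hnear : ∀ r ∈ Icc t (t + τ), ‖γ r - γ t‖ ≤ ρ / 4 := fun r hr =>
    (hL t r h1.1 hr.1 (by linarith [hr.2, h2.2])).trans (by nlinarith [hr.2])
  have hseg : Adm W (ρ / 8) (min c (c * τ / 2)) (fun r : ℝ => γ t' + r * ζ) 1 := by
    refine adm_seg fun r hr y hy => (min_le_right _ _).trans ?_
    have a : ‖γ t' + r * ζ - γ t‖ ≤ ρ / 4 := by
      have e : γ t' + r * ζ - γ t
          = ((1 - r : ℝ) : ℂ) * (γ t' - γ t) + (r : ℂ) * (γ (t + τ) - γ t) := by
        rw [hζ]; push_cast; ring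
      rw [e]
      refine (norm_add_le _ _).trans ?_
      rw [norm_mul, norm_mul, norm_real, norm_real, Real.norm_of_nonneg hr.1,
        Real.norm_of_nonneg (by linarith [hr.2])]
      have b := hnear (t + τ) ⟨by linarith, le_rfl⟩
      have b' : ‖γ t' - γ t‖ ≤ ρ / 4 := hd.trans (min_le_right _ _)
      nlinarith [hr.1, hr.2]
    have b := hA t (t + τ) y h1.1 (by linarith) (by linarith [h2.2]) fun r' hr' => by
      have := hnear r' hr'
      have e : γ r' - y = (γ r' - γ t) - (γ t' + r * ζ - γ t) + (γ t' + r * ζ - y) := by ring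
      rw [e]
      refine (norm_add_le _ _).trans ?_
      have := norm_sub_le (γ r' - γ t) (γ t' + r * ζ - γ t)
      linarith
    have e : ζ * ee W y = (γ (t + τ) - γ t) * ee W y - (γ t' - γ t) * ee W y := by
      rw [hζ]; ring
    have b' : ((γ t' - γ t) * ee W y).re ≤ c * τ / 2 := by
      refine (re_le_norm _).trans ?_
      rw [norm_mul, norm_ee, mul_one]
      exact hd.trans (min_le_left _ _)
    rw [e, sub_re]
    have : c * (t + τ - t) = c * τ := by ring
    linarith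
  have harc : Adm W (ρ / 8) (min c (c * τ / 2)) (fun r => γ (t + τ + r)) (t' - (t + τ)) :=
    (hA.shift (by linarith [h1.1]) (by linarith [h2.2])).mono (by linarith) (min_le_left _ _)
  have he : (fun r => γ (t + τ + r)) (t' - (t + τ)) = (fun r : ℝ => γ t' + r * ζ) 0 := by simp
  refine no_loop hW (by positivity) (lt_min hc (by positivity)) (by linarith)
    (cat_continuous (by fun_prop) (by fun_prop) _) (harc.cat hseg he) ?_
  rw [cat_right he (by linarith), cat_left _ _ (by linarith)]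
  simp [hζ]

/-- Lyapunov functions for compact sets of directions in the half-planes of an angle field. -/
theorem lyapunov {W : ℂ → ℝ} (hW : UniformContinuous W) {Ξ : Set (ℂ × ℂ)} (hΞ : IsCompact Ξ)
    (hpos : ∀ p ∈ Ξ, 0 < (p.2 * ee W p.1).re) :
    ∃ L : ℂ → ℝ, ContDiff ℝ ∞ L ∧ ∀ p ∈ Ξ, 1 ≤ fderiv ℝ L p.1 p.2 := by
  rcases Ξ.eq_empty_or_nonempty with rfl | hne
  · exact ⟨0, contDiff_const, by simp⟩
  have hWc := hW.continuous
  obtain ⟨p₀, hp₀, hmin⟩ := hΞ.exists_isMinOn hne (f := fun p => (p.2 * ee W p.1).re)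
    (by unfold ee; fun_prop)
  set m := (p₀.2 * ee W p₀.1).re / 3 with hm
  have hm0 : 0 < m := by have := hpos p₀ hp₀; positivity
  have hm3 : ∀ p ∈ Ξ, 3 * m ≤ (p.2 * ee W p.1).re := fun p hp => by
    have : (p₀.2 * ee W p₀.1).re ≤ (p.2 * ee W p.1).re := hmin hp
    linarith
  obtain ⟨R₀, hR₀⟩ := hΞ.isBounded.exists_norm_le
  set R := max R₀ 1
  have hR0 : 0 < R := lt_max_of_lt_right one_pos
  have hR1 : ∀ p ∈ Ξ, ‖p.1‖ ≤ R := fun p hp =>
    (norm_fst_le p).trans ((hR₀ p hp).trans (le_max_left _ _))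
  have hR2 : ∀ p ∈ Ξ, ‖p.2‖ ≤ R := fun p hp =>
    (norm_snd_le p).trans ((hR₀ p hp).trans (le_max_left _ _))
  have unif : ∀ ε > 0, ∃ δ > 0, ∀ y y', ‖y - y'‖ ≤ δ → ‖ee W y - ee W y'‖ ≤ ε := fun ε hε => by
    obtain ⟨δ, hδ, h⟩ := Metric.uniformContinuous_iff_le.1 hW ε hε
    exact ⟨δ, hδ, fun y y' hy => (ee_sub W y y').trans
      (by simpa [Real.dist_eq] using h (by simpa [dist_eq_norm] using hy))⟩
  obtain ⟨δ, hδ, hδ'⟩ := unif (m / R) (by positivity)
  set ρ := min (δ / 3) (1 / 2) with hρ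
  have hρ0 : 0 < ρ := lt_min (by positivity) (by norm_num)
  have hρ1 : ρ ≤ δ / 3 := min_le_left _ _
  have hρ2 : ρ ≤ 1 / 2 := min_le_right _ _
  have dir : ∀ p ∈ Ξ, ∀ y, ‖p.1 - y‖ ≤ 3 * ρ → 2 * m ≤ (p.2 * ee W y).re := fun p hp y hy => by
    have a := re_ge p.2 (ee W p.1) (ee W y)
    have b := hδ' p.1 y (by linarith)
    have c : ‖p.2‖ * ‖ee W p.1 - ee W y‖ ≤ R * (m / R) :=
      mul_le_mul (hR2 p hp) b (norm_nonneg _) hR0.le
    rw [mul_div_cancel₀ _ hR0.ne'] at c
    linarith [hm3 p hp]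
  let 𝒯 : ℂ → Set ℝ := fun y => {T | 0 ≤ T ∧ ∃ γ c, m < c ∧ Continuous γ ∧ Lip R γ T ∧
    Adm W ρ c γ T ∧ γ 0 = y ∧ ∀ t ∈ Icc 0 T, ‖γ t‖ < R + 2}
  obtain ⟨M, hM⟩ := time_bound hWc hρ0 hm0 hR0 (R + 2)
  have hTM : ∀ y, ∀ T ∈ 𝒯 y, T ≤ M := fun y T ⟨_, γ, c, hc, hγ, hL, hA, _, hU⟩ =>
    hM γ T hγ hL (hA.mono le_rfl hc.le) fun t ht => (hU t ht).le
  have bdd : ∀ y, BddAbove (𝒯 y) := fun y => ⟨M, hTM y⟩
  have zero : ∀ y, ‖y‖ < R + 2 → (0 : ℝ) ∈ 𝒯 y := fun y hy =>
    ⟨le_rfl, fun _ => y, m + 1, by linarith, continuous_const,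
      fun s t _ hst _ => by simp; nlinarith,
      fun s t _ hs hst ht _ => by
        have : t = s := by linarith
        simp [this], rfl, fun _ _ => hy⟩
  let Tm : ℂ → ℝ := fun y => sSup (𝒯 y)
  have Tm0 : ∀ y, 0 ≤ Tm y := fun y => Real.sSup_nonneg fun T hT => hT.1
  have TmM : ∀ y, Tm y ≤ max M 0 := fun y =>
    Real.sSup_le (fun T hT => (hTM y T hT).trans (le_max_left _ _)) (le_max_right _ _)
  have lsc : LowerSemicontinuous Tm := by
    intro y a ha
    rcases lt_or_ge a 0 with h | h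
    · exact Eventually.of_forall fun y' => h.trans_le (Tm0 y')
    have hne : (𝒯 y).Nonempty := by
      by_contra hn
      rw [not_nonempty_iff_eq_empty] at hn
      simp only [Tm, hn, Real.sSup_empty] at ha
      linarith
    obtain ⟨T, ⟨hT, γ, c, hc, hγ, hL, hA, h0, hU⟩, haT⟩ := exists_lt_of_lt_csSup hne ha
    obtain ⟨t₀, ht₀, hmax⟩ := (isCompact_Icc (a := (0 : ℝ)) (b := T)).exists_isMaxOn
      ⟨0, le_rfl, hT⟩ (f := fun t => ‖γ t‖) (by fun_prop)
    obtain ⟨η, hη, hη'⟩ := unif ((c - m) / 2 / R) (by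
      have : 0 < c - m := by linarith
      positivity)
    have hball : Metric.ball y (min η (R + 2 - ‖γ t₀‖)) ∈ 𝓝 y :=
      Metric.ball_mem_nhds _ (lt_min hη (by linarith [hU t₀ ht₀]))
    filter_upwards [hball] with y' hy'
    rw [Metric.mem_ball, dist_eq_norm, lt_min_iff] at hy'
    refine haT.trans_le (le_csSup (bdd y') ⟨hT, fun t => γ t + (y' - y), (c + m) / 2,
      by linarith, by fun_prop, fun s t hs hst ht => by simpa using hL s t hs hst ht,
      fun s t u hs hst ht hr => ?_, by simp [h0], fun t ht => ?_⟩)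
    · have a := hA s t (u - (y' - y)) hs hst ht fun r hr' => by
        have := hr r hr'
        convert this using 2; ring
      have b := re_ge (γ t - γ s) (ee W (u - (y' - y))) (ee W u)
      have d := hη' (u - (y' - y)) u (by
        rw [show u - (y' - y) - u = -(y' - y) by ring, norm_neg]; exact hy'.1.le)
      have f : ‖γ t - γ s‖ * ‖ee W (u - (y' - y)) - ee W u‖ ≤ R * (t - s) * ((c - m) / 2 / R) :=
        mul_le_mul (hL s t hs hst ht) d (norm_nonneg _) (by nlinarith)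
      have g : R * (t - s) * ((c - m) / 2 / R) = (c - m) / 2 * (t - s) := by field_simp
      rw [show γ t + (y' - y) - (γ s + (y' - y)) = γ t - γ s by ring]
      nlinarith
    · have a : ‖γ t‖ ≤ ‖γ t₀‖ := hmax ht
      have := norm_add_le (γ t) (y' - y)
      linarith [hy'.2]
  have step : ∀ p ∈ Ξ, ∀ s : ℝ, 0 < s → s ≤ ρ / R → ∀ u : ℂ, ‖u‖ ≤ ρ →
      s + Tm (p.1 + s * p.2 - u) ≤ Tm (p.1 - u) := fun p hp s hs hsR u hu => by
    have small : ∀ r ∈ Icc 0 s, ‖(r : ℂ) * p.2‖ ≤ ρ := fun r hr => by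
      rw [norm_mul, norm_real, Real.norm_of_nonneg hr.1]
      calc r * ‖p.2‖ ≤ ρ / R * R :=
            mul_le_mul (hr.2.trans hsR) (hR2 p hp) (norm_nonneg _) (by positivity)
        _ = ρ := div_mul_cancel₀ _ hR0.ne'
    have inU : ∀ r ∈ Icc 0 s, ‖p.1 - u + r * p.2‖ < R + 2 := fun r hr => by
      have a := norm_add_le (p.1 - u) (r * p.2)
      have b := norm_sub_le p.1 u
      linarith [small r hr, hR1 p hp]
    have hz := zero (p.1 + s * p.2 - u) (by
      have := inU s ⟨hs.le, le_rfl⟩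
      rwa [show p.1 - u + s * p.2 = p.1 + s * p.2 - u by ring] at this)
    rw [← le_sub_iff_add_le']
    refine csSup_le ⟨0, hz⟩ fun T ⟨hT, γ, c, hc, hγ, hL, hA, h0, hU⟩ => ?_
    rw [le_sub_iff_add_le']
    have he : (fun r : ℝ => p.1 - u + r * p.2) s = γ 0 := by rw [h0]; ring
    have hseg : Adm W ρ (min c (2 * m)) (fun r : ℝ => p.1 - u + r * p.2) s :=
      adm_seg fun r hr y hy => (min_le_right _ _).trans (dir p hp y (by
        have e : p.1 - y = (p.1 - u + r * p.2 - y) + u - r * p.2 := by ring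
        rw [e]
        have a := norm_sub_le (p.1 - u + r * p.2 - y + u) (r * p.2)
        have b := norm_add_le (p.1 - u + r * p.2 - y) u
        linarith [small r hr]))
    have hlip : Lip R (fun r : ℝ => p.1 - u + r * p.2) s := fun a b _ hab _ => by
      rw [show p.1 - u + b * p.2 - (p.1 - u + a * p.2) = ((b - a : ℝ) : ℂ) * p.2 by
        push_cast; ring, norm_mul, norm_real, Real.norm_of_nonneg (by linarith), mul_comm]
      exact mul_le_mul_of_nonneg_right (hR2 p hp) (by linarith)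
    refine le_csSup (bdd _) ⟨by linarith, cat (fun r : ℝ => p.1 - u + r * p.2) γ s,
      min c (2 * m), lt_min hc (by linarith), cat_continuous (by fun_prop) hγ _,
      hlip.cat hL he, hseg.cat (hA.mono le_rfl (min_le_left _ _)) he,
      by rw [cat_left _ _ hs.le]; simp, fun t ht => ?_⟩
    rcases le_total t s with h | h
    · rw [cat_left _ _ h]; exact inU t ⟨ht.1, h⟩
    · rw [cat_right (γ₁ := fun r : ℝ => p.1 - u + r * p.2) he h]
      exact hU _ ⟨by linarith, by linarith [ht.2]⟩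
  have meas : Measurable Tm := lsc.measurable
  let φ : ContDiffBump (0 : ℂ) := ⟨ρ / 2, ρ, by positivity, by linarith⟩
  have hloc : LocallyIntegrable (fun y => -Tm y) volume := by
    refine (locallyIntegrable_const (max M 0)).mono meas.neg.aestronglyMeasurable
      (Eventually.of_forall fun y => ?_)
    rw [norm_neg, Real.norm_of_nonneg (Tm0 y), Real.norm_of_nonneg (le_max_right _ _)]
    exact TmM y
  let L : ℂ → ℝ := convolution (φ.normed volume) (fun y => -Tm y) (ContinuousLinearMap.lsmul ℝ ℝ)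
    volume
  have hL : ContDiff ℝ ∞ L :=
    φ.hasCompactSupport_normed.contDiff_convolution_left _ φ.contDiff_normed hloc
  have hint : ∀ x, Integrable fun u => φ.normed volume u • (-Tm (x - u)) := fun x =>
    (φ.hasCompactSupport_normed.convolutionExists_left (ContinuousLinearMap.lsmul ℝ ℝ)
      φ.continuous_normed hloc x)
  refine ⟨L, hL, fun p hp => ?_⟩
  have incr : ∀ s : ℝ, 0 < s → s ≤ ρ / R → s ≤ L (p.1 + s * p.2) - L p.1 := fun s hs hsR => by
    simp only [L, convolution_lsmul]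
    rw [← integral_sub (hint _) (hint _)]
    calc s = ∫ u, φ.normed volume u * s := by
          rw [integral_mul_const, φ.integral_normed, one_mul]
      _ ≤ _ := by
          refine integral_mono (φ.integrable_normed.mul_const s) ((hint _).sub (hint _))
            fun u => ?_
          by_cases hu : ‖u‖ ≤ ρ
          · have := step p hp s hs hsR u hu
            have h0 := φ.nonneg_normed (μ := volume) u
            simp only [smul_eq_mul]
            nlinarith
          · have : φ.normed volume u = 0 := by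
              by_contra h
              have : u ∈ Function.support (φ.normed volume) := h
              rw [φ.support_normed_eq, mem_ball_zero_iff] at this
              exact hu this.le
            simp [this]
  have hd : HasDerivAt (fun s : ℝ => L (p.1 + s * p.2)) (fderiv ℝ L p.1 p.2) 0 := by
    have h1 : HasDerivAt (fun s : ℝ => p.1 + (s : ℂ) * p.2) p.2 0 := by
      simpa using ((ofRealCLM.hasDerivAt (x := (0 : ℝ))).mul_const p.2).const_add p.1
    have h2 := (hL.differentiable (by simp) (p.1 + ((0 : ℝ) : ℂ) * p.2)).hasFDerivAt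
    have h3 := h2.comp_hasDerivAt (0 : ℝ) h1
    simp only [ofReal_zero, zero_mul, add_zero] at h3
    exact h3
  have ht := hd.tendsto_slope_zero_right
  refine ge_of_tendsto ht ?_
  filter_upwards [Ioc_mem_nhdsGT (show (0 : ℝ) < ρ / R by positivity)] with s hs
  have := incr s hs.1 hs.2
  simp only [zero_add, ofReal_zero, zero_mul, add_zero, smul_eq_mul]
  rw [le_inv_mul_iff₀ hs.1]
  linarith

end Pool.Agent.MP_2fc7fa_gt.Tor
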