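import Pool.Agent.MP_2fc7fa_gt.TReal
import Pool.Agent.MP_2fc7fa_gt.TAsm
import Pool.Agent.MP_2fc7fa_gt.TDefs

/-! The space of torus-invariant symplectic forms is contractible. -/

namespace Pool.Agent.MP_2fc7fa_gt.Tor

open Set Complex Filter Topology
open scoped ContDiff Matrix

/-- Smooth two-forms. -/
def SFs : Submodule ℝ (Form 2) where
  carrier := {σ | ContDiffOn ℝ ∞ σ {0}ᶜ}
  add_mem' := ContDiffOn.add
  zero_mem' := contDiffOn_const
  smul_mem' := fun c _ h => h.const_smul c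

/-- Smooth two-forms, to be given the `C^∞` topology. -/
def SF : Type := SFs

noncomputable instance : AddCommGroup SF := inferInstanceAs (AddCommGroup SFs)

noncomputable instance : Module ℝ SF := inferInstanceAs (Module ℝ SFs)

/-- The underlying form. -/
def SF.form (σ : SF) : Form 2 := Subtype.val σ

theorem SF.smooth (σ : SF) : ContDiffOn ℝ ∞ σ.form {0}ᶜ := Subtype.property σ

theorem SF.at (σ : SF) {z : V} (hz : z ≠ 0) (n : ℕ) : ContDiffAt ℝ n σ.form z :=
  (σ.smooth.contDiffAt (isOpen_compl_singleton.mem_nhds hz)).of_le (mod_cast le_top)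

instance (n : ℕ) : ContinuousAdd (V [×n]→L[ℝ] V [⋀^Fin 2]→L[ℝ] ℝ) :=
  (inferInstance : IsTopologicalAddGroup (V [×n]→L[ℝ] V [⋀^Fin 2]→L[ℝ] ℝ)).toContinuousAdd

/-- The jets. -/
noncomputable def jetL (n : ℕ) :
    SF →ₗ[ℝ] C(({0}ᶜ : Set V), V [×n]→L[ℝ] V [⋀^Fin 2]→L[ℝ] ℝ) where
  toFun σ := ⟨fun z => iteratedFDeriv ℝ n σ.form z, continuous_iff_continuousAt.2 fun z =>
    ((σ.at z.2 n).continuousAt_iteratedFDeriv le_rfl).comp continuousAt_subtype_val⟩
  map_add' σ σ' := ContinuousMap.ext fun z => iteratedFDeriv_add_apply (σ.at z.2 n) (σ'.at z.2 n)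
  map_smul' _ σ := ContinuousMap.ext fun z => iteratedFDeriv_const_smul_apply (σ.at z.2 n)

noncomputable instance : TopologicalSpace SF :=
  ⨅ n, TopologicalSpace.induced (jetL n) inferInstance

instance : LocallyCompactSpace ({0}ᶜ : Set V) := isOpen_compl_singleton.locallyCompactSpace

instance : ContinuousAdd SF := continuousAdd_iInf fun n => continuousAdd_induced (jetL n)

instance : ContinuousSMul ℝ SF := continuousSMul_iInf fun n => continuousSMul_induced (jetL n)

theorem sm_form : Sm {0}ᶜ SF.form := by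
  refine (sm_iff_iter isOpen_compl_singleton).2 ⟨SF.smooth, fun m => ?_⟩
  rw [JC, continuousOn_iff_continuous_domRestrict]
  have h2 : Continuous (jetL m) := continuous_iInf_dom (i := m) continuous_induced_dom
  exact continuous_eval.comp (f := fun q : (univ ×ˢ {0}ᶜ : Set (SF × V)) =>
    (jetL m q.1.1, (⟨q.1.2, q.2.2⟩ : ({0}ᶜ : Set V)))) (by fun_prop)

theorem cont_grad (a : V) : Continuous fun q : SF × Tri => grad q.1.form a q.2 := by
  have c : Continuous fun q : SF × Tri => sc q.2 := cont_sc.comp (by fun_prop)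
  have h : ∀ k, Continuous fun q : SF × Tri => gg q.1.form a k (sc q.2) := fun k =>
    (((bilL.continuous.comp ((ContinuousOn.comp_continuous (sm_form.fderiv
      isOpen_compl_singleton).jc (continuous_fst.prodMk c) fun q => ⟨trivial, sc_ne q.2.2⟩).clm_apply
      continuous_const)).clm_apply continuous_const).clm_apply (continuous_const.mul c)).add
      (((bilL.continuous.comp (ContinuousOn.comp_continuous sm_form.jc (continuous_fst.prodMk c)
        fun q => ⟨trivial, sc_ne q.2.2⟩)).clm_apply continuous_const).clm_apply continuous_const)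
  exact equivRealProdCLM.symm.continuous.comp
    ((((h 1).sub (h 0)).div_const 2).prodMk (((h 2).sub (h 0)).div_const 2))

theorem grad_add (a : V) (σ σ' : SF) (x : Tri) :
    grad (σ + σ').form a x = grad σ.form a x + grad σ'.form a x := by
  have : fderiv ℝ (σ + σ').form (sc x) = fderiv ℝ σ.form (sc x) + fderiv ℝ σ'.form (sc x) :=
    fderiv_add (dAt σ.smooth (sc_ne x.2)) (dAt σ'.smooth (sc_ne x.2))
  have e : (σ + σ').form (sc x) = σ.form (sc x) + σ'.form (sc x) := rfl
  apply Complex.ext <;> simp [grad, gg, this, e] <;> ring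

theorem grad_smul (a : V) (c : ℝ) (σ : SF) (x : Tri) :
    grad (c • σ).form a x = c • grad σ.form a x := by
  have : fderiv ℝ (c • σ).form (sc x) = _ := fderiv_const_smul (dAt σ.smooth (sc_ne x.2)) c
  have e : (c • σ).form (sc x) = c • σ.form (sc x) := rfl
  apply Complex.ext <;> simp [grad, gg, this, e] <;> ring

/-- The gradient of the moment map as a function of the form. -/
noncomputable def gradL (a : V) : SF →L[ℝ] C(Tri, ℂ) where
  toFun := ContinuousMap.curry ⟨_, cont_grad a⟩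
  map_add' σ σ' := ContinuousMap.ext (grad_add a σ σ')
  map_smul' c σ := ContinuousMap.ext (grad_smul a c σ)
  cont := map_continuous _

/-- Curvature forms of invariant connections. -/
def Cl (l : ℝ) (σ : SF) : Prop := ∃ b, Conn l b ∧ σ.form = dd (mk1 b)

theorem Cl.lin {a b : ℝ} {σ σ' : SF} (s t : ℝ) (h : Cl a σ) (h' : Cl b σ') :
    Cl (s * a + t * b) (s • σ + t • σ') := by
  obtain ⟨β, h, e⟩ := h
  obtain ⟨β', h', e'⟩ := h'
  refine ⟨_, ⟨(h.smul (contDiffOn_const (c := s)) fun _ _ _ _ => rfl).add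
    (h'.smul (contDiffOn_const (c := t)) fun _ _ _ _ => rfl), fun z hz c => ?_⟩, funext fun z => ?_⟩
  · simp [h.horiz z hz, h'.horiz z hz]
    ring
  · change s • σ.form z + t • σ'.form z = _
    rw [e, e']
    rcases eq_or_ne z 0 with rfl | hz
    · simp [dd]
    · ext v
      rw [eq_bilL, eq_bilL, bil_dd _ hz, (((dAt h.smooth hz).hasFDerivAt.fun_const_smul s).fun_add
        ((dAt h'.smooth hz).hasFDerivAt.fun_const_smul t)).fderiv]
      simp [bil_dd _ hz]
      ring

theorem Conn.hg' {l : ℝ} {b : L1} (h : Conn l b) {σ : SF} (e : σ.form = dd (mk1 b)) (k : Fin 3) :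
    HG (mom b k) (gradL (ei k) σ) := h.hg (la_ei k) fun x => by rw [← e]; rfl

theorem det_add (a b : ℂ) : det a (a + b) = det a b := by simp [det]; ring

/-- The model of the space of invariant symplectic forms. -/
abbrev Mod (l : ℝ) : Type :=
  {σ // Cl l σ ∧ ∀ x, det (gradL (ei 1) σ x) ((gradL (ei 1) + gradL (ei 2)) σ x) ≠ 0}

theorem contr_pos {l : ℝ} (hl : 0 < l) : ContractibleSpace (Mod l) := by
  refine assembly _ _ Cl.lin ?_ (fun θ hθ => ?_) ?_
  · rintro σ ⟨b, h, e⟩ hd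
    simp only [add_apply, ContinuousMap.add_apply, det_add] at hd ⊢
    exact signs hl (h.hg' e 1) (h.hg' e 2) h.bd hd
  · obtain ⟨b, h, h1⟩ := real3 hl hθ
    exact ⟨⟨_, h.g2.smooth⟩, ⟨b, h, rfl⟩, h1 _ ((h.hg' rfl 1).add (h.hg' rfl 2))⟩
  · rintro σ ⟨b, h, e⟩ hc
    obtain ⟨b', h', h1, h2⟩ := real4 h (h.hg' e 1) (h.hg' e 2) hc
    exact ⟨⟨_, h'.g2.smooth⟩, ⟨b', h', rfl⟩, ((h'.hg' rfl 1).add (h'.hg' rfl 2)).unique
      (((h.hg' e 1).add (h.hg' e 2)).congr h1), h2 _ (h'.hg' rfl 1)⟩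

theorem neg_mem {l l' : ℝ} (e : l' = -l) (σ : Mod l) : Cl l' ((-1 : ℝ) • σ.1) ∧ ∀ x,
    det (gradL (ei 1) ((-1 : ℝ) • σ.1) x) ((gradL (ei 1) + gradL (ei 2)) ((-1 : ℝ) • σ.1) x) ≠ 0 :=
  ⟨by simpa [e] using σ.2.1.lin (-1) 0 σ.2.1, fun x h => σ.2.2 x (by
    rw [map_smul, map_smul] at h
    simp [det] at h ⊢
    linarith)⟩

theorem contr {l : ℝ} (hl : l ≠ 0) : ContractibleSpace (Mod l) := by
  rcases hl.lt_or_gt with h | h
  · have := contr_pos (neg_pos.2 h)
    exact Homeomorph.contractibleSpace (Y := Mod (-l))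
      ⟨⟨fun σ => ⟨_, neg_mem rfl σ⟩, fun σ => ⟨_, neg_mem (neg_neg l).symm σ⟩,
        fun σ => by simp, fun σ => by simp⟩, by fun_prop, by fun_prop⟩
  · exact contr_pos h

theorem symp_cl {l : ℝ} (σ : Symp l) (h : Invariant Torus σ.form) :
    ∃ b, Conn l b ∧ σ.form = dd (mk1 b) := by
  obtain ⟨α, hα, e⟩ := σ.cls
  have d1 := fun z (hz : z ≠ 0) => dAt hα.smooth hz
  have d2 := fun z (hz : z ≠ 0) => dAt contDiffOn_theta hz
  obtain ⟨b, h1, h2⟩ := Prim.conn (l := l) (σ := σ.form)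
    (b := fun z => l • linL (theta z) + linL (α z)) ⟨((linL.contDiff.comp_contDiffOn
      contDiffOn_theta).const_smul l).add (linL.contDiff.comp_contDiffOn hα.smooth), by
      rintro _ ⟨c, hc, rfl⟩ z hz v
      have h1 := inv_theta.lin (a := 1) (b := 0) hc (by simp) z v
      have h2 := hα.scale c hc z fun _ => v
      rw [act_one, act_one] at h1
      rw [eq_linL, eq_linL] at h2
      exact congrArg₂ (l * · + ·) h1 h2, fun z hz c => by
      have := hα.horiz z (fun _ => c • z) 0 c rfl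
      rw [eq_linL] at this
      simp [theta_horiz c hz, this], fun z hz u v => by
      have : fderiv ℝ (fun z => l • linL (theta z) + linL (α z)) z = _ :=
        (((linL.hasFDerivAt.comp z (d2 z hz).hasFDerivAt).fun_const_smul l).fun_add
        (linL.hasFDerivAt.comp z (d1 z hz).hasFDerivAt)).fderiv
      rw [e z hz, this]
      simp [bilL_extDeriv]
      ring⟩ fun g hg z hz u v => by
      have h0 : g 0 ≠ 0 := hg.1
      have h1 := h _ ⟨(g 0)⁻¹ • g, fun j => by simp [hg.2, h0], rfl⟩ z ![u, v]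
      have m : ∀ z : V, g 0 • (Matrix.diagonal ((g 0)⁻¹ • g) *ᵥ z) = g * z := fun z => by
        ext j
        simp [Matrix.mulVec_diagonal, h0, -Matrix.diagonal_smul, mul_assoc]
      rw [← σ.isForm.scale _ h0, eq_bilL, eq_bilL] at h1
      simpa [m, -Matrix.diagonal_smul] using h1
  refine ⟨b, h1, funext fun z => ?_⟩
  rcases eq_or_ne z 0 with rfl | hz
  · simp [dd, σ.isForm.zero]
  · exact h2 z hz

open Classical in
theorem Conn.symp {l : ℝ} {b : L1} (h : Conn l b) : IsForm (dd (mk1 b)) ∧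
    (∀ z, z ≠ 0 → extDeriv (dd (mk1 b)) z = 0) ∧ (∃ α : Form 1, IsForm α ∧ ∀ z, z ≠ 0 →
      dd (mk1 b) z = l • extDeriv theta z + extDeriv α z) ∧ Invariant Torus (dd (mk1 b)) := by
  have hU : IsOpen ({0}ᶜ : Set V) := isOpen_compl_singleton
  have s := smooth_mk1 h.smooth
  have s' := s.sub (contDiffOn_theta.const_smul l)
  refine ⟨⟨h.g2.smooth, fun c hc z v => ?_, fun z v i c e => ?_, if_pos rfl⟩, fun z hz => ?_,
    ⟨fun z => if z = 0 then 0 else mk1 b z - l • theta z, ⟨s'.congr fun z hz => if_neg hz,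
      fun c hc z v => ?_, fun z v i c e => ?_, if_pos rfl⟩, fun z hz => ?_⟩, ?_⟩
  · rcases eq_or_ne z 0 with rfl | hz
    · simp [dd]
    · rw [eq_bilL, eq_bilL]
      exact h.g2.inv (fun _ => c) ⟨hc, fun _ => rfl⟩ z hz _ _
  · rcases eq_or_ne z 0 with rfl | hz
    · simp [dd]
    · rw [eq_bilL]
      fin_cases i
      · rw [bilL_skew, neg_eq_zero]
        exact (congrArg (bilL _ _) e).trans (h.g2.horiz z hz c _)
      · exact (congrArg (bilL _ _) e).trans (h.g2.horiz z hz c _)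
  · rw [← extDeriv_extDeriv_apply ((s.contDiffAt (hU.mem_nhds hz)).of_le (m := 2)
      (WithTop.coe_le_coe.2 le_top)) (by simp)]
    exact EventuallyEq.extDeriv_eq (mem_of_superset (hU.mem_nhds hz) fun y hy => dd_of_ne _ hy)
  · rcases eq_or_ne z 0 with rfl | hz
    · simp
    · have h1 := inv_theta.lin (a := 1) (b := 0) hc (by simp) z (v 0)
      have h2 : b (c • z) (c • v 0) = _ := h.inv (fun _ => c) ⟨hc, fun _ => rfl⟩ z hz (v 0)
      rw [act_one, act_one] at h1
      simp [hz, hc, eq_linL, linL_mk1, h1, h2]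
  · rcases eq_or_ne z 0 with rfl | hz
    · simp
    · rw [Subsingleton.elim i 0] at e
      simp [hz, eq_linL, linL_mk1, e, h.horiz z hz, theta_horiz c hz]
  · rw [EventuallyEq.extDeriv_eq (ω₁ := fun z => if z = 0 then 0 else mk1 b z - l • theta z)
      (ω₂ := fun z => mk1 b z - l • theta z) (mem_of_superset (hU.mem_nhds hz) fun y hy => if_neg hy), dd_of_ne _ hz, ← extDeriv_smul,
      ← extDeriv_add ((dAt contDiffOn_theta hz).const_smul l) (dAt s' hz)]
    congr 1
    ext1 y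
    simp
  · rintro _ ⟨g, hg, rfl⟩ z v
    have m : ∀ z : V, Matrix.diagonal g *ᵥ z = g * z := fun z => by
      ext j
      simp [Matrix.mulVec_diagonal]
    rcases eq_or_ne z 0 with rfl | hz
    · simp [dd]
    · rw [eq_bilL, eq_bilL, m, m, m]
      exact h.g2.inv g ⟨by simp [← norm_pos_iff, hg], fun j => by rw [hg, hg]⟩ z hz _ _

theorem Cl.nondeg {l : ℝ} {σ : SF} (h : Cl l σ) : (∀ z, z ≠ 0 → ∃ a b c d,
    σ.form z ![a, b] * σ.form z ![c, d] - σ.form z ![a, c] * σ.form z ![b, d] +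
      σ.form z ![a, d] * σ.form z ![b, c] ≠ 0) ↔
    ∀ x, det (gradL (ei 1) σ x) ((gradL (ei 1) + gradL (ei 2)) σ x) ≠ 0 := by
  obtain ⟨b, h, e⟩ := h
  have := (e ▸ h.g2).nondeg
  simp only [Pf, bilL_apply] at this
  simp only [this, add_apply, ContinuousMap.add_apply, det_add, Subtype.forall]
  rfl

theorem Cl.symp {l : ℝ} {σ : SF} (h : Cl l σ) : IsForm σ.form ∧
    (∀ z, z ≠ 0 → extDeriv σ.form z = 0) ∧ (∃ α : Form 1, IsForm α ∧ ∀ z, z ≠ 0 →
      σ.form z = l • extDeriv theta z + extDeriv α z) ∧ Invariant Torus σ.form := by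
  obtain ⟨b, h, e⟩ := h
  exact e ▸ h.symp

theorem contractible (l : ℝ) (hl : l ≠ 0) :
    ContractibleSpace {σ : Symp l // Invariant Torus σ.form} := by
  have := contr hl
  have k : ∀ σ : {σ : Symp l // Invariant Torus σ.form}, Cl l ⟨σ.1.form, σ.1.isForm.smooth⟩ :=
    fun σ => symp_cl σ.1 σ.2
  refine Homeomorph.contractibleSpace (Y := Mod l)
    ⟨⟨fun σ => ⟨_, k σ, (k σ).nondeg.1 σ.1.nondeg⟩, fun σ => ⟨⟨σ.1.form, σ.2.1.symp.1,
      σ.2.1.symp.2.1, σ.2.1.nondeg.2 σ.2.2, σ.2.1.symp.2.2.1⟩, σ.2.1.symp.2.2.2⟩,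
      fun σ => rfl, fun σ => rfl⟩, ?_, ?_⟩
  · refine Continuous.subtype_mk (continuous_iInf_rng.2 fun n => continuous_induced_rng.2 ?_) _
    exact (continuous_iInf_dom (i := n) continuous_induced_dom :
      Continuous fun σ : Symp l => σ.jet n).comp continuous_subtype_val
  · refine Continuous.subtype_mk (continuous_iInf_rng.2 fun n => continuous_induced_rng.2 ?_) _
    exact (continuous_iInf_dom (i := n) continuous_induced_dom :
      Continuous (jetL n)).comp continuous_subtype_val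

end Pool.Agent.MP_2fc7fa_gt.Tor
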