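import Pool.Agent.MP_2fc7fa_gt.TGeo

/-! The orbit map, and nondegeneracy in terms of the Jacobian of the moment map. -/

namespace Pool.Agent.MP_2fc7fa_gt.Tor

open Set Complex Filter Topology
open scoped ContDiff ComplexConjugate

/-- The standard moment map. -/
noncomputable def mu (z : V) : ℂ := ⟨‖z 1‖ ^ 2 * (nn z)⁻¹, ‖z 2‖ ^ 2 * (nn z)⁻¹⟩

theorem xs_mu {z : V} (hz : z ≠ 0) (j : Fin 3) : xs (mu z) j = ‖z j‖ ^ 2 * (nn z)⁻¹ := by
  have := (nn_pos hz).ne'
  fin_cases j <;> simp [xs, mu]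
  field_simp
  simp [nn, Fin.sum_univ_three]
  ring

theorem mu_mem {z : V} (hz : z ≠ 0) : mu z ∈ Tri := by
  have h : ∀ j, 0 ≤ xs (mu z) j := fun j => by
    rw [xs_mu hz]
    exact mul_nonneg (sq_nonneg _) (inv_pos.2 (nn_pos hz)).le
  exact ⟨h 1, h 2, by have := h 0; simp [xs] at this; linarith⟩

theorem transport {z : V} (hz : z ≠ 0) : ∃ g, TG g ∧ z = g * sc (mu z) := by
  have h := Real.sqrt_pos.2 (nn_pos hz)
  refine ⟨fun j => √(nn z) * exp (arg (z j) * I), ⟨by simpa using h.ne', fun j => by simp⟩,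
    funext fun j => ?_⟩
  rw [Pi.mul_apply, sc, xs_mu hz, Real.sqrt_mul (sq_nonneg _), Real.sqrt_sq (norm_nonneg _),
    Real.sqrt_inv]
  have : (√(nn z) : ℂ) ≠ 0 := by exact_mod_cast h.ne'
  conv_lhs => rw [← norm_mul_exp_arg_mul_I (z j)]
  push_cast
  field_simp

theorem mu_sc {x : ℂ} (h : x ∈ Tri) : mu (sc x) = x := by
  simp [mu, nn_sc h, sc, Real.sq_sqrt (xs_nonneg h _)]
  rfl

theorem TG.nn {g : V} (h : TG g) (z : V) : nn (g * z) = ‖g 0‖ ^ 2 * nn z := by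
  simp [MP_2fc7fa_gt.nn, h.2, mul_pow, Finset.mul_sum]

theorem TG.mu {g : V} (h : TG g) (z : V) : mu (g * z) = mu z := by
  have : ‖g 0‖ ≠ 0 := by simpa using h.1
  simp only [Tor.mu, h.nn, Pi.mul_apply, norm_mul, h.2, mul_pow, mul_inv]
  congr 1 <;> field_simp

theorem smooth_mu : ContDiffOn ℝ ∞ mu {0}ᶜ :=
  equivRealProdCLM.symm.contDiff.comp_contDiffOn
    (((contDiff_sq 1).contDiffOn.mul contDiffOn_inv_nn).prodMk
      ((contDiff_sq 2).contDiffOn.mul contDiffOn_inv_nn))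

/-- The Pfaffian of a two-form on four vectors. -/
noncomputable def Pf (φ : V [⋀^Fin 2]→L[ℝ] ℝ) (a b c d : V) : ℝ :=
  bilL φ a b * bilL φ c d - bilL φ a c * bilL φ b d + bilL φ a d * bilL φ b c

theorem pf_zero {φ : V [⋀^Fin 2]→L[ℝ] ℝ} {z : V} (hφ : ∀ (c : ℂ) u, bilL φ u (c • z) = 0)
    {i j k : Fin 3} (hij : i ≠ j) (hik : i ≠ k) (hjk : j ≠ k) (hm : ∀ m, m = i ∨ m = j ∨ m = k)
    (hz : z k ≠ 0) (h : Pf φ (er i) (ei i) (er j) (ei j) = 0) (a b c d : V) : Pf φ a b c d = 0 := by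
  have key : ∀ v : V, ∃ (c : ℂ) (p q r s : ℝ),
      v = c • z + (p • er i + q • ei i + r • er j + s • ei j) := fun v => by
    refine ⟨v k / z k, (v i - v k / z k * z i).re, (v i - v k / z k * z i).im,
      (v j - v k / z k * z j).re, (v j - v k / z k * z j).im, funext fun m => ?_⟩
    rcases hm m with rfl | rfl | rfl <;>
      simp [er, ei, hij, hij.symm, hik.symm, hjk.symm, hz, -sub_re, -sub_im]
  have h' : ∀ (c : ℂ) u, bilL φ (c • z) u = 0 := fun c u => by rw [bilL_skew, hφ, neg_zero]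
  obtain ⟨_, a1, a2, a3, a4, rfl⟩ := key a
  obtain ⟨_, b1, b2, b3, b4, rfl⟩ := key b
  obtain ⟨_, c1, c2, c3, c4, rfl⟩ := key c
  obtain ⟨_, d1, d2, d3, d4, rfl⟩ := key d
  simp only [Pf, map_add, map_smul, add_apply, smul_apply, smul_eq_mul, hφ, h', bilL_self,
    bilL_skew φ (ei i) (er i), bilL_skew φ (er j) (er i), bilL_skew φ (ei j) (er i),
    bilL_skew φ (er j) (ei i), bilL_skew φ (ei j) (ei i), bilL_skew φ (ei j) (er j)] at h ⊢
  linear_combination (a1 * (b2 * (c3 * d4 - c4 * d3) - b3 * (c2 * d4 - c4 * d2) +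
    b4 * (c2 * d3 - c3 * d2)) - a2 * (b1 * (c3 * d4 - c4 * d3) - b3 * (c1 * d4 - c4 * d1) +
    b4 * (c1 * d3 - c3 * d1)) + a3 * (b1 * (c2 * d4 - c4 * d2) - b2 * (c1 * d4 - c4 * d1) +
    b4 * (c1 * d2 - c2 * d1)) - a4 * (b1 * (c2 * d3 - c3 * d2) - b2 * (c1 * d3 - c3 * d1) +
    b3 * (c1 * d2 - c2 * d1))) * h

theorem alg3 {z : Fin 3 → ℝ} {B g : Fin 3 → Fin 3 → ℝ} (hz : ∀ j, z j ≠ 0)
    (hs : z 0 ^ 2 + z 1 ^ 2 + z 2 ^ 2 = 1) (h1 : ∀ k, z 0 * B k 0 + z 1 * B k 1 + z 2 * B k 2 = 0)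
    (h2 : ∀ j, z 0 * B 0 j + z 1 * B 1 j + z 2 * B 2 j = 0) (h3 : ∀ j k, z j * B k j = z k * g j k) :
    let D := (g 1 1 - g 1 0) * (g 2 2 - g 2 0) - (g 1 2 - g 1 0) * (g 2 1 - g 2 0)
    B 1 1 * B 2 2 - B 1 2 * B 2 1 = z 0 ^ 2 * D ∧ B 0 0 * B 2 2 - B 0 2 * B 2 0 = z 1 ^ 2 * D ∧
      B 0 0 * B 1 1 - B 0 1 * B 1 0 = z 2 ^ 2 * D := by
  have e : ∀ j k, g j k = z j * B k j / z k := fun j k => by
    rw [h3]; field_simp [hz k]
  have e1 : ∀ k, B k 0 = -(z 1 * B k 1 + z 2 * B k 2) / z 0 := fun k => by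
    field_simp [hz 0]; linarith [h1 k]
  have e2 : ∀ k, B 0 k = -(z 1 * B 1 k + z 2 * B 2 k) / z 0 := fun k => by
    field_simp [hz 0]; linarith [h2 k]
  have := hz 0
  have := hz 1
  have := hz 2
  simp only [e, e1, e2 1, e2 2]
  refine ⟨?_, ?_, ?_⟩ <;> field_simp
  · linear_combination z 0 ^ 2 * (B 1 2 * B 2 1 - B 1 1 * B 2 2) * hs
  · linear_combination z 0 ^ 2 * z 1 ^ 2 * (B 1 2 * B 2 1 - B 1 1 * B 2 2) * hs
  · linear_combination z 0 ^ 2 * z 2 ^ 2 * (B 1 2 * B 2 1 - B 1 1 * B 2 2) * hs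

theorem cont_gg {σ : Form 2} (h : ContDiffOn ℝ ∞ σ {0}ᶜ) (a : V) (k : Fin 3) :
    ContinuousOn (fun x => gg σ a k (sc x)) Tri := by
  have h1 : ContinuousOn (fun x => σ (sc x)) Tri :=
    h.continuousOn.comp cont_sc.continuousOn fun x hx => sc_ne hx
  have h2 : ContinuousOn (fun x => fderiv ℝ σ (sc x)) Tri :=
    (h.continuousOn_fderiv_of_isOpen isOpen_compl_singleton (by simp)).comp cont_sc.continuousOn
      fun x hx => sc_ne hx
  exact (((bilL.continuous.comp_continuousOn (h2.clm_apply continuousOn_const)).clm_apply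
    continuousOn_const).clm_apply (continuous_const.mul cont_sc).continuousOn).add
    (((bilL.continuous.comp_continuousOn h1).clm_apply continuousOn_const).clm_apply
      continuousOn_const)

theorem G2.pf {σ : Form 2} (h : G2 σ) {x : ℂ} (hx : x ∈ Tri) :
    let D := 4 * det (grad σ (ei 1) x) (grad σ (ei 2) x)
    Pf (σ (sc x)) (er 1) (ei 1) (er 2) (ei 2) = xs x 0 * D ∧
    Pf (σ (sc x)) (er 0) (ei 0) (er 2) (ei 2) = xs x 1 * D ∧
    Pf (σ (sc x)) (er 0) (ei 0) (er 1) (ei 1) = xs x 2 * D := by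
  have key : ∀ x ∈ TriO, let D := 4 * det (grad σ (ei 1) x) (grad σ (ei 2) x)
      Pf (σ (sc x)) (er 1) (ei 1) (er 2) (ei 2) = xs x 0 * D ∧
      Pf (σ (sc x)) (er 0) (ei 0) (er 2) (ei 2) = xs x 1 * D ∧
      Pf (σ (sc x)) (er 0) (ei 0) (er 1) (ei 1) = xs x 2 * D := fun x hx => by
    have hz := sc_ne (triO_sub hx)
    have h0 := fun j => (Real.sqrt_pos.2 (xs_pos hx j)).ne'
    have m : ∀ j, ei j * sc x = √(xs x j) • ei j := fun j => ei_mul j rfl
    have sq := fun j => Real.sq_sqrt (xs_pos hx j).le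
    have c : ∀ i j, bilL (σ (sc x)) (ei i) (ei j) = 0 := fun i j => by
      simpa [m, h0] using h.lag _ _ (la_ei i) (la_ei j) _ hz
    have := alg3 (z := fun j => √(xs x j)) (B := fun k j => bilL (σ (sc x)) (er k) (ei j))
      (g := fun j k => gg σ (ei j) k (sc x)) h0 (by simp only [sq]; simp [xs]; ring)
      (fun k => by
        have : I • sc x = √(xs x 0) • ei 0 + √(xs x 1) • ei 1 + √(xs x 2) • ei 2 := by
          ext j; fin_cases j <;> simp [sc, ei, mul_comm]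
        simpa [this] using h.horiz _ hz I (er k))
      (fun k => by
        have : (1 : ℂ) • sc x = √(xs x 0) • er 0 + √(xs x 1) • er 1 + √(xs x 2) • er 2 := by
          ext j; fin_cases j <;> simp [sc, er]
        have h1 := h.horiz _ hz 1 (ei k)
        rw [bilL_skew, neg_eq_zero] at h1
        simpa only [this, map_add, map_smul, add_apply, smul_apply, smul_eq_mul] using h1)
      fun j k => by simpa [m, sc] using h.rad (la_ei j) hz (k := k) rfl
    simp only [sq] at this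
    simp only [Pf, c, bilL_skew _ (ei _) (er _), det, grad]
    refine ⟨?_, ?_, ?_⟩
    · linear_combination this.1
    · linear_combination this.2.1
    · linear_combination this.2.2
  have h1 : ∀ a b, ContinuousOn (fun x => bilL (σ (sc x)) a b) Tri := fun a b =>
    ((bilL.continuous.comp_continuousOn (h.smooth.continuousOn.comp cont_sc.continuousOn
      fun x hx => sc_ne hx)).clm_apply continuousOn_const).clm_apply continuousOn_const
  have h2 := cont_gg h.smooth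
  have h3 : ∀ j, Continuous fun x => xs x j := fun j => by fin_cases j <;> simp [xs] <;> fun_prop
  have e : ∀ (a b c d : V) (j : Fin 3), (∀ x ∈ TriO, Pf (σ (sc x)) a b c d = xs x j *
      (4 * det (grad σ (ei 1) x) (grad σ (ei 2) x))) → Pf (σ (sc x)) a b c d = xs x j *
      (4 * det (grad σ (ei 1) x) (grad σ (ei 2) x)) := fun a b c d j k =>
    EqOn.of_subset_closure k ((((h1 _ _).mul (h1 _ _)).sub ((h1 _ _).mul (h1 _ _))).add
      ((h1 _ _).mul (h1 _ _))) (by unfold det grad; fun_prop) triO_sub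
      tri_closure.ge hx
  exact ⟨e _ _ _ _ _ fun x hx => (key x hx).1, e _ _ _ _ _ fun x hx => (key x hx).2.1,
    e _ _ _ _ _ fun x hx => (key x hx).2.2⟩

theorem G2.nondeg {σ : Form 2} (h : G2 σ) : (∀ z, z ≠ 0 → ∃ a b c d, Pf (σ z) a b c d ≠ 0) ↔
    ∀ x ∈ Tri, det (grad σ (ei 1) x) (grad σ (ei 2) x) ≠ 0 := by
  have k : ∀ x, xs x 0 ≠ 0 ∨ xs x 1 ≠ 0 ∨ xs x 2 ≠ 0 := fun x => by
    by_contra! h
    simp [xs] at h
    simp [h.2.1, h.2.2] at h
  refine ⟨fun H x hx e => ?_, fun H z hz => ?_⟩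
  · obtain ⟨a, b, c, d, H⟩ := H _ (sc_ne hx)
    have := h.pf hx
    simp only [e, mul_zero] at this
    have s : ∀ j, xs x j ≠ 0 → sc x j ≠ 0 := fun j hj => by
      simpa [sc, Real.sqrt_eq_zero (xs_nonneg hx j)] using hj
    rcases k x with k | k | k
    · exact H (pf_zero (h.horiz _ (sc_ne hx)) (by decide) (by decide) (by decide) (by decide)
        (s _ k) this.1 ..)
    · exact H (pf_zero (h.horiz _ (sc_ne hx)) (by decide) (by decide) (by decide) (by decide)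
        (s _ k) this.2.1 ..)
    · exact H (pf_zero (h.horiz _ (sc_ne hx)) (by decide) (by decide) (by decide) (by decide)
        (s _ k) this.2.2 ..)
  · obtain ⟨g, hg, e⟩ := transport hz
    have hx := mu_mem hz
    have t : ∀ a b c d, Pf (σ z) (g * a) (g * b) (g * c) (g * d) = Pf (σ (sc (mu z))) a b c d :=
      fun a b c d => by
        conv_lhs => rw [e]
        simp only [Pf, h.inv g hg _ (sc_ne hx)]
    have := h.pf hx
    have d := mul_ne_zero four_ne_zero (H _ hx)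
    rcases k (mu z) with k | k | k
    · exact ⟨_, _, _, _, by rw [t, this.1]; exact mul_ne_zero k d⟩
    · exact ⟨_, _, _, _, by rw [t, this.2.1]; exact mul_ne_zero k d⟩
    · exact ⟨_, _, _, _, by rw [t, this.2.2]; exact mul_ne_zero k d⟩

end Pool.Agent.MP_2fc7fa_gt.Tor
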