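import Pool.Agent.MP_2fc7fa_gt.TAngle
import Pool.Agent.MP_2fc7fa_gt.Sm

/-! Construction of height functions and of second coordinates on the triangle. -/

namespace Pool.Agent.MP_2fc7fa_gt.Tor

open Set Complex Filter Topology
open scoped ContDiff Real

theorem hadamard {h : ℂ → ℝ} (hh : ContDiff ℝ ∞ h) : ∃ A B : ℂ → ℝ, ContDiff ℝ ∞ A ∧
    ContDiff ℝ ∞ B ∧ ∀ x, h x = h 0 + x.re * A x + x.im * B x := by
  have h1 : ContDiff ℝ ∞ (fderiv ℝ h) := (contDiff_infty_iff_fderiv.1 hh).2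
  have h2 : ContDiff ℝ ∞ fun x : ℂ => ∫ t in (0 : ℝ)..1, fderiv ℝ h (t • x) :=
    contDiffOn_univ.1 (Sm.contDiffOn (P := Unit) (fun n => Fam.integral convex_univ
      (((sm_const continuous_snd).smul sm_id).post' h1 n)) uniqueDiffOn_univ ())
  refine ⟨_, _, h2.clm_apply (contDiff_const (c := 1)), h2.clm_apply (contDiff_const (c := I)),
    fun x => ?_⟩
  have c : Continuous fun t : ℝ => fderiv ℝ h (t • x) := h1.continuous.comp (by fun_prop)
  have h3 := intervalIntegral.integral_eq_sub_of_hasDerivAt (f := fun t : ℝ => h (t • x))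
    (f' := fun t => fderiv ℝ h (t • x) x) (a := 0) (b := 1) (fun t _ => by
      simpa only [one_smul, Function.comp_def] using
        (hh.differentiable (by simp) (t • x)).hasFDerivAt.comp_hasDerivAt t
        ((hasDerivAt_id' t).smul_const x)) ((c.clm_apply continuous_const).intervalIntegrable _ _)
  rw [← ContinuousLinearMap.intervalIntegral_apply (c.intervalIntegrable _ _)] at h3
  rw [add_assoc, ← smul_eq_mul, ← smul_eq_mul, ← map_smul, ← map_smul, ← map_add]
  simp only [real_smul, mul_one, re_add_im, one_smul, zero_smul] at h3 ⊢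
  linarith

theorem height {l : ℝ} (hl : 0 < l) {θ : C(Tri, ℝ)} (hθ : Win θ) : ∃ A B C : ℂ → ℝ,
    ContDiff ℝ ∞ A ∧ ContDiff ℝ ∞ B ∧ ContDiff ℝ ∞ C ∧
    (∀ x, (1 - x.re - x.im) * C x + x.re * A x + x.im * B x = l) ∧
    ∀ N, HG (fun x => x.re * A x + x.im * B x) N → Rel θ N := by
  have cA : ∀ x, AH x → 0 < Real.cos (θ x) := fun x hx => Real.cos_pos_of_mem_Ioo ((hθ x).1 hx)
  have cB : ∀ x, BH x → 0 < Real.sin (θ x) := fun x hx =>
    Real.sin_pos_of_mem_Ioo ((hθ x).2 hx)
  have kH : IsClosed {x : Tri | x.1.re + x.1.im = 1} := isClosed_eq (by fun_prop) continuous_const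
  have kA : IsClosed {x | AH x} := (isClosed_eq (by fun_prop) continuous_const).union kH
  have kB : IsClosed {x | BH x} := (isClosed_eq (by fun_prop) continuous_const).union kH
  obtain ⟨L, hL, h1⟩ := lyap_tri θ (((isCompact_range (f := fun x : Tri => (x, exp (θ x * I)))
    (by fun_prop)).union (kA.isCompact.prod (isCompact_singleton (x := 1)))).union
    (kB.isCompact.prod (isCompact_singleton (x := I)))) (by
      rintro ⟨x, v⟩ ((⟨y, ⟨⟩⟩ | ⟨hx, ⟨⟩⟩) | ⟨hx, ⟨⟩⟩)
      · simp [← exp_add]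
      · simpa [exp_re] using cA x hx
      · simpa [exp_im] using cB x hx)
  have c : Continuous (fderiv ℝ L) := hL.continuous_fderiv (by simp)
  have l0 : ∀ x : Tri, 0 ≤ 1 - x.1.re - x.1.im := fun x => by linarith [x.2.2.2]
  have l1 : ∀ x : Tri, 1 ≤ fderiv ℝ L x (exp (θ x * I)) := fun x => h1 (x, _) (.inl (.inl ⟨x, rfl⟩))
  obtain ⟨M, hM, h2⟩ := large_M (K := univ) isCompact_univ
    (a := fun x : Tri => Real.cos (θ x) + Real.sin (θ x))
    (b := fun x => (1 - x.1.re - x.1.im) * fderiv ℝ L x (exp (θ x * I))) (by fun_prop) (by fun_prop)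
    (fun x _ => mul_nonneg (l0 x) (zero_le_one.trans (l1 x))) fun x _ h => by
      have : x.1.re + x.1.im = 1 := by
        linarith [(mul_eq_zero.1 h).resolve_right (by linarith [l1 x])]
      exact add_pos (cA x (.inr this)) (cB x (.inr this))
  have hC : ContDiff ℝ ∞ fun x => l * rexp (M * (L 0 - L x)) := by fun_prop
  obtain ⟨A, B, hA, hB, h3⟩ := hadamard (h := fun x => l - (1 - x.re - x.im) *
    (l * rexp (M * (L 0 - L x)))) (contDiff_const.sub (((contDiff_const.sub reCLM.contDiff).sub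
      imCLM.contDiff).mul hC))
  replace h3 : ∀ x, x.re * A x + x.im * B x = l - (1 - x.re - x.im) *
      (l * rexp (M * (L 0 - L x))) := fun x => by simpa using (h3 x).symm
  refine ⟨A, B, _, hA, hB, hC, fun x => by linarith [h3 x], fun N hN x => ?_⟩
  simp only [h3] at hN
  have d := (tri_uniq x x.2).eq (hN x) ((((((reCLM.hasFDerivAt (x := x.1)).const_sub 1).sub
    imCLM.hasFDerivAt).mul (((((hL.differentiable (by simp) x).hasFDerivAt.const_sub
      (L 0)).const_mul M).exp).const_mul l)).const_sub l).hasFDerivWithinAt)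
  have e : ∀ v, dot (N x) v = l * rexp (M * (L 0 - L x)) *
      (v.re + v.im + M * ((1 - x.1.re - x.1.im) * fderiv ℝ L x v)) := fun v => by
    rw [d]; simp; ring
  have p : 0 < l * rexp (M * (L 0 - L x)) := by positivity
  refine ⟨?_, fun hx => ?_, fun hx => ?_⟩
  · have := mul_pos p (h2 x trivial)
    rw [← exp_ofReal_mul_I_re, ← exp_ofReal_mul_I_im, ← e] at this
    simpa [exp_re, exp_im] using this
  · have := h1 (x, 1) (.inl (.inr ⟨hx, rfl⟩))
    have := mul_pos p (add_pos_of_pos_of_nonneg (show 0 < (1 : ℂ).re + (1 : ℂ).im by simp)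
      (mul_nonneg hM (mul_nonneg (l0 x) (zero_le_one.trans this))))
    rw [← e] at this
    simpa using this
  · have := h1 (x, I) (.inr ⟨hx, rfl⟩)
    have := mul_pos p (add_pos_of_pos_of_nonneg (show 0 < I.re + I.im by simp)
      (mul_nonneg hM (mul_nonneg (l0 x) (zero_le_one.trans this))))
    rw [← e] at this
    simpa using this

theorem den_pos {x : ℂ} (hx : x ∈ Tri) (h0 : x ≠ 0) {a b : ℝ} (ha : 0 < a) (hb : 0 < b) :
    0 < x.re * a + x.im * b := by
  rcases hx.1.eq_or_lt with e | e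
  · have : 0 < x.im := hx.2.1.lt_of_ne fun e' => h0 (Complex.ext e.symm e'.symm)
    simpa [← e] using mul_pos this hb
  · exact add_pos_of_pos_of_nonneg (mul_pos e ha) (mul_nonneg hx.2.1 hb.le)

theorem second {l : ℝ} {F₁ F₂ : ℂ → ℝ} {P Q : C(Tri, ℂ)} (h₁ : HG F₁ P) (h₂ : HG F₂ Q)
    (hb : Bd l F₁ F₂) (hc : Hc (P + Q)) : ∃ (δ : ℝ) (ν : ℝ → ℝ) (a b : ℂ → ℝ), 0 < δ ∧
    ContDiff ℝ ∞ ν ∧ (∀ t < δ, ν t = 0) ∧ ContDiff ℝ ∞ a ∧ ContDiff ℝ ∞ b ∧ (∀ x, 0 < a x) ∧
    (∀ x, 0 < b x) ∧ ∀ P', HG (fun x => (1 - ν (F₁ x + F₂ x)) * F₁ x + ν (F₁ x + F₂ x) *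
      (F₁ x + F₂ x) * (x.re * a x * (x.re * a x + x.im * b x)⁻¹)) P' →
      ∀ x, 0 < det (P' x) ((P + Q) x) := by
  have hh := h₁.add h₂
  have d0 : 0 < det (P ⟨0, zero_mem_tri⟩) ((P + Q) ⟨0, zero_mem_tri⟩) := by
    have a := edgeA h₂ (fun x hx => (hb x hx).2.1) ⟨0, zero_mem_tri⟩ rfl
    have b := edgeB h₁ (fun x hx => (hb x hx).1) ⟨0, zero_mem_tri⟩ rfl
    simpa [det, a, b] using mul_pos ((hc ⟨0, zero_mem_tri⟩).2.1 (.inl rfl))
      ((hc ⟨0, zero_mem_tri⟩).2.2 (.inl rfl))
  generalize P + Q = N at *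
  generalize hF : (fun x => F₁ x + F₂ x) = F at hh
  have hF' : ∀ x, F₁ x + F₂ x = F x := congrFun hF
  simp only [hF']
  have F0 : F 0 = 0 := by simp [← hF', (hb 0 zero_mem_tri).1 rfl, (hb 0 zero_mem_tri).2.1 rfl]
  have cF : Continuous fun x : Tri => F x := hh.cont.domRestrict
  obtain ⟨θ, hθ⟩ := angle
  obtain ⟨L, hL, h1⟩ := lyap_tri (θ ⟨N, hc⟩ + .const _ (π / 2))
    (isCompact_range (f := fun x : Tri => (x, I * N x)) (by fun_prop)) (by
      rintro _ ⟨x, rfl⟩
      have : exp (-((θ ⟨N, hc⟩ x + π / 2 : ℝ) : ℂ) * I) = -I * exp (-(θ ⟨N, hc⟩ x : ℂ) * I) := by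
        rw [← exp_neg_pi_div_two_mul_I, ← exp_add]; congr 1; push_cast; ring
      simp only [ContinuousMap.add_apply, ContinuousMap.const_apply, this]
      convert ((hθ ⟨N, hc⟩).2 x).1 using 2
      linear_combination (-N x * exp (-(θ ⟨N, hc⟩ x : ℂ) * I)) * I_mul_I)
  have l1 : ∀ x : Tri, 1 ≤ fderiv ℝ L x (I * N x) := fun x => h1 (x, _) ⟨x, rfl⟩
  have c : Continuous (fderiv ℝ L) := hL.continuous_fderiv (by simp)
  obtain ⟨ε, hε, h2⟩ := (isClosed_le (f := fun x => det (P x) (N x)) (g := fun _ => 0)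
    (by unfold det; fun_prop) continuous_const).isCompact.exists_forall_le' cF.continuousOn (a := 0)
    fun x hx => F0 ▸ min_at_zero hh hc x.2 fun e => by
      obtain rfl : x = ⟨0, zero_mem_tri⟩ := Subtype.ext e
      exact d0.not_ge hx
  obtain ⟨M, hM, h3⟩ := large_M (isClosed_le (f := fun _ => ε / 2) continuous_const cF).isCompact
    (a := fun x : Tri => x.1.re * (N x).re + x.1.im * (N x).im)
    (b := fun x => 2 * x.1.re * x.1.im * fderiv ℝ L x (I * N x)) (by fun_prop) (by fun_prop)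
    (fun x _ => mul_nonneg (mul_nonneg (mul_nonneg zero_le_two x.2.1) x.2.2.1)
      (zero_le_one.trans (l1 x))) fun x hx h => by
      have h0 : x.1 ≠ 0 := fun e => by
        simp only [mem_ofPred_eq, e, F0] at hx
        linarith
      have : x.1.re = 0 ∨ x.1.im = 0 := by
        simpa using (mul_eq_zero.1 h).resolve_right (by linarith [l1 x])
      rcases this with e | e
      · simpa [e] using den_pos x.2 h0 one_pos ((hc x).2.2 (.inl e))
      · simpa [e] using den_pos x.2 h0 ((hc x).2.1 (.inl e)) one_pos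
  obtain ⟨ν, hν, ν0, ν1, ν2⟩ : ∃ ν : ℝ → ℝ, ContDiff ℝ ∞ ν ∧ (∀ t < ε / 2, ν t = 0) ∧
      (∀ t ≥ ε, ν t = 1) ∧ ∀ t, 0 ≤ ν t ∧ ν t ≤ 1 :=
    ⟨fun t => Real.smoothTransition ((t - ε / 2) / (ε / 2)),
      Real.smoothTransition.contDiff.comp (by fun_prop), fun t ht =>
      Real.smoothTransition.zero_of_nonpos (div_nonpos_of_nonpos_of_nonneg (by linarith)
        (by linarith)), fun t ht =>
      Real.smoothTransition.one_of_one_le ((one_le_div (by linarith)).2 (by linarith)),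
      fun t => ⟨Real.smoothTransition.nonneg _, Real.smoothTransition.le_one _⟩⟩
  refine ⟨ε / 2, ν, fun x => rexp (-M * L x), fun x => rexp (M * L x), half_pos hε, hν, ν0,
    by fun_prop, by fun_prop, fun _ => Real.exp_pos _, fun _ => Real.exp_pos _, fun P' hP x => ?_⟩
  have dp : F x < ε → 0 < det (P x) (N x) := fun h => not_le.1 fun k => h.not_ge (h2 x k)
  have dd : ∀ n, det n (N x) = -dot n (I * N x) := fun n => by simp [det]; ring
  rcases lt_or_ge (F x) (ε / 2) with k | k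
  · have := (tri_uniq x x.2).eq (hP x) ((h₁ x).congr_of_eventuallyEq
      (((hh.cont x x.2).eventually (gt_mem_nhds k)).mono fun y hy => by simp [ν0 _ hy])
      (by simp [ν0 _ k]))
    rw [dd, this, ← dd]
    exact dp (by linarith)
  have h0 : x.1 ≠ 0 := fun e => by
    rw [e, F0] at k
    linarith
  have den := den_pos x.2 h0 (Real.exp_pos (-M * L x)) (Real.exp_pos (M * L x))
  have dL := (hL.differentiable (by simp) x).hasFDerivAt
  have dν := (hν.differentiable (by simp) (F x)).hasDerivAt.comp_hasFDerivWithinAt x.1 (hh x)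
  have dp' := (reCLM.hasFDerivAt (x := x.1)).mul (dL.const_mul (-M)).exp
  have dq' := (imCLM.hasFDerivAt (x := x.1)).mul (dL.const_mul M).exp
  have d := (tri_uniq x x.2).eq (hP x) (((dν.const_sub 1).mul (h₁ x)).add ((dν.mul (hh x)).mul
    (dp'.mul ((hasDerivAt_inv den.ne').comp_hasFDerivAt x.1 (dp'.add dq'))).hasFDerivWithinAt))
  have z : dot (N x) (I * N x) = 0 := by simp; ring
  have e : det (P' x) (N x) = (1 - ν (F x)) * det (P x) (N x) + ν (F x) * (F x *
      (x.1.re * (N x).re + x.1.im * (N x).im + M * (2 * x.1.re * x.1.im * fderiv ℝ L x (I * N x))) /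
      (x.1.re * rexp (-M * L x) + x.1.im * rexp (M * L x)) ^ 2) := by
    have : rexp (-M * L x) * rexp (M * L x) = 1 := by rw [← Real.exp_add]; simp
    rw [dd, dd, d]
    simp only [add_apply, smul_apply, z, neg_apply, Function.comp_apply, Pi.add_apply, Pi.mul_apply, smul_eq_mul, reCLM_apply,
      imCLM_apply, I_mul_re, I_mul_im]
    generalize rexp (-M * L x) = a at *
    generalize rexp (M * L x) = b at *
    field_simp
    linear_combination ν (F x) * F x * (x.1.re * (N x).re + x.1.im * (N x).im + M *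
      (2 * x.1.re * x.1.im * fderiv ℝ L x (I * N x))) * this
  have p := div_pos (mul_pos ((half_pos hε).trans_le k) (h3 x k)) (pow_pos den 2)
  rw [e]
  rcases lt_or_ge (F x) ε with k' | k'
  · have := dp k'
    rcases (ν2 (F x)).1.eq_or_lt with r | r
    · simpa [← r] using this
    · exact add_pos_of_nonneg_of_pos (mul_nonneg (sub_nonneg.2 (ν2 _).2) this.le) (mul_pos r p)
  · simpa [ν1 _ k'] using p

end Pool.Agent.MP_2fc7fa_gt.Tor
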