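import Pool.Agent.MP_2fc7fa_gt.TAvg
import Pool.Agent.MP_2fc7fa_gt.TSect

/-! Realisation of prescribed moment maps. -/

namespace Pool.Agent.MP_2fc7fa_gt.Tor

open Set Complex Filter Topology
open scoped ContDiff

/-- The components of the moment map on the triangle. -/
noncomputable def mom (b : L1) (k : Fin 3) (x : ℂ) : ℝ := b (sc x) (ei k * sc x)

theorem real3 {l : ℝ} (hl : 0 < l) {θ : C(Tri, ℝ)} (hθ : Win θ) : ∃ b, Conn l b ∧
    ∀ N, HG (fun x => mom b 1 x + mom b 2 x) N → Rel θ N := by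
  obtain ⟨A, B, C, hA, hB, hC, h1, h2⟩ := height hl hθ
  have k : ∀ {A : ℂ → ℝ}, ContDiff ℝ ∞ A → ∀ j, Pre fun z => A (mu z) • aj (er j) z := fun hA j =>
    (pre_aj _).smul (hA.comp_contDiffOn smooth_mu) fun g hg z _ => by rw [hg.mu]
  obtain ⟨b, h3, h4⟩ := (((k hC 0).add (k hA 1)).add (k hB 2)).conn (l := l) fun z hz => by
    simp [aj_ei _ _ hz, xs]
    linarith [h1 (mu z)]
  refine ⟨b, h3, fun N hN => h2 N (hN.congr fun x hx => ?_)⟩
  simp [mom, h4, aj_ei _ _ (sc_ne hx), xs, mu_sc hx, mul_comm]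

theorem real4 {l : ℝ} {b : L1} (h : Conn l b) {P Q : C(Tri, ℂ)} (h₁ : HG (mom b 1) P)
    (h₂ : HG (mom b 2) Q) (hc : Hc (P + Q)) : ∃ b', Conn l b' ∧
    (∀ x ∈ Tri, mom b' 1 x + mom b' 2 x = mom b 1 x + mom b 2 x) ∧
    ∀ P', HG (mom b' 1) P' → ∀ x, 0 < det (P' x) ((P + Q) x) := by
  obtain ⟨δ, ν, p, q, hδ, hν, ν0, hp, hq, p0, q0, key⟩ := second h₁ h₂ h.bd hc
  have hU : IsOpen ({0}ᶜ : Set V) := isOpen_compl_singleton
  set f : V → ℝ := fun z => b z (ei 1 * z) + b z (ei 2 * z) with hf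
  have f1 : ContDiffOn ℝ ∞ f {0}ᶜ := (h.smooth_mom _).add (h.smooth_mom _)
  have f2 : ∀ g, TG g → ∀ z ≠ 0, f (g * z) = f z := fun g hg z hz => by
    simp only [hf, h.mom_inv _ hg hz]
  have f3 : ∀ z ≠ 0, mu z = 0 → f z = 0 := fun z hz e => by
    obtain ⟨g, hg, e'⟩ := transport hz
    rw [e', e, f2 g hg _ (sc_ne zero_mem_tri)]
    exact (congrArg₂ (· + ·) ((h.bd 0 zero_mem_tri).1 rfl) ((h.bd 0 zero_mem_tri).2.1 rfl)).trans
      (add_zero _)
  have n1 := hν.comp_contDiffOn f1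
  have k : ∀ {c : ℂ → ℝ}, ContDiff ℝ ∞ c → ∀ j, Pre fun z => (ν (f z) * f z * (c (mu z) *
      ((mu z).re * p (mu z) + (mu z).im * q (mu z))⁻¹)) • aj (er j) z := fun {c} hc j =>
    (pre_aj _).smul (fun z hz => by
      by_cases e : mu z = 0
      · refine (contDiffWithinAt_const (c := 0)).congr_of_eventuallyEq_of_mem ?_ hz
        exact ((f1.continuousOn z hz).eventually (gt_mem_nhds ((f3 z hz e).trans_lt hδ))).mono
          fun y hy => by simp [ν0 _ hy]
      · exact ((n1 z hz).mul (f1 z hz)).mul ((hc.contDiffAt.mul (((reCLM.contDiff.mul hp).add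
          (imCLM.contDiff.mul hq)).contDiffAt.inv
          (den_pos (mu_mem hz) e (p0 _) (q0 _)).ne')).comp_contDiffWithinAt z (smooth_mu z hz)))
      fun g hg z hz => by rw [hg.mu, f2 g hg z hz]
  have s : ∀ z ≠ 0, ν (f z) * f z * (p (mu z) * ((mu z).re * p (mu z) + (mu z).im * q (mu z))⁻¹) *
      (mu z).re + ν (f z) * f z * (q (mu z) * ((mu z).re * p (mu z) + (mu z).im * q (mu z))⁻¹) *
      (mu z).im = ν (f z) * f z := fun z hz => by
    by_cases e : mu z = 0
    · simp [f3 z hz e]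
    · linear_combination ν (f z) * f z *
        mul_inv_cancel₀ (den_pos (mu_mem hz) e (p0 (mu z)) (q0 (mu z))).ne'
  have e : ∀ j z, er 0 * (ei j * z) = if j = 0 then ei 0 * z else 0 := fun j z => by
    ext i
    fin_cases j <;> fin_cases i <;> simp [er, ei]
  obtain ⟨b', h3, h4⟩ := ((((h.smul ((contDiffOn_const (c := 1)).sub n1) fun g hg z hz => by
    simp only [Function.comp, f2 g hg z hz]).add ((h.comp (er 0)).smul n1 fun g hg z hz => by
    simp only [Function.comp, f2 g hg z hz])).add (k hp 1)).add (k hq 2)).conn (l := l)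
    fun z hz => by
      have := h.horiz z hz I
      rw [I_smul, map_add, map_add] at this
      simp [aj_ei _ _ hz, xs, e] at this ⊢
      linear_combination this + s z hz
  refine ⟨b', h3, fun x hx => ?_, fun P' hP => key P' (hP.congr fun x hx => ?_)⟩
  · have := s _ (sc_ne hx)
    simp [mom, h4, aj_ei _ _ (sc_ne hx), xs, e]
    linear_combination this
  · simp [mom, h4, aj_ei _ _ (sc_ne hx), xs, e, mu_sc hx, hf]
    ring

end Pool.Agent.MP_2fc7fa_gt.Tor
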